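import Mathlib
import Pool.Agent.H554R2.Qua.Defs

/-!
# Nondeterminism on both sides against randomised programs of length `k n`: definitions
-/

set_option autoImplicit false

open Finset

namespace Pool.Agent.H554R2.NC

open Pool.Agent.H554R2.Sem Pool.Agent.H554R2.Coin Pool.Agent.H554R2.Lin Pool.Agent.H554R2.Rnd
open Pool.Agent.H554R2.Qua

/-- The function in question: some row consists of forms with the value `1`.  The forms are
numbered by the pairs (row, column). -/
def ao {n G t : ℕ} (π : Fin (t * t) → Fin n → Fin G) (h : Fin (t * t) → Fin n → Fin n → Bool)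
    (x : Pt n) : Bool :=
  decide (∃ i : Fin t, ∀ j : Fin t,
    qr (π (finProdFinEquiv (i, j))) (h (finProdFinEquiv (i, j))) x = true)

/-- The pattern with exactly one `0` in every row, in the row `i` it is in the column `J i`. -/
def zr {t : ℕ} (J : Fin t → Fin t) : Fin (t * t) → Bool := fun c =>
  decide ((finProdFinEquiv.symm c).2 ≠ J (finProdFinEquiv.symm c).1)

/-- The same pattern, but there are only ones in the row `i`. -/
def zo {t : ℕ} (J : Fin t → Fin t) (i : Fin t) : Fin (t * t) → Bool := fun c =>
  decide ((finProdFinEquiv.symm c).1 = i ∨ (finProdFinEquiv.symm c).2 ≠ J (finProdFinEquiv.symm c).1)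

/-- The probability of the pattern `z`, the entries being independent and `0` with probability
`16 / t`. -/
noncomputable def mu {t : ℕ} (z : Fin (t * t) → Bool) : ℝ :=
  ∏ c, (if z c = true then 1 - 16 / (t : ℝ) else 16 / (t : ℝ))

end Pool.Agent.H554R2.NC
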