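import Mathlib
import Pool.Agent.H554R2.NC.Defs

/-!
# Variances of the averages over cosets (task N1)
-/

set_option autoImplicit false

open Finset

namespace Pool.Agent.H554R2.NC

open Pool.Agent.H554R2.Sem Pool.Agent.H554R2.Coin Pool.Agent.H554R2.Lin Pool.Agent.H554R2.Rnd
open Pool.Agent.H554R2.Qua

/-- composition along a list -/
def N1_app {ι V : Type} (P : ι → (V → ℝ) →ₗ[ℝ] (V → ℝ)) : List ι → (V → ℝ) → (V → ℝ)
  | [], g => g
  | i :: T, g => P i (N1_app P T g)

theorem N1_app_comm {ι V : Type} (P : ι → (V → ℝ) →ₗ[ℝ] (V → ℝ))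
    (hc : ∀ i j g, P i (P j g) = P j (P i g)) (j : ι) (T : List ι) (g : V → ℝ) :
    N1_app P T (P j g) = P j (N1_app P T g) := by
  induction T with
  | nil => rfl
  | cons i T ih =>
    simp only [N1_app]
    rw [ih, hc]

theorem N1_app_sub {ι V : Type} (P : ι → (V → ℝ) →ₗ[ℝ] (V → ℝ)) (T : List ι) (f g : V → ℝ) :
    N1_app P T (f - g) = N1_app P T f - N1_app P T g := by
  induction T with
  | nil => rfl
  | cons i T ih =>
    simp only [N1_app]
    rw [ih, map_sub]

theorem N1_abs {ι V : Type} [DecidableEq ι] [Fintype V] (P : ι → (V → ℝ) →ₗ[ℝ] (V → ℝ))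
    (hc : ∀ i j g, P i (P j g) = P j (P i g)) (hi : ∀ i g, P i (P i g) = P i g)
    (hs : ∀ i f g, P i f ⬝ᵥ g = f ⬝ᵥ P i g) (s : Finset ι) :
    ∀ (r : ℕ) (g : V → ℝ), (∀ T : List ι, T.Nodup → (∀ i ∈ T, i ∈ s) → T.length = r →
      N1_app P T g = 0) → ∑ i ∈ s, P i g ⬝ᵥ g ≤ ((r : ℝ) - 1) * (g ⬝ᵥ g) := by
  have hnn : ∀ g : V → ℝ, 0 ≤ g ⬝ᵥ g := fun g =>
    Finset.sum_nonneg fun v _ => mul_self_nonneg _
  have h0 : ∀ (s : Finset ι) (g : V → ℝ), (∀ T : List ι, T.Nodup → (∀ i ∈ T, i ∈ s) →
      T.length = 0 → N1_app P T g = 0) →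
      ∑ i ∈ s, P i g ⬝ᵥ g ≤ (((0 : ℕ) : ℝ) - 1) * (g ⬝ᵥ g) := by
    intro s g hg
    have : g = 0 := by
      have := hg [] List.nodup_nil (by simp) rfl
      simpa [N1_app] using this
    subst this
    simp
  induction s using Finset.induction_on with
  | empty =>
    intro r g hg
    rcases Nat.eq_zero_or_pos r with rfl | hr
    · exact h0 _ _ hg
    · simp only [Finset.sum_empty]
      have : (1 : ℝ) ≤ r := by exact_mod_cast hr
      exact mul_nonneg (by linarith) (hnn g)
  | insert j s hj ih =>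
    intro r g hg
    rcases r with _ | r
    · exact h0 _ _ hg
    · set g1 := P j g with hg1
      set g2 := g - g1 with hg2
      have e1 : ∑ i ∈ s, P i g1 ⬝ᵥ g1 ≤ ((r : ℝ) - 1) * (g1 ⬝ᵥ g1) := by
        refine ih r g1 fun T hT hTs hTl => ?_
        rw [hg1, N1_app_comm P hc]
        refine hg (j :: T) (List.nodup_cons.2 ⟨fun h => hj (hTs j h), hT⟩) ?_ (by simp [hTl])
        intro i hi'
        rcases List.mem_cons.1 hi' with rfl | h
        · exact Finset.mem_insert_self _ _
        · exact Finset.mem_insert_of_mem (hTs i h)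
      have e2 : ∑ i ∈ s, P i g2 ⬝ᵥ g2 ≤ (((r + 1 : ℕ) : ℝ) - 1) * (g2 ⬝ᵥ g2) := by
        refine ih (r + 1) g2 fun T hT hTs hTl => ?_
        have hz : N1_app P T g = 0 := hg T hT (fun i h => Finset.mem_insert_of_mem (hTs i h)) hTl
        rw [hg2, N1_app_sub, hg1, N1_app_comm P hc, hz, map_zero, sub_zero]
      have hP2 : P j g2 = 0 := by
        rw [hg2, map_sub, hg1, hi, sub_self]
      have hP1 : P j g1 = g1 := by rw [hg1, hi]
      have hgg : g = g1 + g2 := by rw [hg2]; abel
      have c12 : ∀ i, P i g1 ⬝ᵥ g2 = 0 := by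
        intro i
        rw [← hP1, hc, hs, hP2, dotProduct_zero]
      have c21 : ∀ i, P i g2 ⬝ᵥ g1 = 0 := by
        intro i
        rw [← hP1, ← hs, hc, hP2, map_zero, zero_dotProduct]
      have d12 : g1 ⬝ᵥ g2 = 0 := by
        conv_lhs => rw [← hP1]
        exact c12 j
      have d21 : g2 ⬝ᵥ g1 = 0 := by rw [dotProduct_comm]; exact d12
      rw [Finset.sum_insert hj]
      have hjj : P j g ⬝ᵥ g = g1 ⬝ᵥ g1 := by
        rw [← hg1]
        conv_lhs => rw [hgg]
        rw [dotProduct_add, d12, add_zero]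
      have hsum : ∑ i ∈ s, P i g ⬝ᵥ g = ∑ i ∈ s, P i g1 ⬝ᵥ g1 + ∑ i ∈ s, P i g2 ⬝ᵥ g2 := by
        rw [← Finset.sum_add_distrib]
        refine Finset.sum_congr rfl fun i _ => ?_
        conv_lhs => rw [hgg]
        rw [map_add, add_dotProduct, dotProduct_add, dotProduct_add, c12, c21]
        ring
      have hdd : g ⬝ᵥ g = g1 ⬝ᵥ g1 + g2 ⬝ᵥ g2 := by
        conv_lhs => rw [hgg]
        rw [add_dotProduct, dotProduct_add, dotProduct_add, d12, d21]
        ring
      rw [hjj, hsum, hdd]
      push_cast at e2 ⊢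
      nlinarith [e1, e2]

open Classical in
/-- average over the cosets -/
noncomputable def N1_E {V : Type} [AddCommGroup V] [Fintype V] (H : AddSubgroup V) (f : V → ℝ) :
    V → ℝ := fun v => (∑ u ∈ univ.filter (fun u => u ∈ H), f (v + u)) / (Nat.card H : ℝ)

variable {V : Type} [AddCommGroup V] [Fintype V]

open Classical in
theorem N1_card (H : AddSubgroup V) : ((univ.filter (fun u => u ∈ H)).card : ℝ) = Nat.card H := by
  rw [Nat.card_eq_fintype_card, Fintype.card_subtype]

theorem N1_card_pos (H : AddSubgroup V) : (0 : ℝ) < Nat.card H := by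
  exact_mod_cast Nat.card_pos

open Classical in
theorem N1_E_comm (H K : AddSubgroup V) (f : V → ℝ) :
    N1_E H (N1_E K f) = N1_E K (N1_E H f) := by
  funext v
  simp only [N1_E]
  rw [← Finset.sum_div, ← Finset.sum_div, div_div, div_div, Finset.sum_comm, mul_comm]
  congr 1
  refine Finset.sum_congr rfl fun u _ => Finset.sum_congr rfl fun t _ => ?_
  rw [add_right_comm]

open Classical in
theorem N1_E_inv (H : AddSubgroup V) (f : V → ℝ) (v h : V) (hh : h ∈ H) :
    N1_E H f (v + h) = N1_E H f v := by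
  simp only [N1_E]
  congr 1
  refine Finset.sum_nbij' (fun u => h + u) (fun u => - h + u) ?_ ?_ ?_ ?_ ?_
  · intro u hu
    simp only [mem_filter, mem_univ, true_and] at hu ⊢
    exact H.add_mem hh hu
  · intro u hu
    simp only [mem_filter, mem_univ, true_and] at hu ⊢
    exact H.add_mem (H.neg_mem hh) hu
  · intro u _; simp
  · intro u _; simp
  · intro u _; rw [add_assoc]

open Classical in
theorem N1_E_idem (H : AddSubgroup V) (f : V → ℝ) : N1_E H (N1_E H f) = N1_E H f := by
  funext v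
  have h1 : N1_E H (N1_E H f) v =
      (∑ u ∈ univ.filter (fun u => u ∈ H), N1_E H f (v + u)) / (Nat.card H : ℝ) := rfl
  rw [h1, Finset.sum_congr rfl (fun u hu => N1_E_inv H f v u (by simpa using hu)),
    Finset.sum_const, nsmul_eq_mul, N1_card]
  have := N1_card_pos H
  field_simp

open Classical in
theorem N1_E_sum (H : AddSubgroup V) (f : V → ℝ) : ∑ v, N1_E H f v = ∑ v, f v := by
  simp only [N1_E]
  rw [← Finset.sum_div, Finset.sum_comm]
  have : ∀ u ∈ univ.filter (fun u => u ∈ H), ∑ v, f (v + u) = ∑ v, f v := by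
    intro u _
    exact Equiv.sum_comp (Equiv.addRight u) f
  rw [Finset.sum_congr rfl this, Finset.sum_const, nsmul_eq_mul, N1_card]
  have := N1_card_pos H
  field_simp

open Classical in
theorem N1_E_symm (H : AddSubgroup V) (f g : V → ℝ) :
    ∑ v, N1_E H f v * g v = ∑ v, f v * N1_E H g v := by
  simp only [N1_E]
  simp only [div_mul_eq_mul_div, mul_div_assoc']
  rw [← Finset.sum_div, ← Finset.sum_div]
  congr 1
  simp only [Finset.sum_mul, Finset.mul_sum]
  rw [Finset.sum_comm]
  conv_rhs => rw [Finset.sum_comm]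
  refine Finset.sum_nbij' (fun u => - u) (fun u => - u) ?_ ?_ ?_ ?_ ?_
  · intro u hu
    simp only [mem_filter, mem_univ, true_and] at hu ⊢
    exact H.neg_mem hu
  · intro u hu
    simp only [mem_filter, mem_univ, true_and] at hu ⊢
    exact H.neg_mem hu
  · intro u _; simp
  · intro u _; simp
  · intro u _
    rw [← Equiv.sum_comp (Equiv.addRight u) (fun v => f v * g (v + - u))]
    simp

/-- average over the cosets minus the mean -/
noncomputable def N1_P (H : AddSubgroup V) : (V → ℝ) →ₗ[ℝ] (V → ℝ) where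
  toFun f := fun v => N1_E H f v - (∑ w, f w) / (Fintype.card V : ℝ)
  map_add' f g := by
    funext v
    simp only [N1_E, Pi.add_apply, Finset.sum_add_distrib, add_div]
    ring
  map_smul' c f := by
    funext v
    simp only [N1_E, Pi.smul_apply, smul_eq_mul, RingHom.id_apply, ← Finset.mul_sum]
    ring

theorem N1_P_apply (H : AddSubgroup V) (f : V → ℝ) (v : V) :
    N1_P H f v = N1_E H f v - (∑ w, f w) / (Fintype.card V : ℝ) := rfl

theorem N1_cardV_pos : (0 : ℝ) < Fintype.card V := by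
  exact_mod_cast Fintype.card_pos

theorem N1_P_sum (H : AddSubgroup V) (f : V → ℝ) : ∑ v, N1_P H f v = 0 := by
  simp only [N1_P_apply]
  rw [Finset.sum_sub_distrib, N1_E_sum, Finset.sum_const, nsmul_eq_mul, Finset.card_univ]
  have := N1_cardV_pos (V := V)
  field_simp
  ring

open Classical in
theorem N1_E_sub_const (H : AddSubgroup V) (f : V → ℝ) (c : ℝ) (v : V) :
    N1_E H (fun w => f w - c) v = N1_E H f v - c := by
  simp only [N1_E]
  rw [Finset.sum_sub_distrib, Finset.sum_const, nsmul_eq_mul, N1_card]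
  have := N1_card_pos H
  field_simp

theorem N1_P_P (H K : AddSubgroup V) (f : V → ℝ) (v : V) :
    N1_P H (N1_P K f) v = N1_E H (N1_E K f) v - (∑ w, f w) / (Fintype.card V : ℝ) := by
  rw [N1_P_apply, N1_P_sum, zero_div, sub_zero]
  exact N1_E_sub_const H (N1_E K f) _ v

theorem N1_P_comm (H K : AddSubgroup V) (f : V → ℝ) :
    N1_P H (N1_P K f) = N1_P K (N1_P H f) := by
  funext v
  rw [N1_P_P, N1_P_P, N1_E_comm]

theorem N1_P_idem (H : AddSubgroup V) (f : V → ℝ) : N1_P H (N1_P H f) = N1_P H f := by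
  funext v
  rw [N1_P_P, N1_E_idem, N1_P_apply]

theorem N1_P_symm (H : AddSubgroup V) (f g : V → ℝ) : N1_P H f ⬝ᵥ g = f ⬝ᵥ N1_P H g := by
  simp only [dotProduct, N1_P_apply, sub_mul, mul_sub, Finset.sum_sub_distrib]
  rw [N1_E_symm, ← Finset.mul_sum, ← Finset.sum_mul]
  ring

theorem N1_P_inv (H : AddSubgroup V) (f : V → ℝ) (v h : V) (hh : h ∈ H) :
    N1_P H f (v + h) = N1_P H f v := by
  rw [N1_P_apply, N1_P_apply, N1_E_inv H f v h hh]

/-- the periods of a function -/
def N1_per (F : V → ℝ) : AddSubgroup V where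
  carrier := {u | ∀ v, F (v + u) = F v}
  zero_mem' := by intro v; simp
  add_mem' := by
    intro a b ha hb v
    rw [← add_assoc, hb, ha]
  neg_mem' := by
    intro a ha v
    have := ha (v + - a)
    rw [neg_add_cancel_right] at this
    exact this.symm

theorem N1_app_inv {ι : Type} (H : ι → AddSubgroup V) (T : List ι) (g : V → ℝ) :
    ∀ i ∈ T, H i ≤ N1_per (N1_app (fun i => N1_P (H i)) T g) := by
  induction T with
  | nil => intro i hi; simp at hi
  | cons j T ih =>
    intro i hi
    rcases List.mem_cons.1 hi with rfl | h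
    · intro u hu v
      exact N1_P_inv (H i) _ v u hu
    · intro u hu v
      have h1 : ∀ w, N1_app (fun i => N1_P (H i)) T g (w + u) =
          N1_app (fun i => N1_P (H i)) T g w := ih i h hu
      change N1_P (H j) (N1_app (fun i => N1_P (H i)) T g) (v + u) =
        N1_P (H j) (N1_app (fun i => N1_P (H i)) T g) v
      rw [N1_P_apply, N1_P_apply]
      congr 1
      simp only [N1_E]
      congr 1
      refine Finset.sum_congr rfl fun t _ => ?_
      rw [add_right_comm]
      exact h1 _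

theorem N1_app_zero {m r : ℕ} (hr : 1 ≤ r)
    (H : Fin m → AddSubgroup V) (hgen : ∀ s : Finset (Fin m), s.card = r → ⨆ i ∈ s, H i = ⊤)
    (T : List (Fin m)) (hT : T.Nodup) (hTl : T.length = r) (g : V → ℝ) :
    N1_app (fun i => N1_P (H i)) T g = 0 := by
  set F := N1_app (fun i => N1_P (H i)) T g with hF
  have h1 : N1_per F = ⊤ := by
    rw [eq_top_iff, ← hgen T.toFinset (by rw [List.toFinset_card_of_nodup hT, hTl])]
    refine iSup₂_le fun i hi => ?_
    exact N1_app_inv H T g i (by simpa using hi)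
  have h2 : ∀ v, F v = F 0 := by
    intro v
    have : v ∈ N1_per F := by rw [h1]; trivial
    have := this 0
    rwa [zero_add] at this
  have h3 : ∑ v, F v = 0 := by
    cases T with
    | nil => simp at hTl; omega
    | cons j T => exact N1_P_sum (H j) _
  have h4 : F 0 = 0 := by
    rw [Finset.sum_congr rfl (fun v _ => h2 v), Finset.sum_const, nsmul_eq_mul,
      Finset.card_univ] at h3
    rcases mul_eq_zero.1 h3 with h | h
    · exact absurd h (N1_cardV_pos (V := V)).ne'
    · exact h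
  funext v
  rw [h2, h4]
  rfl

open Classical in
/-- A1: variances of the averages over cosets -/
theorem four_var {V : Type} [AddCommGroup V] [Fintype V] {m r : ℕ} (hr : 1 ≤ r)
    (H : Fin m → AddSubgroup V) (hgen : ∀ s : Finset (Fin m), s.card = r → ⨆ i ∈ s, H i = ⊤)
    (f : V → ℝ) :
    ∑ i, ∑ v, ((∑ w ∈ univ.filter (fun w => w - v ∈ H i), f w) / (Nat.card (H i) : ℝ) -
      (∑ w, f w) / (Fintype.card V : ℝ)) ^ 2 ≤ ((r : ℝ) - 1) * ∑ v, f v ^ 2 := by
  have h1 := N1_abs (fun i : Fin m => N1_P (H i)) (fun i j g => N1_P_comm _ _ g)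
    (fun i g => N1_P_idem _ g) (fun i f g => N1_P_symm _ f g) univ r f
    (fun T hT _ hTl => N1_app_zero hr H hgen T hT hTl f)
  have h2 : f ⬝ᵥ f = ∑ v, f v ^ 2 := by
    simp only [dotProduct, sq]
  rw [h2] at h1
  refine le_trans (le_of_eq ?_) h1
  refine Finset.sum_congr rfl fun i _ => ?_
  have h3 : N1_P (H i) f ⬝ᵥ f = N1_P (H i) f ⬝ᵥ N1_P (H i) f := by
    rw [← N1_P_symm, N1_P_idem]
  rw [h3]
  simp only [dotProduct]
  refine Finset.sum_congr rfl fun v _ => ?_
  have key : (∑ w ∈ univ.filter (fun w => w - v ∈ H i), f w) / (Nat.card (H i) : ℝ) =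
      N1_E (H i) f v := by
    simp only [N1_E]
    congr 1
    refine Finset.sum_nbij' (fun w => w - v) (fun u => v + u) ?_ ?_ ?_ ?_ ?_
    · intro w hw
      simpa using hw
    · intro u hu
      simpa using hu
    · intro w _; simp
    · intro u _; simp
    · intro w _; simp
  rw [← sq, N1_P_apply, key]

end Pool.Agent.H554R2.NC
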