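import Pool.Agent.H554R2.NC.Defs
import Pool.Agent.H554R2.NC.FourVar

/-!
# Few partitions are not balanced
-/

set_option autoImplicit false

open Finset

namespace Pool.Agent.H554R2.NC

open Pool.Agent.H554R2.Sem Pool.Agent.H554R2.Coin Pool.Agent.H554R2.Lin Pool.Agent.H554R2.Rnd
open Pool.Agent.H554R2.Qua

open Classical in
theorem N3_coset {V : Type} [AddCommGroup V] [Fintype V] (H : AddSubgroup V) (v : V) :
    (univ.filter (fun w => w - v ∈ H)).card = Nat.card H := by
  have h1 : (univ.filter (fun w => w ∈ H)).card = Nat.card H := by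
    rw [Nat.card_eq_fintype_card, Fintype.card_subtype]
  rw [← h1]
  refine Finset.card_nbij' (fun w => w - v) (fun w => w + v) ?_ ?_ ?_ ?_
  · intro w hw
    simpa using hw
  · intro w hw
    simpa using hw
  · intro w _
    simp
  · intro w _
    simp

open Classical in
theorem N3_fibre {V : Type} [AddCommGroup V] [Fintype V] {G q : ℕ} (H : AddSubgroup V)
    (hq : Nat.card H = q) (ρ : V → Fin G) (hρ : ∀ u v, ρ u = ρ v ↔ u - v ∈ H)
    (hGq : G * q = Fintype.card V) (g : Fin G) : (univ.filter (fun v => ρ v = g)).card = q := by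
  have h1 : ∀ g : Fin G, (univ.filter (fun v => ρ v = g)).card ≤ q := by
    intro g
    rcases (univ.filter (fun v => ρ v = g)).eq_empty_or_nonempty with h | ⟨v, hv⟩
    · rw [h]; simp
    · rw [mem_filter] at hv
      rw [← hq, ← N3_coset H v]
      apply le_of_eq
      congr 1
      ext w
      simp only [mem_filter, mem_univ, true_and]
      rw [← hv.2, hρ]
  have h2 : ∑ g : Fin G, (univ.filter (fun v => ρ v = g)).card = Fintype.card V := by
    rw [← Finset.card_eq_sum_card_fiberwise (s := (univ : Finset V)) (t := univ) (f := ρ)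
      (fun v _ => by simp), card_univ]
  by_contra hne
  have h3 : (univ.filter (fun v => ρ v = g)).card < q := lt_of_le_of_ne (h1 g) hne
  have h4 : ∑ g : Fin G, (univ.filter (fun v => ρ v = g)).card < ∑ _g : Fin G, q :=
    Finset.sum_lt_sum (fun g _ => h1 g) ⟨g, mem_univ _, h3⟩
  rw [h2, sum_const, card_univ, Fintype.card_fin, smul_eq_mul] at h4
  omega

open Classical in
theorem N3_one {V : Type} [AddCommGroup V] [Fintype V] {m r n G q Q F : ℕ} (hr : 1 ≤ r)
    (hn : 1 ≤ n) (H : Fin m → AddSubgroup V) (hq : ∀ i, Nat.card (H i) = q)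
    (hfour : ∀ f : V → ℝ,
      ∑ i, ∑ v, ((∑ w ∈ univ.filter (fun w => w - v ∈ H i), f w) / (Nat.card (H i) : ℝ) -
      (∑ w, f w) / (Fintype.card V : ℝ)) ^ 2 ≤ ((r : ℝ) - 1) * ∑ v, f v ^ 2)
    (lam : Fin n → V) (hF : ∀ v, (univ.filter (fun j => lam j = v)).card ≤ F)
    (hFn : F * Fintype.card V ≤ 2 * n) (ρ : Fin m → V → Fin G)
    (hρ : ∀ i u v, ρ i u = ρ i v ↔ u - v ∈ H i) (hGq : G * q = Fintype.card V)
    (C : Finset (Fin n)) (hC : n ≤ Q * C.card) (μ : ℕ) (hμ : μ * (64 * G) ≤ C.card) :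
    (univ.filter (fun i => G ≤ 3 * (univ.filter (fun g =>
      (C.filter (fun j => ρ i (lam j) = g)).card < μ)).card)).card ≤ 7 * r * Q := by
  have hV : 0 < Fintype.card V := Fintype.card_pos
  have hG : 0 < G := by
    rcases Nat.eq_zero_or_pos G with h | h
    · rw [h] at hGq; omega
    · exact h
  have hq0 : 0 < q := by
    rcases Nat.eq_zero_or_pos q with h | h
    · rw [h] at hGq; omega
    · exact h
  have hC0 : 0 < C.card := by
    rcases Nat.eq_zero_or_pos C.card with h | h
    · rw [h] at hC; omega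
    · exact h
  set f : V → ℝ := fun v => ((C.filter (fun j => lam j = v)).card : ℝ) with hf
  have hsum : ∑ v, f v = C.card := by
    rw [hf, Finset.card_eq_sum_card_fiberwise (s := C) (t := univ) (f := lam) (fun v _ => by simp)]
    push_cast
    rfl
  have hf2 : ∑ v, f v ^ 2 ≤ F * C.card := by
    rw [← hsum, Finset.mul_sum]
    refine Finset.sum_le_sum fun v _ => ?_
    rw [sq]
    refine mul_le_mul_of_nonneg_right ?_ (by simp [hf])
    have h1 : (C.filter (fun j => lam j = v)).card ≤ F :=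
      (Finset.card_le_card (Finset.filter_subset_filter _ (Finset.subset_univ _))).trans (hF v)
    simp only [hf]
    exact_mod_cast h1
  have hav : ∀ i v, ∑ w ∈ univ.filter (fun w => w - v ∈ H i), f w =
      ((C.filter (fun j => ρ i (lam j) = ρ i v)).card : ℝ) := by
    intro i v
    rw [Finset.card_eq_sum_card_fiberwise (s := C.filter (fun j => ρ i (lam j) = ρ i v))
      (t := univ.filter (fun w => w - v ∈ H i)) (f := lam)]
    · push_cast
      refine Finset.sum_congr rfl fun w hw => ?_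
      simp only [hf]
      congr 2
      ext j
      simp only [mem_filter]
      constructor
      · rintro ⟨h1, h2⟩
        refine ⟨⟨h1, ?_⟩, h2⟩
        rw [mem_filter] at hw
        rw [h2, hρ]
        exact hw.2
      · rintro ⟨⟨h1, -⟩, h2⟩
        exact ⟨h1, h2⟩
    · intro j hj
      rw [Finset.mem_coe, mem_filter] at hj
      rw [Finset.mem_coe, mem_filter]
      exact ⟨mem_univ _, (hρ i _ _).1 hj.2⟩
  set I := univ.filter (fun i => G ≤ 3 * (univ.filter (fun g =>
      (C.filter (fun j => ρ i (lam j) = g)).card < μ)).card) with hI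
  set M : ℝ := C.card / Fintype.card V with hM
  have hVR : (0 : ℝ) < Fintype.card V := by exact_mod_cast hV
  have hCR : (0 : ℝ) < C.card := by exact_mod_cast hC0
  have hGR : (0 : ℝ) < G := by exact_mod_cast hG
  have hqR : (0 : ℝ) < q := by exact_mod_cast hq0
  have hM0 : 0 < M := by positivity
  have hGqR : (G : ℝ) * q = Fintype.card V := by exact_mod_cast hGq
  have hlow : ∀ i ∈ I, (Fintype.card V : ℝ) / 3 * ((63 / 64) * M) ^ 2 ≤
      ∑ v, ((∑ w ∈ univ.filter (fun w => w - v ∈ H i), f w) / (Nat.card (H i) : ℝ) -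
      (∑ w, f w) / (Fintype.card V : ℝ)) ^ 2 := by
    intro i hi
    rw [hI, mem_filter] at hi
    set bad := univ.filter (fun g => (C.filter (fun j => ρ i (lam j) = g)).card < μ) with hbad
    have h1 : (univ.filter (fun v => ρ i v ∈ bad)).card = bad.card * q := by
      rw [Finset.card_eq_sum_card_fiberwise (s := univ.filter (fun v => ρ i v ∈ bad)) (t := bad)
        (f := ρ i) (fun v hv => by simpa using hv)]
      rw [Finset.sum_congr rfl (g := fun _ => q), sum_const, smul_eq_mul]
      intro g hg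
      rw [← N3_fibre (H i) (hq i) (ρ i) (hρ i) hGq g]
      congr 1
      ext v
      simp only [mem_filter, mem_univ, true_and]
      constructor
      · rintro ⟨-, h⟩; exact h
      · intro h; exact ⟨by rw [h]; exact hg, h⟩
    have h2 : ∀ v ∈ univ.filter (fun v => ρ i v ∈ bad), ((63 / 64) * M) ^ 2 ≤
        ((∑ w ∈ univ.filter (fun w => w - v ∈ H i), f w) / (Nat.card (H i) : ℝ) -
      (∑ w, f w) / (Fintype.card V : ℝ)) ^ 2 := by
      intro v hv
      rw [mem_filter, hbad, mem_filter] at hv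
      have h3 := hv.2.2
      rw [hav, hq, hsum, ← hM]
      have h4 : ((C.filter (fun j => ρ i (lam j) = ρ i v)).card : ℝ) ≤ μ := by exact_mod_cast h3.le
      have h5 : (μ : ℝ) * (64 * G) ≤ C.card := by exact_mod_cast hμ
      have h6 : ((C.filter (fun j => ρ i (lam j) = ρ i v)).card : ℝ) / q ≤ M / 64 := by
        rw [div_le_iff₀ hqR, hM, ← hGqR]
        have h7 : (C.card : ℝ) / (G * q) / 64 * q = C.card / (64 * G) := by
          field_simp
        rw [h7, le_div_iff₀ (by positivity)]
        calc ((C.filter (fun j => ρ i (lam j) = ρ i v)).card : ℝ) * (64 * G) ≤ μ * (64 * G) :=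
              mul_le_mul_of_nonneg_right h4 (by positivity)
          _ ≤ _ := h5
      nlinarith
    calc (Fintype.card V : ℝ) / 3 * ((63 / 64) * M) ^ 2 ≤
          ((univ.filter (fun v => ρ i v ∈ bad)).card : ℝ) * ((63 / 64) * M) ^ 2 := by
          refine mul_le_mul_of_nonneg_right ?_ (by positivity)
          rw [h1, ← hGqR]
          push_cast
          have h3 : (G : ℝ) ≤ 3 * bad.card := by exact_mod_cast hi.2
          nlinarith
      _ = ∑ v ∈ univ.filter (fun v => ρ i v ∈ bad), ((63 / 64) * M) ^ 2 := by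
          rw [sum_const, nsmul_eq_mul]
      _ ≤ ∑ v ∈ univ.filter (fun v => ρ i v ∈ bad),
          ((∑ w ∈ univ.filter (fun w => w - v ∈ H i), f w) / (Nat.card (H i) : ℝ) -
      (∑ w, f w) / (Fintype.card V : ℝ)) ^ 2 := Finset.sum_le_sum h2
      _ ≤ _ := Finset.sum_le_sum_of_subset_of_nonneg (Finset.subset_univ _)
          fun v _ _ => sq_nonneg _
  have h1 : (I.card : ℝ) * ((Fintype.card V : ℝ) / 3 * ((63 / 64) * M) ^ 2) ≤
      ((r : ℝ) - 1) * (F * C.card) := by
    calc (I.card : ℝ) * ((Fintype.card V : ℝ) / 3 * ((63 / 64) * M) ^ 2) =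
          ∑ i ∈ I, ((Fintype.card V : ℝ) / 3 * ((63 / 64) * M) ^ 2) := by
          rw [sum_const, nsmul_eq_mul]
      _ ≤ ∑ i ∈ I, ∑ v, ((∑ w ∈ univ.filter (fun w => w - v ∈ H i), f w) /
          (Nat.card (H i) : ℝ) - (∑ w, f w) / (Fintype.card V : ℝ)) ^ 2 :=
          Finset.sum_le_sum hlow
      _ ≤ ∑ i, ∑ v, ((∑ w ∈ univ.filter (fun w => w - v ∈ H i), f w) /
          (Nat.card (H i) : ℝ) - (∑ w, f w) / (Fintype.card V : ℝ)) ^ 2 :=
          Finset.sum_le_sum_of_subset_of_nonneg (Finset.subset_univ _)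
            fun i _ _ => Finset.sum_nonneg fun v _ => sq_nonneg _
      _ ≤ ((r : ℝ) - 1) * ∑ v, f v ^ 2 := hfour f
      _ ≤ _ := by
          refine mul_le_mul_of_nonneg_left hf2 ?_
          have : (1 : ℝ) ≤ r := by exact_mod_cast hr
          linarith
  have h2 : (I.card : ℝ) * ((63 / 64) ^ 2 * C.card) ≤ 3 * (((r : ℝ) - 1) * (F * Fintype.card V)) := by
    have h3 : (I.card : ℝ) * ((Fintype.card V : ℝ) / 3 * ((63 / 64) * M) ^ 2) =
        (I.card : ℝ) * ((63 / 64) ^ 2 * C.card) * (C.card / (3 * Fintype.card V)) := by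
      rw [hM]
      field_simp
    have h4 : ((r : ℝ) - 1) * (F * C.card) =
        3 * (((r : ℝ) - 1) * (F * Fintype.card V)) * (C.card / (3 * Fintype.card V)) := by
      field_simp
    rw [h3, h4] at h1
    exact le_of_mul_le_mul_right h1 (by positivity)
  have hrR : (1 : ℝ) ≤ r := by exact_mod_cast hr
  have h3 : (F : ℝ) * Fintype.card V ≤ 2 * n := by exact_mod_cast hFn
  have h4 : (n : ℝ) ≤ Q * C.card := by exact_mod_cast hC
  have h5 : (I.card : ℝ) * ((63 / 64) ^ 2 * C.card) ≤ (6 * r * Q) * C.card := by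
    refine h2.trans ?_
    have h6 : ((r : ℝ) - 1) * (F * Fintype.card V) ≤ r * (2 * (Q * C.card)) := by
      refine mul_le_mul (by linarith) (by linarith) (by positivity) (by positivity)
    linarith
  have h6 : (I.card : ℝ) * (63 / 64) ^ 2 ≤ 6 * r * Q := by
    rw [← mul_assoc] at h5
    exact le_of_mul_le_mul_right h5 hCR
  have h7 : (I.card : ℝ) ≤ ((7 * r * Q : ℕ) : ℝ) := by
    push_cast
    have h8 : (0 : ℝ) ≤ r * Q := by positivity
    nlinarith
  exact_mod_cast h7

open Classical in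
/-- A3: few partitions are not balanced; `four_var` enters as a hypothesis -/
theorem bal_few_of {V : Type} [AddCommGroup V] [Fintype V] {m r n G q Q F : ℕ} (hr : 1 ≤ r)
    (hn : 1 ≤ n) (H : Fin m → AddSubgroup V) (hq : ∀ i, Nat.card (H i) = q)
    (hfour : ∀ f : V → ℝ,
      ∑ i, ∑ v, ((∑ w ∈ univ.filter (fun w => w - v ∈ H i), f w) / (Nat.card (H i) : ℝ) -
      (∑ w, f w) / (Fintype.card V : ℝ)) ^ 2 ≤ ((r : ℝ) - 1) * ∑ v, f v ^ 2)
    (lam : Fin n → V) (hF : ∀ v, (univ.filter (fun j => lam j = v)).card ≤ F)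
    (hFn : F * Fintype.card V ≤ 2 * n) (ρ : Fin m → V → Fin G)
    (hρ : ∀ i u v, ρ i u = ρ i v ↔ u - v ∈ H i) (hGq : G * q = Fintype.card V)
    (A B : Finset (Fin n)) (hA : n ≤ Q * A.card) (hB : n ≤ Q * B.card) :
    Nat.card {i // ¬ Bal (fun j => ρ i (lam j)) A B} ≤ 64 * r * Q := by
  set μ := min A.card B.card / (64 * G) with hμ
  have hμA : μ * (64 * G) ≤ A.card := (Nat.div_mul_le_self _ _).trans (min_le_left _ _)
  have hμB : μ * (64 * G) ≤ B.card := (Nat.div_mul_le_self _ _).trans (min_le_right _ _)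
  have hIA := N3_one hr hn H hq hfour lam hF hFn ρ hρ hGq A hA μ hμA
  have hIB := N3_one hr hn H hq hfour lam hF hFn ρ hρ hGq B hB μ hμB
  rw [Nat.card_eq_fintype_card, Fintype.card_subtype]
  set IA := univ.filter (fun i => G ≤ 3 * (univ.filter (fun g =>
      (A.filter (fun j => ρ i (lam j) = g)).card < μ)).card) with hIAd
  set IB := univ.filter (fun i => G ≤ 3 * (univ.filter (fun g =>
      (B.filter (fun j => ρ i (lam j) = g)).card < μ)).card) with hIBd
  have hsub : univ.filter (fun i => ¬ Bal (fun j => ρ i (lam j)) A B) ⊆ IA ∪ IB := by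
    intro i hi
    rw [mem_filter] at hi
    rw [mem_union, hIAd, hIBd, mem_filter, mem_filter]
    by_contra hcon
    push Not at hcon
    obtain ⟨h1, h2⟩ := hcon
    have h1 := h1 (mem_univ _)
    have h2 := h2 (mem_univ _)
    apply hi.2
    unfold Bal
    rw [← hμ]
    have h3 : (univ : Finset (Fin G)) ⊆ rich (fun j => ρ i (lam j)) μ A B ∪
        (univ.filter (fun g => (A.filter (fun j => ρ i (lam j) = g)).card < μ) ∪
        univ.filter (fun g => (B.filter (fun j => ρ i (lam j) = g)).card < μ)) := by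
      intro g _
      unfold rich
      simp only [mem_union, mem_filter, mem_univ, true_and]
      omega
    have h4 := (Finset.card_le_card h3).trans ((Finset.card_union_le _ _).trans
      (Nat.add_le_add_left (Finset.card_union_le _ _) _))
    rw [card_univ, Fintype.card_fin] at h4
    omega
  have h1 := (Finset.card_le_card hsub).trans (Finset.card_union_le _ _)
  have h2 : 7 * r * Q + 7 * r * Q ≤ 64 * r * Q := by nlinarith
  omega

open Classical in
/-- A3: few partitions are not balanced -/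
theorem bal_few {V : Type} [AddCommGroup V] [Fintype V] {m r n G q Q F : ℕ} (hr : 1 ≤ r)
    (_hQ : 1 ≤ Q) (hn : 1 ≤ n) (H : Fin m → AddSubgroup V) (hq : ∀ i, Nat.card (H i) = q)
    (hgen : ∀ s : Finset (Fin m), s.card = r → ⨆ i ∈ s, H i = ⊤)
    (lam : Fin n → V) (hF : ∀ v, (univ.filter (fun j => lam j = v)).card ≤ F)
    (hFn : F * Fintype.card V ≤ 2 * n) (ρ : Fin m → V → Fin G)
    (hρ : ∀ i u v, ρ i u = ρ i v ↔ u - v ∈ H i) (hGq : G * q = Fintype.card V)
    (A B : Finset (Fin n)) (hA : n ≤ Q * A.card) (hB : n ≤ Q * B.card) :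
    Nat.card {i // ¬ Bal (fun j => ρ i (lam j)) A B} ≤ 64 * r * Q :=
  bal_few_of hr hn H hq (fun f => four_var hr H hgen f) lam hF hFn ρ hρ hGq A B hA hB

end Pool.Agent.H554R2.NC
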