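import Mathlib
import Pool.Agent.H554R2.NC.Defs

/-!
# A4: halves for which all partitions are balanced
-/

set_option autoImplicit false

open Finset

namespace Pool.Agent.H554R2.NC

open Pool.Agent.H554R2.Sem Pool.Agent.H554R2.Coin Pool.Agent.H554R2.Lin Pool.Agent.H554R2.Rnd
open Pool.Agent.H554R2.Qua

theorem N4_card {V : Type} [Fintype V] [DecidableEq V] {n : ℕ} (lam : Fin n → V) (P : V → Prop)
    [DecidablePred P] :
    (univ.filter (fun j => P (lam j))).card =
      ∑ v ∈ univ.filter P, (univ.filter (fun j => lam j = v)).card := by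
  rw [Finset.card_eq_sum_card_fiberwise (f := lam) (t := univ.filter P)]
  · refine Finset.sum_congr rfl ?_
    intro v hv
    congr 1
    ext j
    simp only [mem_filter, mem_univ, true_and] at hv ⊢
    constructor
    · rintro ⟨_, h⟩
      exact h
    · intro h
      exact ⟨by rw [h]; exact hv, h⟩
  · intro j hj
    simp only [coe_filter, mem_univ, true_and, Set.mem_ofPred_eq] at hj ⊢
    exact hj

theorem N4_lower {V : Type} [Fintype V] [DecidableEq V] {n F : ℕ} (lam : Fin n → V)
    (hF1 : ∀ v, F ≤ (univ.filter (fun j => lam j = v)).card) (P : V → Prop) [DecidablePred P] :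
    F * (univ.filter P).card ≤ (univ.filter (fun j => P (lam j))).card := by
  rw [N4_card lam P]
  calc F * (univ.filter P).card = ∑ v ∈ univ.filter P, F := by
        rw [Finset.sum_const, smul_eq_mul, mul_comm]
    _ ≤ _ := Finset.sum_le_sum fun v _ => hF1 v

theorem N4_upper {V : Type} [Fintype V] [DecidableEq V] {n F : ℕ} (lam : Fin n → V)
    (hF2 : ∀ v, (univ.filter (fun j => lam j = v)).card ≤ 2 * F) (P : V → Prop) [DecidablePred P] :
    (univ.filter (fun j => P (lam j))).card ≤ 2 * F * (univ.filter P).card := by
  rw [N4_card lam P]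
  calc _ ≤ ∑ v ∈ univ.filter P, 2 * F := Finset.sum_le_sum fun v _ => hF2 v
    _ = 2 * F * (univ.filter P).card := by
        rw [Finset.sum_const, smul_eq_mul, mul_comm]

open Classical in
/-- A4: halves for which all partitions are balanced -/
theorem bal_half {V : Type} [AddCommGroup V] [Fintype V] {m n G q F : ℕ}
    (hq : 1 ≤ q) (hF : 1 ≤ F) (H : Fin m → AddSubgroup V)
    (c : V → Bool) (hc : ∀ i v b, (univ.filter (fun w => w - v ∈ H i ∧ c w = b)).card = q)
    (hcV : ∀ b, 2 * (univ.filter (fun w => c w = b)).card = Fintype.card V)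
    (lam : Fin n → V) (hF1 : ∀ v, F ≤ (univ.filter (fun j => lam j = v)).card)
    (hF2 : ∀ v, (univ.filter (fun j => lam j = v)).card ≤ 2 * F) (ρ : Fin m → V → Fin G)
    (hρ : ∀ i u v, ρ i u = ρ i v ↔ u - v ∈ H i) (hρs : ∀ i, Function.Surjective (ρ i))
    (hGq : G * (2 * q) = Fintype.card V) :
    ∃ A B : Finset (Fin n), Disjoint A B ∧ n ≤ 4 * A.card ∧ n ≤ 4 * B.card ∧
      ∀ i, Bal (fun j => ρ i (lam j)) A B := by
  have hn : n ≤ 2 * F * Fintype.card V := by
    have h := N4_upper lam hF2 (fun _ => True)
    simpa using h
  have hlow : ∀ b, n ≤ 4 * (univ.filter (fun j => c (lam j) = b)).card := by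
    intro b
    have h1 := N4_lower lam hF1 (fun v => c v = b)
    have h2 := hcV b
    calc n ≤ 2 * F * Fintype.card V := hn
      _ = 4 * (F * (univ.filter (fun w => c w = b)).card) := by rw [← h2]; ring
      _ ≤ _ := Nat.mul_le_mul_left 4 h1
  have hupp : ∀ b, (univ.filter (fun j => c (lam j) = b)).card ≤ F * Fintype.card V := by
    intro b
    have h1 := N4_upper lam hF2 (fun v => c v = b)
    calc _ ≤ _ := h1
      _ = F * (2 * (univ.filter (fun w => c w = b)).card) := by ring
      _ = _ := by rw [hcV b]
  refine ⟨univ.filter (fun j => c (lam j) = true), univ.filter (fun j => c (lam j) = false), ?_,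
    hlow true, hlow false, ?_⟩
  · rw [Finset.disjoint_left]
    intro j hj hj'
    simp only [mem_filter, mem_univ, true_and] at hj hj'
    rw [hj] at hj'
    exact absurd hj' (by simp)
  · intro i
    unfold Bal
    have hgrp : ∀ (b : Bool) (g : Fin G), F * q ≤
        ((univ.filter (fun j => c (lam j) = b)).filter (fun v => ρ i (lam v) = g)).card := by
      intro b g
      obtain ⟨v, rfl⟩ := hρs i g
      have h1 := N4_lower lam hF1 (fun w => w - v ∈ H i ∧ c w = b)
      rw [hc i v b] at h1
      refine h1.trans (le_of_eq ?_)
      congr 1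
      ext j
      simp only [mem_filter, mem_univ, true_and]
      rw [hρ i (lam j) v]
      exact and_comm
    have hth : min (univ.filter (fun j => c (lam j) = true)).card
        (univ.filter (fun j => c (lam j) = false)).card / (64 * G) ≤ F * q := by
      apply Nat.div_le_of_le_mul
      calc _ ≤ (univ.filter (fun j => c (lam j) = true)).card := min_le_left _ _
        _ ≤ F * Fintype.card V := hupp true
        _ = 2 * (F * G * q) := by rw [← hGq]; ring
        _ ≤ 64 * (F * G * q) := Nat.mul_le_mul_right _ (by norm_num)
        _ = 64 * G * (F * q) := by ring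
    have hr : rich (fun j => ρ i (lam j)) (min (univ.filter (fun j => c (lam j) = true)).card
        (univ.filter (fun j => c (lam j) = false)).card / (64 * G))
        (univ.filter (fun j => c (lam j) = true)) (univ.filter (fun j => c (lam j) = false)) = univ := by
      unfold rich
      rw [Finset.filter_eq_self]
      intro g _
      exact ⟨hth.trans (hgrp true g), hth.trans (hgrp false g)⟩
    have hr2 : (rich (fun j => ρ i (lam j)) (min (univ.filter (fun j => c (lam j) = true)).card
        (univ.filter (fun j => c (lam j) = false)).card / (64 * G))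
        (univ.filter (fun j => c (lam j) = true))
        (univ.filter (fun j => c (lam j) = false))).card = G := by
      rw [hr, Finset.card_univ, Fintype.card_fin]
    rw [hr2]
    omega

end Pool.Agent.H554R2.NC
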