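import Mathlib

/-!
# N2: lines in general position
-/

set_option autoImplicit false

open Finset

namespace Pool.Agent.H554R2.NC

section N2

variable {K : Type} [Field K]

/-- the line through `(1, α, α², …)` -/
def N2_phi (r : ℕ) (α : K) : K →+ (Fin r → K) where
  toFun x := fun j => x * α ^ (j : ℕ)
  map_zero' := by funext j; simp
  map_add' x y := by funext j; simp [add_mul]

theorem N2_phi_apply (r : ℕ) (α x : K) (j : Fin r) : N2_phi r α x j = x * α ^ (j : ℕ) := rfl

theorem N2_phi_zero {r : ℕ} (hr : 1 ≤ r) (α x : K) : N2_phi r α x ⟨0, hr⟩ = x := by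
  rw [N2_phi_apply, pow_zero, mul_one]

theorem N2_inj {r : ℕ} (hr : 1 ≤ r) (α : K) : Function.Injective (N2_phi r α) := by
  intro x y h
  have h1 := congrFun h ⟨0, hr⟩
  rwa [N2_phi_zero, N2_phi_zero] at h1

theorem N2_gen {r : ℕ} (β : Fin r → K) (hβ : Function.Injective β) (v : Fin r → K) :
    ∃ x : Fin r → K, v = ∑ k, N2_phi r (β k) (x k) := by
  have hdet : (Matrix.vandermonde β).det ≠ 0 := Matrix.det_vandermonde_ne_zero_iff.mpr hβ
  refine ⟨Matrix.vecMul v (Matrix.vandermonde β)⁻¹, ?_⟩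
  have h1 : Matrix.vecMul (Matrix.vecMul v (Matrix.vandermonde β)⁻¹) (Matrix.vandermonde β) = v := by
    rw [Matrix.vecMul_vecMul, Matrix.nonsing_inv_mul _ (isUnit_iff_ne_zero.mpr hdet),
      Matrix.vecMul_one]
  funext j
  have h2 := congrFun h1 j
  rw [← h2, Finset.sum_apply]
  rfl

/-- the sum of the lines of a set of indices -/
noncomputable def N2_psi {m : ℕ} (r : ℕ) (α : Fin m → K) (s : Finset (Fin m)) :
    (s → K) →+ (Fin r → K) :=
  ∑ i : s, (N2_phi r (α i)).comp (Pi.evalAddMonoidHom (fun _ : s => K) i)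

theorem N2_psi_apply {m : ℕ} (r : ℕ) (α : Fin m → K) (s : Finset (Fin m)) (x : s → K) :
    N2_psi r α s x = ∑ i : s, N2_phi r (α i) (x i) := by
  unfold N2_psi
  rw [AddMonoidHom.finset_sum_apply]
  rfl

theorem N2_le_range {m : ℕ} (r : ℕ) (α : Fin m → K) (s : Finset (Fin m)) :
    ⨆ i ∈ s, (N2_phi r (α i)).range ≤ (N2_psi r α s).range := by
  classical
  refine iSup₂_le fun i hi => ?_
  rintro _ ⟨x, rfl⟩
  refine ⟨Pi.single ⟨i, hi⟩ x, ?_⟩
  rw [N2_psi_apply, sum_eq_single ⟨i, hi⟩]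
  · rw [Pi.single_eq_same]
  · intro j _ hj
    rw [Pi.single_eq_of_ne hj, map_zero]
  · intro h
    exact absurd (mem_univ _) h

theorem N2_card_le [Finite K] {m : ℕ} (r : ℕ) (α : Fin m → K) (s : Finset (Fin m)) :
    Nat.card (⨆ i ∈ s, (N2_phi r (α i)).range : AddSubgroup (Fin r → K)) ≤
      Nat.card K ^ s.card := by
  have h1 : Nat.card (⨆ i ∈ s, (N2_phi r (α i)).range : AddSubgroup (Fin r → K)) ≤
      Nat.card (N2_psi r α s).range := Nat.card_mono (Set.toFinite _) (N2_le_range r α s)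
  have h2 : Nat.card (N2_psi r α s).range ≤ Nat.card (s → K) :=
    Nat.card_le_card_of_surjective _ (N2_psi r α s).rangeRestrict_surjective
  have h3 : Nat.card (s → K) = Nat.card K ^ s.card := by
    rw [Nat.card_fun, Nat.card_eq_fintype_card (α := s), Fintype.card_coe]
  omega

theorem N2_top {m r : ℕ} (α : Fin m → K) (hα : Function.Injective α) (s : Finset (Fin m))
    (hs : s.card = r) : ⨆ i ∈ s, (N2_phi r (α i)).range = (⊤ : AddSubgroup (Fin r → K)) := by
  rw [eq_top_iff]
  intro v _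
  obtain ⟨x, hx⟩ := N2_gen (fun k => α ((s.equivFinOfCardEq hs).symm k).1) (by
    intro k k' h
    exact (s.equivFinOfCardEq hs).symm.injective (Subtype.ext (hα h))) v
  rw [hx]
  refine AddSubgroup.sum_mem _ fun k _ => ?_
  have h1 : (N2_phi r (α ((s.equivFinOfCardEq hs).symm k).1)).range ≤
      ⨆ i ∈ s, (N2_phi r (α i)).range :=
    le_iSup₂ (f := fun i (_ : i ∈ s) => (N2_phi r (α i)).range)
      ((s.equivFinOfCardEq hs).symm k).1 ((s.equivFinOfCardEq hs).symm k).2
  exact h1 ⟨x k, rfl⟩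

open Classical in
theorem N2_coset [Fintype K] {r : ℕ} (hr : 1 ≤ r) (α : K) (K0 : Finset K)
    (hK0 : 2 * K0.card = Fintype.card K) (v : Fin r → K) (b : Bool) :
    (univ.filter (fun w : Fin r → K => w - v ∈ (N2_phi r α).range ∧
      decide (w ⟨0, hr⟩ ∈ K0) = b)).card = K0.card := by
  have h1 : (univ.filter (fun w : Fin r → K => w - v ∈ (N2_phi r α).range ∧
      decide (w ⟨0, hr⟩ ∈ K0) = b)).card = (univ.filter (fun y : K => decide (y ∈ K0) = b)).card := by
    refine card_bij' (fun w _ => w ⟨0, hr⟩) (fun y _ => v + N2_phi r α (y - v ⟨0, hr⟩)) ?_ ?_ ?_ ?_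
    · intro w hw
      rw [mem_filter] at hw ⊢
      exact ⟨mem_univ _, hw.2.2⟩
    · intro y hy
      rw [mem_filter] at hy ⊢
      refine ⟨mem_univ _, ?_, ?_⟩
      · rw [add_sub_cancel_left]
        exact ⟨_, rfl⟩
      · rw [Pi.add_apply, N2_phi_zero, add_sub_cancel]
        exact hy.2
    · intro w hw
      rw [mem_filter] at hw
      obtain ⟨x, hx⟩ := hw.2.1
      have h2 : w = v + N2_phi r α x := by rw [hx]; abel
      have h3 : w ⟨0, hr⟩ - v ⟨0, hr⟩ = x := by
        rw [h2, Pi.add_apply, N2_phi_zero, add_sub_cancel_left]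
      simp only [h3]
      exact h2.symm
    · intro y hy
      simp only [Pi.add_apply, N2_phi_zero, add_sub_cancel]
  rw [h1]
  cases b
  · have h2 : (univ.filter (fun y : K => decide (y ∈ K0) = false)) = K0ᶜ := by
      ext y; simp
    rw [h2, card_compl]
    omega
  · have h2 : (univ.filter (fun y : K => decide (y ∈ K0) = true)) = K0 := by
      ext y; simp
    rw [h2]

end N2

open Classical in
/-- A2: lines in general position -/
theorem lines (a r m : ℕ) (ha : 1 ≤ a) (hr : 1 ≤ r) (hm : m ≤ 2 ^ a) :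
    ∃ (V : Type) (_ : AddCommGroup V) (_ : Fintype V) (H : Fin m → AddSubgroup V) (c : V → Bool),
      Fintype.card V = (2 ^ a) ^ r ∧ (∀ i, Nat.card (H i) = 2 ^ a) ∧
      (∀ s : Finset (Fin m), s.card = r → ⨆ i ∈ s, H i = ⊤) ∧
      (∀ s : Finset (Fin m), Nat.card (⨆ i ∈ s, H i : AddSubgroup V) ≤ (2 ^ a) ^ s.card) ∧
      ∀ i v b, (univ.filter (fun w => w - v ∈ H i ∧ c w = b)).card = 2 ^ (a - 1) := by
  have : Fact (Nat.Prime 2) := ⟨Nat.prime_two⟩
  have hcN : Nat.card (GaloisField 2 a) = 2 ^ a := GaloisField.card 2 a (by omega)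
  have hfin : Finite (GaloisField 2 a) := Nat.finite_of_card_ne_zero (by rw [hcN]; positivity)
  let _ : Fintype (GaloisField 2 a) := Fintype.ofFinite _
  have hc : Fintype.card (GaloisField 2 a) = 2 ^ a := by rw [← Nat.card_eq_fintype_card, hcN]
  obtain ⟨α⟩ : Nonempty (Fin m ↪ GaloisField 2 a) :=
    Function.Embedding.nonempty_of_card_le (by rw [Fintype.card_fin, hc]; exact hm)
  have h2 : 2 * 2 ^ (a - 1) = 2 ^ a := by
    rw [← pow_succ']
    congr 1
    omega
  obtain ⟨K0, -, hK0⟩ := exists_subset_card_eq (s := (univ : Finset (GaloisField 2 a)))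
    (n := 2 ^ (a - 1)) (by rw [card_univ, hc]; omega)
  refine ⟨Fin r → GaloisField 2 a, inferInstance, inferInstance,
    fun i => (N2_phi r (α i)).range, fun w => decide (w ⟨0, hr⟩ ∈ K0), ?_, ?_, ?_, ?_, ?_⟩
  · rw [Fintype.card_fun, hc, Fintype.card_fin]
  · intro i
    rw [← hcN]
    exact (Nat.card_congr (AddMonoidHom.ofInjective (N2_inj hr (α i))).toEquiv).symm
  · intro s hs
    exact N2_top α α.injective s hs
  · intro s
    have := N2_card_le r α s
    rwa [hcN] at this
  · intro i v b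
    rw [← hK0]
    refine Eq.trans (congrArg Finset.card ?_) (N2_coset hr (α i) K0 (by rw [hK0, hc, h2]) v b)
    ext w
    simp only [mem_filter]

end Pool.Agent.H554R2.NC
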