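import Mathlib
import Pool.Agent.H554R2.NC.Defs
import Pool.Agent.H554R2.NC.FourVar
import Pool.Agent.H554R2.NC.Lines
import Pool.Agent.H554R2.NC.BalFew
import Pool.Agent.H554R2.NC.BalHalf

/-!
# The partitions: choice of the parameters
-/

set_option autoImplicit false

open Finset

namespace Pool.Agent.H554R2.NC

open Pool.Agent.H554R2.Sem Pool.Agent.H554R2.Coin Pool.Agent.H554R2.Lin Pool.Agent.H554R2.Rnd
open Pool.Agent.H554R2.Qua

open Classical in
/-- the statement of `lines` -/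
def N5_lines : Prop := ∀ (a r m : ℕ) (_ : 1 ≤ a) (_ : 1 ≤ r) (_ : m ≤ 2 ^ a),
    ∃ (V : Type) (_ : AddCommGroup V) (_ : Fintype V) (H : Fin m → AddSubgroup V) (c : V → Bool),
      Fintype.card V = (2 ^ a) ^ r ∧ (∀ i, Nat.card (H i) = 2 ^ a) ∧
      (∀ s : Finset (Fin m), s.card = r → ⨆ i ∈ s, H i = ⊤) ∧
      (∀ s : Finset (Fin m), Nat.card (⨆ i ∈ s, H i : AddSubgroup V) ≤ (2 ^ a) ^ s.card) ∧
      ∀ i v b, (univ.filter (fun w => w - v ∈ H i ∧ c w = b)).card = 2 ^ (a - 1)

open Classical in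
/-- the statement of `bal_few` -/
def N5_few : Prop := ∀ {V : Type} [AddCommGroup V] [Fintype V] {m r n G q Q F : ℕ} (_ : 1 ≤ r)
    (_ : 1 ≤ Q) (_ : 1 ≤ n) (H : Fin m → AddSubgroup V) (_ : ∀ i, Nat.card (H i) = q)
    (_ : ∀ s : Finset (Fin m), s.card = r → ⨆ i ∈ s, H i = ⊤)
    (lam : Fin n → V) (_ : ∀ v, (univ.filter (fun j => lam j = v)).card ≤ F)
    (_ : F * Fintype.card V ≤ 2 * n) (ρ : Fin m → V → Fin G)
    (_ : ∀ i u v, ρ i u = ρ i v ↔ u - v ∈ H i) (_ : G * q = Fintype.card V)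
    (A B : Finset (Fin n)) (_ : n ≤ Q * A.card) (_ : n ≤ Q * B.card),
    Nat.card {i // ¬ Bal (fun j => ρ i (lam j)) A B} ≤ 64 * r * Q

open Classical in
/-- the statement of `bal_half` -/
def N5_half : Prop := ∀ {V : Type} [AddCommGroup V] [Fintype V] {m n G q F : ℕ}
    (_ : 1 ≤ q) (_ : 1 ≤ F) (H : Fin m → AddSubgroup V)
    (c : V → Bool) (_ : ∀ i v b, (univ.filter (fun w => w - v ∈ H i ∧ c w = b)).card = q)
    (_ : ∀ b, 2 * (univ.filter (fun w => c w = b)).card = Fintype.card V)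
    (lam : Fin n → V) (_ : ∀ v, F ≤ (univ.filter (fun j => lam j = v)).card)
    (_ : ∀ v, (univ.filter (fun j => lam j = v)).card ≤ 2 * F) (ρ : Fin m → V → Fin G)
    (_ : ∀ i u v, ρ i u = ρ i v ↔ u - v ∈ H i) (_ : ∀ i, Function.Surjective (ρ i))
    (_ : G * (2 * q) = Fintype.card V),
    ∃ A B : Finset (Fin n), Disjoint A B ∧ n ≤ 4 * A.card ∧ n ≤ 4 * B.card ∧
      ∀ i, Bal (fun j => ρ i (lam j)) A B

theorem N5_card {α : Type} [Fintype α] (p : α → Prop) [DecidablePred p] :
    (univ.filter p).card = Nat.card {x // p x} := by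
  rw [Nat.card_eq_fintype_card, Fintype.card_subtype]

theorem N5_mod (n v0 k : ℕ) (hv0 : 0 < v0) (hk : k < v0) :
    n / v0 ≤ (univ.filter (fun j : Fin n => j.val % v0 = k)).card ∧
      (univ.filter (fun j : Fin n => j.val % v0 = k)).card ≤ n / v0 + 1 := by
  have h1 : (univ.filter (fun j : Fin n => j.val % v0 = k)).card =
      n.count (· ≡ k [MOD v0]) := by
    rw [Nat.count_eq_card_filter_range]
    refine Finset.card_bij (fun j _ => j.val) ?_ ?_ ?_
    · intro j hj
      rw [mem_filter] at hj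
      rw [mem_filter, mem_range]
      refine ⟨j.2, ?_⟩
      rw [Nat.ModEq, hj.2, Nat.mod_eq_of_lt hk]
    · intro j _ j' _ h
      exact Fin.ext h
    · intro x hx
      rw [mem_filter, mem_range] at hx
      refine ⟨⟨x, hx.1⟩, ?_, rfl⟩
      rw [mem_filter]
      refine ⟨mem_univ _, ?_⟩
      have := hx.2
      rw [Nat.ModEq, Nat.mod_eq_of_lt hk] at this
      exact this
  rw [h1, Nat.count_modEq_card n hv0 k]
  split_ifs <;> omega

/-- the labels -/
theorem N5_lab {V : Type} [Fintype V] (n : ℕ) (h : 0 < Fintype.card V) :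
    ∃ lam : Fin n → V, ∀ v,
      n / Fintype.card V ≤ Nat.card {j // lam j = v} ∧
      Nat.card {j // lam j = v} ≤ n / Fintype.card V + 1 := by
  classical
  set e : V ≃ Fin (Fintype.card V) := Fintype.equivFin V with he
  refine ⟨fun j => e.symm ⟨j.val % Fintype.card V, Nat.mod_lt _ h⟩, fun v => ?_⟩
  have h1 : Nat.card {j : Fin n // e.symm ⟨j.val % Fintype.card V, Nat.mod_lt _ h⟩ = v} =
      (univ.filter (fun j : Fin n => j.val % Fintype.card V = (e v).val)).card := by
    rw [Nat.card_eq_fintype_card, Fintype.card_subtype]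
    congr 1
    apply Finset.filter_congr
    intro j _
    rw [Equiv.symm_apply_eq, Fin.ext_iff]
  rw [h1]
  exact N5_mod n _ _ h (e v).2

/-- numbering of the cosets -/
theorem N5_rho {V : Type} [AddCommGroup V] [Fintype V] (H : AddSubgroup V) {G : ℕ}
    (hG : H.index = G) : ∃ ρ : V → Fin G, (∀ u v, ρ u = ρ v ↔ u - v ∈ H) ∧
      Function.Surjective ρ := by
  have hfin : Finite (V ⧸ H) := inferInstance
  have hc : Nat.card (V ⧸ H) = G := by
    rw [← AddSubgroup.index_eq_card]; exact hG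
  set e : V ⧸ H ≃ Fin G := Finite.equivFinOfCardEq hc with he
  refine ⟨fun v => e (QuotientAddGroup.mk v), fun u v => ?_, ?_⟩
  · rw [e.apply_eq_iff_eq, QuotientAddGroup.eq, ← neg_mem_iff]
    have : -(-u + v) = u - v := by abel
    rw [this]
  · exact e.surjective.comp (QuotientAddGroup.mk_surjective)

/-- the two colours have the same size -/
theorem N5_two {V : Type} [AddCommGroup V] [Fintype V] (H : AddSubgroup V) (c : V → Bool)
    {q : ℕ} (hq : 1 ≤ q) (hH : Nat.card H = 2 * q) (b : Bool)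
    (hc : ∀ v, Nat.card {w // w - v ∈ H ∧ c w = b} = q) :
    2 * Nat.card {w // c w = b} = Fintype.card V := by
  classical
  have h1 : ∑ v : V, Nat.card {w // w - v ∈ H ∧ c w = b} = Fintype.card V * q := by
    rw [Finset.sum_congr rfl fun v _ => hc v, Finset.sum_const, Finset.card_univ, smul_eq_mul]
  have h2 : ∑ v : V, Nat.card {w // w - v ∈ H ∧ c w = b} = Nat.card {w // c w = b} * (2 * q) := by
    have e1 : ∀ v : V, Nat.card {w // w - v ∈ H ∧ c w = b} =
        ∑ w : V, if c w = b then (if w - v ∈ H then 1 else 0) else 0 := by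
      intro v
      rw [Nat.card_eq_fintype_card, Fintype.card_subtype, Finset.card_filter]
      refine Finset.sum_congr rfl fun w _ => ?_
      by_cases h1 : c w = b <;> by_cases h2 : w - v ∈ H <;> simp [h1, h2]
    rw [Finset.sum_congr rfl fun v _ => e1 v, Finset.sum_comm]
    have e2 : ∀ w : V, ∑ v : V, (if c w = b then (if w - v ∈ H then 1 else 0) else 0) =
        if c w = b then 2 * q else 0 := by
      intro w
      by_cases h1 : c w = b
      · simp only [if_pos h1]
        rw [← hH, ← Finset.card_filter, Nat.card_eq_fintype_card]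
        rw [← Fintype.card_subtype]
        refine Fintype.card_congr ⟨fun x => ⟨w - x.1, x.2⟩, fun y => ⟨w - y.1, ?_⟩, ?_, ?_⟩
        · rw [sub_sub_cancel]
          exact y.2
        · intro x
          ext
          simp
        · intro y
          ext
          simp
      · simp only [if_neg h1, Finset.sum_const_zero]
    rw [Finset.sum_congr rfl fun w _ => e2 w, ← Finset.sum_filter, Finset.sum_const, smul_eq_mul,
      Nat.card_eq_fintype_card, Fintype.card_subtype]
  rw [h1] at h2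
  have h3 : (2 * Nat.card {w // c w = b}) * q = Fintype.card V * q := by
    rw [h2]; ring
  exact Nat.eq_of_mul_eq_mul_right (by omega) h3

/-- size of the fibres of a coset map composed with the labels -/
theorem N5_fib {V : Type} [AddCommGroup V] [Fintype V] (K : AddSubgroup V) {n M F : ℕ}
    (ρ : V → Fin M) (hρ : ∀ u v, ρ u = ρ v ↔ u - v ∈ K) (lam : Fin n → V)
    (hF : ∀ v, Nat.card {j // lam j = v} ≤ F) (b : Fin M) :
    (univ.filter (fun j => ρ (lam j) = b)).card ≤ F * Nat.card K := by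
  classical
  refine (Finset.card_le_mul_card_image_of_maps_to (f := lam) (s := univ.filter (fun j => ρ (lam j) = b))
    (t := univ.filter (fun x => ρ x = b)) ?_ F ?_).trans ?_
  · intro j hj
    rw [mem_filter] at hj ⊢
    exact ⟨mem_univ _, hj.2⟩
  · intro x _
    refine le_trans ?_ (hF x)
    rw [Nat.card_eq_fintype_card, Fintype.card_subtype]
    exact Finset.card_le_card (Finset.filter_subset_filter _ (Finset.subset_univ _))
  · refine Nat.mul_le_mul_left _ ?_
    rcases (univ.filter (fun x => ρ x = b)).eq_empty_or_nonempty with h | ⟨x0, hx0⟩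
    · rw [h, Finset.card_empty]
      exact Nat.zero_le _
    · rw [mem_filter] at hx0
      rw [Nat.card_eq_fintype_card, ← Finset.card_univ (α := K)]
      refine Finset.card_le_card_of_injOn
        (fun x => if h : x - x0 ∈ K then (⟨x - x0, h⟩ : K) else 0) (fun _ _ => mem_coe.2 (mem_univ _)) ?_
      intro x hx y hy hxy
      rw [mem_coe, mem_filter] at hx hy
      have h1 : x - x0 ∈ K := (hρ x x0).1 (by rw [hx.2, hx0.2])
      have h2 : y - x0 ∈ K := (hρ y x0).1 (by rw [hy.2, hx0.2])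
      simp only [dif_pos h1, dif_pos h2, Subtype.mk.injEq] at hxy
      exact sub_left_injective hxy

theorem alg_groups_of (hlines : N5_lines) (hfew : N5_few) (hhalf : N5_half)
    (Q e t W1 : ℕ) (hQ : 1 ≤ Q) (he : 1 ≤ e) (ht : 1 ≤ t) :
    ∃ N C : ℕ, ∀ n ≥ N, ∃ (G : ℕ) (π : Fin (t * t) → Fin n → Fin G), 1 ≤ G ∧ W1 * G ≤ n ∧
      (∀ A B : Finset (Fin n), n ≤ Q * A.card → n ≤ Q * B.card →
        Nat.card {j // ¬ Bal (π j) A B} ≤ 64 * (e * t) * Q) ∧
      (∃ A B : Finset (Fin n), Disjoint A B ∧ n ≤ 4 * A.card ∧ n ≤ 4 * B.card ∧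
        ∀ j, Bal (π j) A B) ∧
      ∀ T : Finset (Fin (t * t)), T.card ≤ t → ∃ (M w : ℕ) (β : Fin n → Fin M), M ≤ n ∧
        (∀ i ∈ T, ∀ u v, π i u = π i v → β u = β v) ∧
        (∀ b, (univ.filter (fun v => β v = b)).card ≤ w) ∧ w ^ e ≤ C * n := by
  classical
  set r := e * t with hr
  have hr1 : 1 ≤ r := Nat.mul_pos he ht
  set κ := t * t + W1 + 1 with hκ
  refine ⟨(2 ^ r) ^ κ, 2 ^ ((r + 1) * e), fun n hn => ?_⟩
  have h2r : 1 < 2 ^ r := Nat.one_lt_two_pow (by omega)
  have hn1 : 1 ≤ n := le_trans (Nat.one_le_pow _ _ (by omega)) hn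
  -- the exponent
  set a := Nat.log (2 ^ r) n with ha
  have haκ : κ ≤ a := Nat.le_log_of_pow_le h2r hn
  have ha1 : 1 ≤ a := by omega
  have h2a : κ ≤ 2 ^ a := haκ.trans (Nat.lt_two_pow_self).le
  have hlow : (2 ^ a) ^ r ≤ n := by
    rw [← pow_mul, mul_comm, pow_mul]
    exact Nat.pow_log_le_self _ (by omega)
  have hup : n < 2 ^ r * (2 ^ a) ^ r := by
    have := Nat.lt_pow_succ_log_self h2r n
    rw [← ha] at this
    have e1 : 2 ^ r * (2 ^ a) ^ r = (2 ^ r) ^ (a + 1) := by
      rw [← pow_mul, ← pow_mul, ← pow_add]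
      congr 1
      ring
    rw [e1]
    exact this
  obtain ⟨V, iG, iF, H, c, hcard, hH, hgen, hsup, hc⟩ := hlines a r (t * t) ha1 hr1 (by omega)
  have hv0 : 0 < Fintype.card V := by rw [hcard]; positivity
  have hvn : Fintype.card V ≤ n := by rw [hcard]; exact hlow
  -- labels
  obtain ⟨lam, hlam⟩ := N5_lab (V := V) n hv0
  set F0 := n / Fintype.card V with hF0
  have hF01 : 1 ≤ F0 := (Nat.one_le_div_iff hv0).2 hvn
  have hF0r : F0 < 2 ^ r := by
    rw [hF0, Nat.div_lt_iff_lt_mul hv0, hcard]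
    exact hup
  have hF0n : F0 * Fintype.card V ≤ n := Nat.div_mul_le_self _ _
  -- the number of groups
  set G := (2 ^ a) ^ (r - 1) with hG
  have hGV : G * 2 ^ a = Fintype.card V := by
    rw [hcard, hG, ← pow_succ]
    congr 1
    omega
  have hind : ∀ i, (H i).index = G := by
    intro i
    have h1 := (H i).index_mul_card
    rw [hH i, Nat.card_eq_fintype_card, ← hGV] at h1
    exact Nat.eq_of_mul_eq_mul_right (by positivity) h1
  choose ρ hρ hρs using fun i => N5_rho (H i) (hind i)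
  refine ⟨G, fun i j => ρ i (lam j), ?_, ?_, ?_, ?_, ?_⟩
  · exact Nat.one_le_pow _ _ (by positivity)
  · refine le_trans ?_ hvn
    rw [← hGV, mul_comm]
    exact Nat.mul_le_mul_left _ (by omega)
  · intro A B hA hB
    refine hfew (F := F0 + 1) (q := 2 ^ a) hr1 hQ hn1 H hH hgen lam ?_ ?_ ρ hρ hGV A B hA hB
    · intro v
      rw [N5_card]
      exact (hlam v).2
    · nlinarith
  · have h2q : 2 * 2 ^ (a - 1) = 2 ^ a := by
      rw [← pow_succ']
      congr 1
      omega
    refine hhalf (q := 2 ^ (a - 1)) (F := F0) (Nat.one_le_two_pow) hF01 H c ?_ ?_ lam ?_ ?_ ρ hρ hρs ?_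
    · exact hc
    · intro b
      rw [N5_card]
      have hpos : 0 < t * t := Nat.mul_pos ht ht
      refine N5_two (H ⟨0, hpos⟩) c (q := 2 ^ (a - 1)) (Nat.one_le_two_pow)
        (by rw [hH, h2q]) b ?_
      intro v
      rw [← hc ⟨0, hpos⟩ v b, N5_card]
    · intro v
      rw [N5_card]
      exact (hlam v).1
    · intro v
      rw [N5_card]
      exact (hlam v).2.trans (by omega)
    · rw [h2q]
      exact hGV
  · intro T hT
    obtain ⟨β, hβ, -⟩ := N5_rho (⨆ i ∈ T, H i) rfl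
    refine ⟨(⨆ i ∈ T, H i : AddSubgroup V).index, 2 ^ (r + 1) * (2 ^ a) ^ t,
      fun j => β (lam j), ?_, ?_, ?_, ?_⟩
    · refine le_trans ?_ hvn
      rw [← Nat.card_eq_fintype_card, ← (⨆ i ∈ T, H i : AddSubgroup V).index_mul_card]
      exact Nat.le_mul_of_pos_right _ Nat.card_pos
    · intro i hi u v huv
      rw [hβ]
      rw [hρ] at huv
      exact (le_iSup₂ (f := fun i (_ : i ∈ T) => H i) i hi) huv
    · intro b
      refine (N5_fib (⨆ i ∈ T, H i) β hβ lam (fun v => (hlam v).2) b).trans ?_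
      have h1 : F0 + 1 ≤ 2 ^ (r + 1) := by
        rw [pow_succ]
        omega
      have h2 : Nat.card (⨆ i ∈ T, H i : AddSubgroup V) ≤ (2 ^ a) ^ t :=
        (hsup T).trans (Nat.pow_le_pow_right (by positivity) hT)
      exact Nat.mul_le_mul h1 h2
    · rw [mul_pow, ← pow_mul, ← pow_mul, mul_comm t e, ← hr]
      exact Nat.mul_le_mul_left _ hlow

/-- A5: the partitions -/
theorem alg_groups (Q e t W1 : ℕ) (hQ : 1 ≤ Q) (he : 1 ≤ e) (ht : 1 ≤ t) :
    ∃ N C : ℕ, ∀ n ≥ N, ∃ (G : ℕ) (π : Fin (t * t) → Fin n → Fin G), 1 ≤ G ∧ W1 * G ≤ n ∧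
      (∀ A B : Finset (Fin n), n ≤ Q * A.card → n ≤ Q * B.card →
        Nat.card {j // ¬ Bal (π j) A B} ≤ 64 * (e * t) * Q) ∧
      (∃ A B : Finset (Fin n), Disjoint A B ∧ n ≤ 4 * A.card ∧ n ≤ 4 * B.card ∧
        ∀ j, Bal (π j) A B) ∧
      ∀ T : Finset (Fin (t * t)), T.card ≤ t → ∃ (M w : ℕ) (β : Fin n → Fin M), M ≤ n ∧
        (∀ i ∈ T, ∀ u v, π i u = π i v → β u = β v) ∧
        (∀ b, (univ.filter (fun v => β v = b)).card ≤ w) ∧ w ^ e ≤ C * n :=
  alg_groups_of @lines
    (fun hr _ hn H hq hgen lam hF hFn ρ hρ hGq A B hA hB =>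
      bal_few_of hr hn H hq (fun f => four_var hr H hgen f) lam hF hFn ρ hρ hGq A B hA hB)
    @bal_half Q e t W1 hQ he ht

end Pool.Agent.H554R2.NC
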