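import Mathlib
import Pool.Agent.H554R2.NC.Defs
import Pool.Agent.H554R2.RK.RectPat
import Pool.Agent.H554R2.Qua.SumChi

/-!
# N9: patterns in a class (helper677)
-/

set_option autoImplicit false

open Finset

namespace Pool.Agent.H554R2.NC

open Pool.Agent.H554R2.Sem Pool.Agent.H554R2.Coin Pool.Agent.H554R2.Lin Pool.Agent.H554R2.Rnd
open Pool.Agent.H554R2.Qua

/-- A9: patterns in a class -/
theorem class_pat {n r s G D Q L : ℕ} (hQ : 1 ≤ Q) (B : Blk n r s) (hB : AllRead B)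
    (T : Fin r → Fin 3) (x : Pt n) (hx : x ∈ B.K) (hL : Lg Q B T x)
    (π : Fin D → Fin n → Fin G) (h : Fin D → Fin n → Fin n → Bool)
    (hker : ∀ A B' : Finset (Fin n), Disjoint A B' → n ≤ Q * A.card → n ≤ Q * B'.card →
      ∀ s : Finset (Fin D), ∀ j ∈ s, Bal (π j) A B' →
        (ker (coef π h s) A B').card * 2 ^ (min A.card B'.card / 2048) ≤ 2 ^ B'.card)
    (hbal : ∀ A B' : Finset (Fin n), n ≤ Q * A.card → n ≤ Q * B'.card →
      Nat.card {j // ¬ Bal (π j) A B'} ≤ L) :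
    ∃ U : Finset (Fin D), U.card ≤ L ∧ ∀ z z' : Fin D → Bool, (∀ j ∈ U, z j = z' j) →
      |((cls B T x ∩ Pat π h z).card : ℝ) - (cls B T x ∩ Pat π h z').card| ≤
        2 * (cls B T x).card / 2 ^ (n / (16384 * Q)) := by
  classical
  have hdis := R7_disj B hB T x hx
  refine ⟨univ.filter (fun j => ¬ Bal (π j) (hat (B.S x) T 0) (hat (B.S x) T 1)), ?_,
    fun z z' hz => ?_⟩
  · refine le_trans (le_of_eq ?_) (hbal (hat (B.S x) T 0) (hat (B.S x) T 1) hL.1 hL.2.1)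
    rw [Nat.card_eq_fintype_card, Fintype.card_subtype]
  have hD : (0 : ℝ) < 2 ^ D := by positivity
  have hE : (0 : ℝ) < 2 ^ (n / (16384 * Q)) := by positivity
  have e : (2 : ℤ) ^ D * (((cls B T x ∩ Pat π h z).card : ℤ) - (cls B T x ∩ Pat π h z').card) =
      ∑ s : Finset (Fin D), ((∏ i ∈ s, sgn (z i)) - ∏ i ∈ s, sgn (z' i)) *
        ∑ y ∈ cls B T x, chi π h s y := by
    rw [mul_sub, RK.K8_card, RK.K8_card, ← Finset.sum_sub_distrib]
    exact Finset.sum_congr rfl fun s _ => (sub_mul _ _ _).symm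
  have e' : (2 : ℝ) ^ D * (((cls B T x ∩ Pat π h z).card : ℝ) - (cls B T x ∩ Pat π h z').card) =
      ∑ s : Finset (Fin D), (((∏ i ∈ s, sgn (z i) : ℤ) : ℝ) - ((∏ i ∈ s, sgn (z' i) : ℤ) : ℝ)) *
        ((∑ y ∈ cls B T x, chi π h s y : ℤ) : ℝ) := by
    have := congrArg (fun z : ℤ => (z : ℝ)) e
    push_cast at this
    push_cast
    exact this
  have hterm : ∀ s : Finset (Fin D),
      |(((∏ i ∈ s, sgn (z i) : ℤ) : ℝ) - ((∏ i ∈ s, sgn (z' i) : ℤ) : ℝ)) *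
        ((∑ y ∈ cls B T x, chi π h s y : ℤ) : ℝ)| ≤
          2 * (cls B T x).card / 2 ^ (n / (16384 * Q)) := by
    intro s
    by_cases hs : ∃ j ∈ s, Bal (π j) (hat (B.S x) T 0) (hat (B.S x) T 1)
    · obtain ⟨j, hj, hjb⟩ := hs
      have h1 : ((|∑ y ∈ cls B T x, chi π h s y| : ℤ) : ℝ) * 2 ^ (n / (16384 * Q)) ≤
          (cls B T x).card :=
        class_chi hQ B hB T x hx hL π h s (hker _ _ hdis hL.1 hL.2.1 s j hj hjb)
      rw [abs_mul, ← Int.cast_abs (a := ∑ y ∈ cls B T x, chi π h s y), le_div_iff₀ hE]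
      have h2 : |((∏ i ∈ s, sgn (z i) : ℤ) : ℝ) - ((∏ i ∈ s, sgn (z' i) : ℤ) : ℝ)| ≤ 2 := by
        refine (abs_sub _ _).trans ?_
        rw [RK.K8_abs, RK.K8_abs]
        norm_num
      calc |((∏ i ∈ s, sgn (z i) : ℤ) : ℝ) - ((∏ i ∈ s, sgn (z' i) : ℤ) : ℝ)| *
            ((|∑ y ∈ cls B T x, chi π h s y| : ℤ) : ℝ) * 2 ^ (n / (16384 * Q))
          = |((∏ i ∈ s, sgn (z i) : ℤ) : ℝ) - ((∏ i ∈ s, sgn (z' i) : ℤ) : ℝ)| *
            (((|∑ y ∈ cls B T x, chi π h s y| : ℤ) : ℝ) * 2 ^ (n / (16384 * Q))) := by ring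
        _ ≤ 2 * (cls B T x).card := mul_le_mul h2 h1 (by positivity) (by norm_num)
    · have h3 : ∏ i ∈ s, sgn (z i) = ∏ i ∈ s, sgn (z' i) := by
        refine Finset.prod_congr rfl fun i hi => ?_
        rw [hz i (mem_filter.2 ⟨mem_univ _, fun hb => hs ⟨i, hi, hb⟩⟩)]
      rw [h3, sub_self, zero_mul, abs_zero]
      positivity
  have h4 : (2 : ℝ) ^ D * |((cls B T x ∩ Pat π h z).card : ℝ) - (cls B T x ∩ Pat π h z').card| ≤
      2 ^ D * (2 * (cls B T x).card / 2 ^ (n / (16384 * Q))) := by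
    have e3 : (2 : ℝ) ^ D * |((cls B T x ∩ Pat π h z).card : ℝ) - (cls B T x ∩ Pat π h z').card| =
        |(2 : ℝ) ^ D * (((cls B T x ∩ Pat π h z).card : ℝ) - (cls B T x ∩ Pat π h z').card)| := by
      rw [abs_mul, abs_of_pos hD]
    rw [e3, e']
    refine (Finset.abs_sum_le_sum_abs _ _).trans ((Finset.sum_le_sum fun s _ => hterm s).trans ?_)
    rw [Finset.sum_const, Finset.card_univ, Fintype.card_finset, Fintype.card_fin, nsmul_eq_mul]
    push_cast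
    exact le_rfl
  exact le_of_mul_le_mul_left h4 hD

end Pool.Agent.H554R2.NC
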