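import Pool.Agent.H554R2.Rnd.Coefs

/-!
# A6: random coefficients for any number of groups (after `Rnd/Coefs.lean`)
-/

set_option autoImplicit false

open Finset

namespace Pool.Agent.H554R2.NC

open Pool.Agent.H554R2.Sem Pool.Agent.H554R2.Coin Pool.Agent.H554R2.Lin Pool.Agent.H554R2.Rnd

theorem N6_bad (hz : R18PZ) {n W Q D G : ℕ} (hQ : 1 ≤ Q) (hW : 64 * Q * (16 * (8192 * Q)) ≤ W)
    (hG1 : 1 ≤ G) (hWG : W * G ≤ n) (π : Fin D → Fin n → Fin G) (A B : Finset (Fin n)) (hd : Disjoint A B)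
    (hA : n ≤ Q * A.card) (hB : n ≤ Q * B.card) (s : Finset (Fin D)) (j : Fin D) (hj : j ∈ s)
    (hb : Bal (π j) A B) :
    (univ.filter (fun h : Fin D → Fin n → Fin n → Bool =>
      2 ^ B.card < (ker (coef π h s) A B).card * 2 ^ (min A.card B.card / 2048))).card *
        2 ^ (4 * n) ≤ Fintype.card (Fin D → Fin n → Fin n → Bool) := by
  classical
  set t := 8192 * Q with ht
  set a0 := min A.card B.card with ha0
  set m := a0 / (64 * G) with hm
  have hW0 : 0 < W := lt_of_lt_of_le (by positivity) hW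
  have hGW : G * W ≤ n := by rw [mul_comm]; exact hWG
  have hna : n ≤ Q * a0 := by
    rw [ha0]
    rcases min_choice A.card B.card with h | h <;> rw [h] <;> assumption
  have h64 : 64 * G * (16 * t) ≤ a0 := by
    have h1 : Q * (64 * G * (16 * t)) ≤ Q * a0 := by
      calc Q * (64 * G * (16 * t)) = G * (64 * Q * (16 * t)) := by ring
        _ ≤ G * W := Nat.mul_le_mul_left _ hW
        _ ≤ n := hGW
        _ ≤ _ := hna
    exact Nat.le_of_mul_le_mul_left h1 (by omega)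
  have ht2 : 2 ≤ t := by omega
  have hm16 : 16 * t ≤ m := by
    rw [hm, Nat.le_div_iff_mul_le (by positivity)]
    calc 16 * t * (64 * G) = 64 * G * (16 * t) := by ring
      _ ≤ a0 := h64
  have htot := R18_total hz (t := t) (π j) A B m ht2 (by omega)
  have hmom := R18_moment (t := t) π A B hd s j hj
  set Z := Nat.card {w : Fin n → (Fin n → ZMod 2) × (Fin t → ZMod 2) //
        ∀ g, R18R (π j) A B g t (fun u => w u.1)} with hZ
  set S := ∑ h : Fin D → Fin n → Fin n → Bool, (ker (coef π h s) A B).card ^ t with hS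
  set H := Fintype.card (Fin D → Fin n → Fin n → Bool) with hH
  -- the exponent
  have hexp : -(3 * (m : ℝ) * t / 8) * ((rich (π j) m A B).card : ℝ) ≤ -((t : ℝ) * a0 / 1024) := by
    have hb' : (G : ℝ) ≤ 3 * ((rich (π j) m A B).card : ℝ) := by
      have : G ≤ 3 * (rich (π j) m A B).card := hb
      exact_mod_cast this
    have hmG : (a0 : ℝ) / 128 ≤ m * G := by
      have h1 : a0 < (m + 1) * (64 * G) := by
        rw [hm]
        have := Nat.lt_div_mul_add (a := a0) (b := 64 * G) (by positivity)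
        linarith
      have h1' : (a0 : ℝ) < ((m : ℝ) + 1) * (64 * G) := by exact_mod_cast h1
      have h2 : 128 * G ≤ a0 := by
        calc 128 * G ≤ 64 * G * (16 * t) := by nlinarith
          _ ≤ a0 := h64
      have h2' : 128 * (G : ℝ) ≤ a0 := by exact_mod_cast h2
      nlinarith
    have ht0 : (0 : ℝ) ≤ t := Nat.cast_nonneg t
    have hm0 : (0 : ℝ) ≤ m := Nat.cast_nonneg m
    have e1 : (m : ℝ) * t * G ≤ m * t * (3 * ((rich (π j) m A B).card : ℝ)) :=
      mul_le_mul_of_nonneg_left hb' (by positivity)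
    have e2 : (t : ℝ) * (a0 / 128) ≤ t * (m * G) := mul_le_mul_of_nonneg_left hmG ht0
    nlinarith
  have hSb : (S : ℝ) ≤ (H : ℝ) * ((2 : ℝ) ^ (B.card * t) * (2 : ℝ) ^ (-((t : ℝ) * a0 / 1024))) := by
    have h1 : (2 : ℝ) ^ (n * n) * (S : ℝ) ≤ (H : ℝ) * (Z : ℝ) := by exact_mod_cast hmom
    have h2 : (Z : ℝ) ≤ (2 : ℝ) ^ (n * n + B.card * t) * (2 : ℝ) ^ (-((t : ℝ) * a0 / 1024)) := by
      refine htot.trans (mul_le_mul_of_nonneg_left ?_ (by positivity))
      exact Real.rpow_le_rpow_of_exponent_le (by norm_num) hexp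
    have h3 : (H : ℝ) * (Z : ℝ) ≤ (2 : ℝ) ^ (n * n) *
        ((H : ℝ) * ((2 : ℝ) ^ (B.card * t) * (2 : ℝ) ^ (-((t : ℝ) * a0 / 1024)))) := by
      calc (H : ℝ) * (Z : ℝ) ≤ (H : ℝ) * ((2 : ℝ) ^ (n * n + B.card * t) *
            (2 : ℝ) ^ (-((t : ℝ) * a0 / 1024))) :=
            mul_le_mul_of_nonneg_left h2 (Nat.cast_nonneg _)
        _ = _ := by rw [pow_add]; ring
    exact le_of_mul_le_mul_left (h1.trans h3) (by positivity)
  -- Markov
  set e := a0 / 2048 with he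
  set bad := univ.filter (fun h : Fin D → Fin n → Fin n → Bool =>
      2 ^ B.card < (ker (coef π h s) A B).card * 2 ^ e) with hbad
  have hmk : bad.card * 2 ^ (B.card * t) ≤ S * 2 ^ (e * t) := by
    calc bad.card * 2 ^ (B.card * t) = ∑ h ∈ bad, (2 ^ B.card) ^ t := by
          rw [sum_const, smul_eq_mul, ← pow_mul]
      _ ≤ ∑ h ∈ bad, ((ker (coef π h s) A B).card * 2 ^ e) ^ t := by
          refine sum_le_sum fun h hh => ?_
          rw [hbad, mem_filter] at hh
          exact Nat.pow_le_pow_left hh.2.le t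
      _ ≤ ∑ h : Fin D → Fin n → Fin n → Bool, ((ker (coef π h s) A B).card * 2 ^ e) ^ t :=
          sum_le_sum_of_subset (subset_univ _)
      _ = S * 2 ^ (e * t) := by
          rw [hS, sum_mul]
          refine sum_congr rfl fun h _ => ?_
          rw [mul_pow, ← pow_mul]
  have hmk' : (bad.card : ℝ) * 2 ^ (B.card * t) ≤ (S : ℝ) * 2 ^ (e * t) := by exact_mod_cast hmk
  have hfin : (bad.card : ℝ) * 2 ^ (4 * n) ≤ (H : ℝ) := by
    have h1 : (bad.card : ℝ) * 2 ^ (B.card * t) ≤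
        ((H : ℝ) * ((2 : ℝ) ^ (-((t : ℝ) * a0 / 1024)) * 2 ^ (e * t))) * 2 ^ (B.card * t) := by
      calc (bad.card : ℝ) * 2 ^ (B.card * t) ≤ (S : ℝ) * 2 ^ (e * t) := hmk'
        _ ≤ ((H : ℝ) * ((2 : ℝ) ^ (B.card * t) * (2 : ℝ) ^ (-((t : ℝ) * a0 / 1024)))) *
              2 ^ (e * t) := mul_le_mul_of_nonneg_right hSb (by positivity)
        _ = _ := by ring
    have h2 : (bad.card : ℝ) ≤ (H : ℝ) * ((2 : ℝ) ^ (-((t : ℝ) * a0 / 1024)) * 2 ^ (e * t)) :=
      le_of_mul_le_mul_right h1 (by positivity)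
    have h3 : (2 : ℝ) ^ (-((t : ℝ) * a0 / 1024)) * 2 ^ (e * t) * 2 ^ (4 * n) ≤ 1 := by
      rw [← Real.rpow_natCast, ← Real.rpow_natCast, ← Real.rpow_add (by norm_num),
        ← Real.rpow_add (by norm_num)]
      apply Real.rpow_le_one_of_one_le_of_nonpos (by norm_num)
      push_cast
      have he' : (e : ℝ) ≤ (a0 : ℝ) / 2048 := by
        rw [he]
        exact_mod_cast Nat.cast_div_le (m := a0) (n := 2048) (α := ℝ)
      have ht' : (t : ℝ) = 8192 * Q := by rw [ht]; push_cast; ring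
      have hna' : (n : ℝ) ≤ Q * a0 := by exact_mod_cast hna
      have h4 : (e : ℝ) * t ≤ (a0 : ℝ) / 2048 * t :=
        mul_le_mul_of_nonneg_right he' (Nat.cast_nonneg _)
      rw [ht'] at h4 ⊢
      nlinarith
    calc (bad.card : ℝ) * 2 ^ (4 * n)
        ≤ (H : ℝ) * ((2 : ℝ) ^ (-((t : ℝ) * a0 / 1024)) * 2 ^ (e * t)) * 2 ^ (4 * n) :=
          mul_le_mul_of_nonneg_right h2 (by positivity)
      _ = (H : ℝ) * ((2 : ℝ) ^ (-((t : ℝ) * a0 / 1024)) * 2 ^ (e * t) * 2 ^ (4 * n)) := by ring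
      _ ≤ (H : ℝ) * 1 := mul_le_mul_of_nonneg_left h3 (Nat.cast_nonneg _)
      _ = _ := mul_one _
  exact_mod_cast hfin

/-- A6: coefficients, for any number of groups -/
theorem N6_main (hz : R18PZ) (Q D : ℕ) (hQ : 1 ≤ Q) : ∃ W1 N : ℕ, 1 ≤ W1 ∧ ∀ n ≥ N, ∀ G : ℕ,
    1 ≤ G → W1 * G ≤ n → ∀ π : Fin D → Fin n → Fin G, ∃ h : Fin D → Fin n → Fin n → Bool,
      ∀ A B : Finset (Fin n), Disjoint A B → n ≤ Q * A.card → n ≤ Q * B.card →
        ∀ s : Finset (Fin D), ∀ j ∈ s, Bal (π j) A B →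
          (ker (coef π h s) A B).card * 2 ^ (min A.card B.card / 2048) ≤ 2 ^ B.card := by
  classical
  refine ⟨64 * Q * (16 * (8192 * Q)), D + 1, Nat.succ_le_of_lt (by positivity),
    fun n hn G hG1 hWG π => ?_⟩
  by_contra hno
  push Not at hno
  set H := Fintype.card (Fin D → Fin n → Fin n → Bool) with hH
  let val : Finset (Fin n) × Finset (Fin n) × Finset (Fin D) × Fin D → Prop := fun q =>
    Disjoint q.1 q.2.1 ∧ n ≤ Q * q.1.card ∧ n ≤ Q * q.2.1.card ∧ q.2.2.2 ∈ q.2.2.1 ∧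
      Bal (π q.2.2.2) q.1 q.2.1
  let bad : Finset (Fin n) × Finset (Fin n) × Finset (Fin D) × Fin D →
      Finset (Fin D → Fin n → Fin n → Bool) := fun q =>
    if val q then univ.filter (fun h => 2 ^ q.2.1.card <
      (ker (coef π h q.2.2.1) q.1 q.2.1).card * 2 ^ (min q.1.card q.2.1.card / 2048)) else ∅
  have hbad : ∀ q, (bad q).card * 2 ^ (4 * n) ≤ H := by
    rintro ⟨A, B, s, j⟩
    by_cases hv : val (A, B, s, j)
    · simp only [bad, if_pos hv]
      obtain ⟨h1, h2, h3, h4, h5⟩ := hv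
      exact N6_bad hz hQ le_rfl hG1 hWG π A B h1 h2 h3 s j h4 h5
    · simp only [bad, if_neg hv, card_empty, zero_mul]
      exact Nat.zero_le _
  have hcov : (univ : Finset (Fin D → Fin n → Fin n → Bool)) ⊆ univ.biUnion bad := by
    intro h _
    obtain ⟨A, B, h1, h2, h3, s, j, h4, h5, h6⟩ := hno h
    rw [mem_biUnion]
    refine ⟨(A, B, s, j), mem_univ _, ?_⟩
    have hv : val (A, B, s, j) := ⟨h1, h2, h3, h4, h5⟩
    simp only [bad, if_pos hv]
    rw [mem_filter]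
    exact ⟨mem_univ _, h6⟩
  have h1 : H ≤ ∑ q, (bad q).card := by
    rw [hH, ← card_univ]
    exact (card_le_card hcov).trans card_biUnion_le
  have h2 : H * 2 ^ (4 * n) ≤
      Fintype.card (Finset (Fin n) × Finset (Fin n) × Finset (Fin D) × Fin D) * H := by
    calc H * 2 ^ (4 * n) ≤ (∑ q, (bad q).card) * 2 ^ (4 * n) := Nat.mul_le_mul_right _ h1
      _ = ∑ q, (bad q).card * 2 ^ (4 * n) := sum_mul _ _ _
      _ ≤ ∑ q : Finset (Fin n) × Finset (Fin n) × Finset (Fin D) × Fin D, H :=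
          sum_le_sum fun q _ => hbad q
      _ = _ := by rw [sum_const, card_univ, smul_eq_mul]
  have hHpos : 0 < H := Fintype.card_pos
  have h3 : 2 ^ (4 * n) ≤
      Fintype.card (Finset (Fin n) × Finset (Fin n) × Finset (Fin D) × Fin D) := by
    rw [mul_comm] at h2
    exact Nat.le_of_mul_le_mul_right h2 hHpos
  rw [Fintype.card_prod, Fintype.card_prod, Fintype.card_prod, Fintype.card_finset,
    Fintype.card_finset, Fintype.card_fin, Fintype.card_fin] at h3
  have h4 : 2 ^ n * (2 ^ n * (2 ^ D * D)) < 2 ^ (4 * n) := by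
    have hD : D < 2 ^ D := Nat.lt_two_pow_self
    calc 2 ^ n * (2 ^ n * (2 ^ D * D)) < 2 ^ n * (2 ^ n * (2 ^ D * 2 ^ D)) := by
          have h5 : 2 ^ D * D < 2 ^ D * 2 ^ D := Nat.mul_lt_mul_of_pos_left hD (by positivity)
          have h6 : 2 ^ n * (2 ^ D * D) < 2 ^ n * (2 ^ D * 2 ^ D) :=
            Nat.mul_lt_mul_of_pos_left h5 (by positivity)
          exact Nat.mul_lt_mul_of_pos_left h6 (by positivity)
      _ = 2 ^ (n + (n + (D + D))) := by rw [pow_add, pow_add, pow_add]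
      _ ≤ 2 ^ (4 * n) := Nat.pow_le_pow_right (by norm_num) (by omega)
  omega

/-- A6: coefficients, for any number of groups -/
theorem coefs_gen (Q D : ℕ) (hQ : 1 ≤ Q) : ∃ W1 N : ℕ, 1 ≤ W1 ∧ ∀ n ≥ N, ∀ G : ℕ, 1 ≤ G →
    W1 * G ≤ n → ∀ π : Fin D → Fin n → Fin G, ∃ h : Fin D → Fin n → Fin n → Bool,
      ∀ A B : Finset (Fin n), Disjoint A B → n ≤ Q * A.card → n ≤ Q * B.card →
        ∀ s : Finset (Fin D), ∀ j ∈ s, Bal (π j) A B →
          (ker (coef π h s) A B).card * 2 ^ (min A.card B.card / 2048) ≤ 2 ^ B.card :=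
  N6_main (fun m m' t ht h h' => pairs_zero m m' t ht h h') Q D hQ

end Pool.Agent.H554R2.NC
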