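import Pool.Agent.H554R2.NC.Defs
import Pool.Agent.H554R2.Qua.DetCorrOf

/-!
# N11: deterministic programs which read all variables, from the estimate for the large classes
-/

set_option autoImplicit false

open Finset

namespace Pool.Agent.H554R2.NC

open Pool.Agent.H554R2.Sem Pool.Agent.H554R2.Coin Pool.Agent.H554R2.Lin Pool.Agent.H554R2.Rnd
open Pool.Agent.H554R2.Qua

theorem N11_zr_inj {t : ℕ} {J J' : Fin t → Fin t} (h : zr J = zr J') : J = J' := by
  funext i
  have h1 := congrFun h (finProdFinEquiv (i, J i))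
  unfold zr at h1
  simp only [Equiv.symm_apply_apply] at h1
  by_contra hne
  simp [hne] at h1

theorem N11_mu_nonneg {t : ℕ} (ht : 32 ≤ t) (z : Fin (t * t) → Bool) : 0 ≤ mu z := by
  unfold mu
  have ht' : (32 : ℝ) ≤ t := by exact_mod_cast ht
  refine Finset.prod_nonneg fun c _ => ?_
  split_ifs
  · have h1 : 16 / (t : ℝ) ≤ 1 := by
      rw [div_le_one (by linarith)]
      linarith
    linarith
  · positivity

/-- the points with one of the patterns `zr J` -/
def N11_Z {n G t : ℕ} (π : Fin (t * t) → Fin n → Fin G)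
    (h : Fin (t * t) → Fin n → Fin n → Bool) : Finset (Pt n) :=
  (univ : Finset (Fin t → Fin t)).biUnion fun J => Pat π h (zr J)

theorem N11_card {n G t : ℕ} (π : Fin (t * t) → Fin n → Fin G)
    (h : Fin (t * t) → Fin n → Fin n → Bool) (S : Finset (Pt n)) :
    (S ∩ N11_Z π h).card = ∑ J : Fin t → Fin t, (S ∩ Pat π h (zr J)).card := by
  rw [← Finset.card_biUnion]
  · congr 1
    ext x
    simp only [N11_Z, mem_inter, mem_biUnion, mem_univ, true_and]
    constructor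
    · rintro ⟨h1, J, h2⟩
      exact ⟨J, h1, h2⟩
    · rintro ⟨J, h1, h2⟩
      exact ⟨h1, J, h2⟩
  · intro J _ J' _ hne
    rw [Function.onFun, Finset.disjoint_left]
    intro x h1 h2
    apply hne
    apply N11_zr_inj
    rw [mem_inter, Pat, mem_filter] at h1 h2
    funext c
    rw [← h1.2.2 c, h2.2.2 c]

open Classical in
/-- one class of computations -/
theorem N11_class {n r s G t Q N0 M : ℕ} (ht : 32 ≤ t) (B : Blk n r s) (T : Fin r → Fin 3)
    (π : Fin (t * t) → Fin n → Fin G) (h : Fin (t * t) → Fin n → Fin n → Bool)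
    (hcov : (B.K ∩ N11_Z π h).card * 2 ^ (n / N0) ≤
      M * Nat.card {x // x ∈ B.K ∩ N11_Z π h ∧ Lg Q B T x} * 2 ^ (n / N0) + 2 ^ n)
    (hlarge : ∑ J : Fin t → Fin t,
        (((B.K.filter (fun x => Lg Q B T x)) ∩ Pat π h (zr J)).card : ℝ) ≤
      (2 / (t : ℝ)) * ∑ J : Fin t → Fin t, ∑ i,
        (((B.K.filter (fun x => Lg Q B T x)) ∩ Pat π h (zo J i)).card : ℝ) +
      (t : ℝ) ^ t / 2 ^ t *
        ∑ z, mu z * ((B.K.filter (fun x => Lg Q B T x)) ∩ Pat π h z).card +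
      6 * (t : ℝ) ^ t * ((B.K.filter (fun x => Lg Q B T x)).card / 2 ^ (n / (16384 * Q)))) :
    ∑ J : Fin t → Fin t, ((B.K ∩ Pat π h (zr J)).card : ℝ) ≤
      M * ((2 / (t : ℝ)) * ∑ J : Fin t → Fin t, ∑ i, ((B.K ∩ Pat π h (zo J i)).card : ℝ) +
        (t : ℝ) ^ t / 2 ^ t * ∑ z, mu z * (B.K ∩ Pat π h z).card +
        6 * (t : ℝ) ^ t * (B.K.card / 2 ^ (n / (16384 * Q)))) + 2 ^ n / 2 ^ (n / N0) := by
  obtain ⟨LK, hLK⟩ : ∃ LK : Finset (Pt n), LK = B.K.filter (fun x => Lg Q B T x) := ⟨_, rfl⟩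
  have hLKs : LK ⊆ B.K := by rw [hLK]; exact Finset.filter_subset _ _
  have hcard : Nat.card {x // x ∈ B.K ∩ N11_Z π h ∧ Lg Q B T x} = (LK ∩ N11_Z π h).card := by
    rw [Nat.card_eq_fintype_card, Fintype.card_subtype, hLK]
    congr 1
    ext x
    simp only [mem_filter, mem_inter, mem_univ, true_and]
    tauto
  rw [hcard, N11_card, N11_card] at hcov
  rw [← hLK] at hlarge
  have hcov' : (∑ J : Fin t → Fin t, ((B.K ∩ Pat π h (zr J)).card : ℝ)) * 2 ^ (n / N0) ≤
      M * (∑ J : Fin t → Fin t, ((LK ∩ Pat π h (zr J)).card : ℝ)) * 2 ^ (n / N0) + 2 ^ n := by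
    exact_mod_cast hcov
  have hmono : ∀ S : Finset (Pt n), ((LK ∩ S).card : ℝ) ≤ (B.K ∩ S).card := by
    intro S
    exact_mod_cast Finset.card_le_card (Finset.inter_subset_inter_right hLKs)
  have hLKc : (LK.card : ℝ) ≤ B.K.card := by exact_mod_cast Finset.card_le_card hLKs
  have hpos : (0 : ℝ) < 2 ^ (n / N0) := by positivity
  have h1 : ∑ J : Fin t → Fin t, ((B.K ∩ Pat π h (zr J)).card : ℝ) ≤
      M * (∑ J : Fin t → Fin t, ((LK ∩ Pat π h (zr J)).card : ℝ)) + 2 ^ n / 2 ^ (n / N0) := by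
    rw [← mul_le_mul_iff_left₀ hpos, add_mul, div_mul_cancel₀ _ hpos.ne']
    exact hcov'
  refine h1.trans ?_
  have hM : (0 : ℝ) ≤ M := Nat.cast_nonneg M
  have h2 : ∑ J : Fin t → Fin t, ∑ i, ((LK ∩ Pat π h (zo J i)).card : ℝ) ≤
      ∑ J : Fin t → Fin t, ∑ i, ((B.K ∩ Pat π h (zo J i)).card : ℝ) :=
    Finset.sum_le_sum fun J _ => Finset.sum_le_sum fun i _ => hmono _
  have h3 : ∑ z, mu z * ((LK ∩ Pat π h z).card : ℝ) ≤ ∑ z, mu z * ((B.K ∩ Pat π h z).card : ℝ) :=
    Finset.sum_le_sum fun z _ => mul_le_mul_of_nonneg_left (hmono _) (N11_mu_nonneg ht z)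
  have h4 : (LK.card : ℝ) / 2 ^ (n / (16384 * Q)) ≤ B.K.card / 2 ^ (n / (16384 * Q)) :=
    div_le_div_of_nonneg_right hLKc (by positivity)
  have h5 : ∑ J : Fin t → Fin t, ((LK ∩ Pat π h (zr J)).card : ℝ) ≤
      (2 / (t : ℝ)) * ∑ J : Fin t → Fin t, ∑ i, ((B.K ∩ Pat π h (zo J i)).card : ℝ) +
        (t : ℝ) ^ t / 2 ^ t * ∑ z, mu z * (B.K ∩ Pat π h z).card +
        6 * (t : ℝ) ^ t * (B.K.card / 2 ^ (n / (16384 * Q))) := by
    refine hlarge.trans ?_
    have h6 := mul_le_mul_of_nonneg_left h2 (show (0 : ℝ) ≤ 2 / (t : ℝ) by positivity)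
    have h7 := mul_le_mul_of_nonneg_left h3 (show (0 : ℝ) ≤ (t : ℝ) ^ t / 2 ^ t by positivity)
    have h8 := mul_le_mul_of_nonneg_left h4 (show (0 : ℝ) ≤ 6 * (t : ℝ) ^ t by positivity)
    linarith
  have h6 := mul_le_mul_of_nonneg_left h5 hM
  linarith

open Classical in
/-- A11 from the cover and the estimate for the large classes -/
theorem nc_det_of (k : ℕ) (_hk : 1 ≤ k)
    (main_cover : ∃ Q r N : ℕ, 0 < Q ∧ 0 < r ∧ 0 < N ∧ ∀ n ≥ N, ∀ s,
      r * s ≤ (k + 1) * n → ∀ B : Blk n r s, AllRead B → ∀ Z ⊆ B.K, ∃ T : Fin r → Fin 3,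
      Z.card * 2 ^ (n / N) ≤
        8 * (k + 1) ^ 2 * Nat.card {x // x ∈ Z ∧ Lg Q B T x} * 2 ^ (n / N) + 2 ^ n)
    (large_pat : ∀ {n r s G t Q L : ℕ} (_ : 1 ≤ Q) (_ : 32 ≤ t) (_ : 32 * L ≤ t * t)
      (B : Blk n r s) (_ : AllRead B)
      (T : Fin r → Fin 3) (π : Fin (t * t) → Fin n → Fin G)
      (h : Fin (t * t) → Fin n → Fin n → Bool)
      (_ : ∀ A B' : Finset (Fin n), Disjoint A B' → n ≤ Q * A.card → n ≤ Q * B'.card →
        ∀ s : Finset (Fin (t * t)), ∀ j ∈ s, Bal (π j) A B' →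
          (ker (coef π h s) A B').card * 2 ^ (min A.card B'.card / 2048) ≤ 2 ^ B'.card)
      (_ : ∀ A B' : Finset (Fin n), n ≤ Q * A.card → n ≤ Q * B'.card →
        Nat.card {j // ¬ Bal (π j) A B'} ≤ L),
      ∑ J : Fin t → Fin t, (((B.K.filter (fun x => Lg Q B T x)) ∩ Pat π h (zr J)).card : ℝ) ≤
        (2 / (t : ℝ)) * ∑ J : Fin t → Fin t, ∑ i,
          (((B.K.filter (fun x => Lg Q B T x)) ∩ Pat π h (zo J i)).card : ℝ) +
        (t : ℝ) ^ t / 2 ^ t *
          ∑ z, mu z * ((B.K.filter (fun x => Lg Q B T x)) ∩ Pat π h z).card +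
        6 * (t : ℝ) ^ t * ((B.K.filter (fun x => Lg Q B T x)).card / 2 ^ (n / (16384 * Q)))) :
    ∃ Q r N : ℕ, 1 ≤ Q ∧ 1 ≤ r ∧ 1 ≤ N ∧ ∀ n ≥ N,
    ∀ {G t L : ℕ}, 32 ≤ t → 32 * L ≤ t * t →
    ∀ (π : Fin (t * t) → Fin n → Fin G) (h : Fin (t * t) → Fin n → Fin n → Bool),
    (∀ A B' : Finset (Fin n), Disjoint A B' → n ≤ Q * A.card → n ≤ Q * B'.card →
      ∀ s : Finset (Fin (t * t)), ∀ j ∈ s, Bal (π j) A B' →
        (ker (coef π h s) A B').card * 2 ^ (min A.card B'.card / 2048) ≤ 2 ^ B'.card) →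
    (∀ A B' : Finset (Fin n), n ≤ Q * A.card → n ≤ Q * B'.card →
      Nat.card {j // ¬ Bal (π j) A B'} ≤ L) →
    ∀ P : BP (Fin n) Bool,
      (∀ x, ∃ (l : List (Fin n)) (b : Bool), l.length ≤ k * n ∧ P.Comp x l b ∧ ∀ v, v ∈ l) →
      ∑ J : Fin t → Fin t, ((univ.filter (fun x => (∃ l, P.Comp x l false) ∧
          x ∈ Pat π h (zr J))).card : ℝ) ≤
        8 * ((k : ℝ) + 1) ^ 2 * ((2 / (t : ℝ)) * ∑ J : Fin t → Fin t, ∑ i,
            ((univ.filter (fun x => (∃ l, P.Comp x l false) ∧ x ∈ Pat π h (zo J i))).card : ℝ) +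
          (t : ℝ) ^ t / 2 ^ t * ∑ z, mu z * (Pat π h z).card +
          6 * (t : ℝ) ^ t * (2 ^ n / 2 ^ (n / (16384 * Q)))) +
        (Fintype.card P.State : ℝ) ^ (r + 1) * (2 ^ n / 2 ^ (n / N)) := by
  obtain ⟨Q, r, N0, hQ, hr, hN0, hcov⟩ := main_cover
  refine ⟨Q, r, max N0 r, hQ, hr, by omega, ?_⟩
  intro n hn G t L ht htL π h hker hbal P hP
  obtain ⟨s, hs⟩ : ∃ s, s = k * n / r + 1 := ⟨_, rfl⟩
  have hrn : r ≤ n := (le_max_right _ _).trans hn
  have hs1 : k * n ≤ r * s := by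
    rw [hs, Nat.mul_add, mul_one]
    have := Nat.div_add_mod (k * n) r
    have h2 := Nat.mod_lt (k * n) hr
    omega
  have hs2 : r * s ≤ (k + 1) * n := by
    rw [hs, Nat.mul_add, mul_one]
    have := Nat.mul_div_le (k * n) r
    have h3 : (k + 1) * n = k * n + n := by ring
    omega
  have hn0 : N0 ≤ n := (le_max_left _ _).trans hn
  have hP' : ∀ x, ∃ (l : List (Fin n)) (b : Bool), l.length ≤ r * s ∧ P.Comp x l b ∧ ∀ v, v ∈ l := by
    intro x
    obtain ⟨l, b, h1, h2, h3⟩ := hP x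
    exact ⟨l, b, h1.trans hs1, h2, h3⟩
  obtain ⟨c, hc⟩ : ∃ c : Pt n → (Fin (r + 1) → P.State),
    c = fun x (j : Fin (r + 1)) => V1_it P x P.start (j * s) := ⟨_, rfl⟩
  have hfalse : ∀ x : Pt n, (∃ l, P.Comp x l false) →
      P.node (c x (Fin.last r)) = Sum.inr false := by
    rintro x ⟨l', hl'⟩
    obtain ⟨l, b, h1, h2, -⟩ := hP' x
    have h3 := V1_comp P x h2 (t := max (r * s) l'.length) (h1.trans (le_max_left _ _))
    have h4 := V1_comp P x hl' (t := max (r * s) l'.length) (le_max_right _ _)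
    rw [h3] at h4
    have h5 : b = false := by simpa using h4
    subst h5
    rw [hc]
    exact V1_comp P x h2 (by simpa using h1)
  obtain ⟨M, hM⟩ : ∃ M : ℕ, M = 8 * (k + 1) ^ 2 := ⟨_, rfl⟩
  obtain ⟨F, hF⟩ : ∃ F : (Fin (t * t) → Bool) → Finset (Pt n), F = fun z =>
    univ.filter (fun x => (∃ l, P.Comp x l false) ∧ x ∈ Pat π h z) := ⟨_, rfl⟩
  have hMR : 8 * ((k : ℝ) + 1) ^ 2 = (M : ℝ) := by rw [hM]; push_cast; ring
  have hmu := fun z => N11_mu_nonneg ht z
  have key : ∀ κ : Fin (r + 1) → P.State,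
      ∑ J : Fin t → Fin t, (((F (zr J)).filter (fun x => c x = κ)).card : ℝ) ≤
        M * ((2 / (t : ℝ)) * ∑ J : Fin t → Fin t, ∑ i,
            (((F (zo J i)).filter (fun x => c x = κ)).card : ℝ) +
          (t : ℝ) ^ t / 2 ^ t * ∑ z, mu z * ((Pat π h z).filter (fun x => c x = κ)).card +
          6 * (t : ℝ) ^ t * (((univ : Finset (Pt n)).filter (fun x => c x = κ)).card /
            2 ^ (n / (16384 * Q)))) + 2 ^ n / 2 ^ (n / N0) := by
    intro κ
    by_cases hκ : κ 0 = P.start ∧ P.node (κ (Fin.last r)) = Sum.inr false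
    · obtain ⟨B, hB, hBK⟩ := Q3_blocks P r s hP' κ hκ.1
      have hK : B.K = (univ : Finset (Pt n)).filter (fun x => c x = κ) := by
        ext x
        rw [hBK, mem_filter]
        constructor
        · intro h1
          refine ⟨mem_univ _, ?_⟩
          rw [hc]; funext i; exact h1 i
        · rintro ⟨-, h1⟩ i
          rw [← h1, hc]
      have hset : ∀ z, (F z).filter (fun x => c x = κ) = B.K ∩ Pat π h z := by
        intro z
        ext x
        simp only [hF, mem_filter, mem_inter, mem_univ, true_and, hBK]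
        constructor
        · rintro ⟨⟨_, h2⟩, h3⟩
          refine ⟨fun i => ?_, h2⟩
          rw [← h3, hc]
        · rintro ⟨h1, h2⟩
          have h3 : c x = κ := by
            rw [hc]; funext i; exact h1 i
          refine ⟨⟨?_, h2⟩, h3⟩
          obtain ⟨l, w, h4, h5⟩ := V1_comp_of P x false _ P.start
            (by rw [h1 (Fin.last r)]; exact hκ.2)
          exact ⟨l, w, h4, h5⟩
      have hpat : ∀ z, (Pat π h z).filter (fun x => c x = κ) = B.K ∩ Pat π h z := by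
        intro z
        rw [hK]
        ext x
        simp only [mem_filter, mem_inter, mem_univ, true_and]
        tauto
      simp only [hset, hpat, ← hK]
      obtain ⟨T, hT⟩ := hcov n hn0 s hs2 B hB (B.K ∩ N11_Z π h) Finset.inter_subset_left
      rw [← hM] at hT
      exact N11_class ht B T π h hT (large_pat hQ ht htL B hB T π h hker hbal)
    · have hempty : ∀ z, (F z).filter (fun x => c x = κ) = ∅ := by
        intro z
        rw [Finset.filter_eq_empty_iff]
        intro x hx hcx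
        rw [hF] at hx
        simp only [mem_filter, mem_univ, true_and] at hx
        apply hκ
        constructor
        · rw [← hcx, hc]
          change V1_it P x P.start (((0 : Fin (r + 1)) : ℕ) * s) = _
          rw [Fin.val_zero, zero_mul, V1_it_zero]
        · rw [← hcx]
          exact hfalse x hx.1
      simp only [hempty, card_empty, Nat.cast_zero, sum_const_zero, mul_zero, zero_add]
      have h1 : 0 ≤ ∑ z, mu z * (((Pat π h z).filter (fun x => c x = κ)).card : ℝ) :=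
        Finset.sum_nonneg fun z _ => mul_nonneg (hmu z) (Nat.cast_nonneg _)
      positivity
  have hfib : ∀ S : Finset (Pt n), (S.card : ℝ) = ∑ κ : Fin (r + 1) → P.State,
      ((S.filter (fun x => c x = κ)).card : ℝ) := by
    intro S
    have := Finset.card_eq_sum_card_fiberwise (f := c) (s := S) (t := univ)
      (fun x _ => Finset.mem_coe.2 (Finset.mem_univ _))
    rw [this]
    push_cast
    rfl
  have hFn : ∀ z, (univ.filter (fun x => (∃ l, P.Comp x l false) ∧ x ∈ Pat π h z)) = F z := by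
    intro z
    rw [hF]
  have huniv : (((univ : Finset (Pt n)).card : ℕ) : ℝ) = 2 ^ n := by
    rw [Finset.card_univ, Fintype.card_fun, Fintype.card_bool, Fintype.card_fin]
    push_cast
    rfl
  simp only [hFn]
  have hpow : (2 : ℝ) ^ n / 2 ^ (n / N0) ≤ 2 ^ n / 2 ^ (n / (max N0 r)) := by
    apply div_le_div_of_nonneg_left (by positivity) (by positivity)
    exact pow_le_pow_right₀ (by norm_num) (Nat.div_le_div_left (le_max_left _ _) hN0)
  have e1 : ∑ J : Fin t → Fin t, ((F (zr J)).card : ℝ) = ∑ κ : Fin (r + 1) → P.State,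
      ∑ J : Fin t → Fin t, (((F (zr J)).filter (fun x => c x = κ)).card : ℝ) := by
    rw [Finset.sum_comm]
    exact Finset.sum_congr rfl fun J _ => hfib _
  have e2 : ∑ J : Fin t → Fin t, ∑ i, ((F (zo J i)).card : ℝ) = ∑ κ : Fin (r + 1) → P.State,
      ∑ J : Fin t → Fin t, ∑ i, (((F (zo J i)).filter (fun x => c x = κ)).card : ℝ) := by
    refine Eq.trans ?_ Finset.sum_comm
    refine Finset.sum_congr rfl fun J _ => ?_
    refine Eq.trans ?_ Finset.sum_comm
    exact Finset.sum_congr rfl fun i _ => hfib _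
  have e3 : ∑ z, mu z * ((Pat π h z).card : ℝ) = ∑ κ : Fin (r + 1) → P.State,
      ∑ z, mu z * (((Pat π h z).filter (fun x => c x = κ)).card : ℝ) := by
    rw [Finset.sum_comm]
    refine Finset.sum_congr rfl fun z _ => ?_
    rw [← Finset.mul_sum, ← hfib]
  have e4 : (2 : ℝ) ^ n / 2 ^ (n / (16384 * Q)) = ∑ κ : Fin (r + 1) → P.State,
      (((univ : Finset (Pt n)).filter (fun x => c x = κ)).card : ℝ) /
        2 ^ (n / (16384 * Q)) := by
    rw [← Finset.sum_div, ← hfib, huniv]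
  have e5 : (Fintype.card P.State : ℝ) ^ (r + 1) * (2 ^ n / 2 ^ (n / N0)) =
      ∑ _κ : Fin (r + 1) → P.State, (2 : ℝ) ^ n / 2 ^ (n / N0) := by
    rw [Finset.sum_const, Finset.card_univ, nsmul_eq_mul, Fintype.card_fun, Fintype.card_fin]
    push_cast
    ring
  have h1 := mul_le_mul_of_nonneg_left hpow
    (show (0 : ℝ) ≤ (Fintype.card P.State : ℝ) ^ (r + 1) by positivity)
  have h2 : ∑ κ : Fin (r + 1) → P.State,
      ∑ J : Fin t → Fin t, (((F (zr J)).filter (fun x => c x = κ)).card : ℝ) ≤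
      ∑ κ : Fin (r + 1) → P.State, (M * ((2 / (t : ℝ)) * ∑ J : Fin t → Fin t, ∑ i,
            (((F (zo J i)).filter (fun x => c x = κ)).card : ℝ) +
          (t : ℝ) ^ t / 2 ^ t * ∑ z, mu z * ((Pat π h z).filter (fun x => c x = κ)).card +
          6 * (t : ℝ) ^ t * (((univ : Finset (Pt n)).filter (fun x => c x = κ)).card /
            2 ^ (n / (16384 * Q)))) + 2 ^ n / 2 ^ (n / N0)) :=
    Finset.sum_le_sum (fun κ _ => key κ)
  rw [Finset.sum_add_distrib, ← Finset.mul_sum, Finset.sum_add_distrib, Finset.sum_add_distrib,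
    ← Finset.mul_sum, ← Finset.mul_sum, ← Finset.mul_sum, ← e1, ← e2, ← e3, ← e4, ← e5] at h2
  rw [hMR]
  linarith

end Pool.Agent.H554R2.NC
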