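import Pool.Agent.H554R2.NC.Defs
import Pool.Agent.H554R2.Rnd.CoverBlk

/-!
# A10: patterns in the union of the large classes
-/

set_option autoImplicit false

open Finset

namespace Pool.Agent.H554R2.NC

open Pool.Agent.H554R2.Sem Pool.Agent.H554R2.Coin Pool.Agent.H554R2.Lin Pool.Agent.H554R2.Rnd
open Pool.Agent.H554R2.Qua

open Classical in
/-- A10 from A8 (`mu_class`) and A9 (`class_pat`), both taken as hypotheses. -/
theorem large_pat_of
    (hmu : ∀ {t L : ℕ} (_ : 32 ≤ t) (_ : 32 * L ≤ t * t) (N : (Fin (t * t) → Bool) → ℝ)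
      (_ : ∀ z, 0 ≤ N z) (ε : ℝ) (_ : 0 ≤ ε) (U : Finset (Fin (t * t))) (_ : U.card ≤ L)
      (_ : ∀ z z', (∀ j ∈ U, z j = z' j) → |N z - N z'| ≤ ε),
      ∑ J : Fin t → Fin t, N (zr J) ≤ (2 / (t : ℝ)) * ∑ J : Fin t → Fin t, ∑ i, N (zo J i) +
        (t : ℝ) ^ t / 2 ^ t * ∑ z, mu z * N z + 3 * (t : ℝ) ^ t * ε)
    {n r s G t Q L : ℕ} (ht : 32 ≤ t) (htL : 32 * L ≤ t * t)
    (B : Blk n r s) (hB : AllRead B)
    (T : Fin r → Fin 3) (π : Fin (t * t) → Fin n → Fin G)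
    (h : Fin (t * t) → Fin n → Fin n → Bool)
    (hcp : ∀ x ∈ B.K, Lg Q B T x →
      ∃ U : Finset (Fin (t * t)), U.card ≤ L ∧ ∀ z z' : Fin (t * t) → Bool,
        (∀ j ∈ U, z j = z' j) →
        |((cls B T x ∩ Pat π h z).card : ℝ) - (cls B T x ∩ Pat π h z').card| ≤
          2 * (cls B T x).card / 2 ^ (n / (16384 * Q))) :
    ∑ J : Fin t → Fin t, (((B.K.filter (fun x => Lg Q B T x)) ∩ Pat π h (zr J)).card : ℝ) ≤
      (2 / (t : ℝ)) * ∑ J : Fin t → Fin t, ∑ i,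
        (((B.K.filter (fun x => Lg Q B T x)) ∩ Pat π h (zo J i)).card : ℝ) +
      (t : ℝ) ^ t / 2 ^ t *
        ∑ z, mu z * ((B.K.filter (fun x => Lg Q B T x)) ∩ Pat π h z).card +
      6 * (t : ℝ) ^ t * ((B.K.filter (fun x => Lg Q B T x)).card / 2 ^ (n / (16384 * Q))) := by
  set CL : Finset (Finset (Pt n)) :=
    (B.K.filter (fun x => Lg Q B T x)).image (fun x => cls B T x) with hCL
  have hpart : ∀ X : Finset (Pt n), (((B.K.filter (fun x => Lg Q B T x)) ∩ X).card : ℝ) =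
      ∑ R ∈ CL, ((R ∩ X).card : ℝ) := by
    intro X
    rw [R20_part B hB T, Nat.cast_sum]
  have hcard : ((B.K.filter (fun x => Lg Q B T x)).card : ℝ) = ∑ R ∈ CL, (R.card : ℝ) := by
    have h4 := hpart univ
    simpa only [Finset.inter_univ] using h4
  have h1 : ∑ J : Fin t → Fin t,
      (((B.K.filter (fun x => Lg Q B T x)) ∩ Pat π h (zr J)).card : ℝ) =
      ∑ R ∈ CL, ∑ J : Fin t → Fin t, ((R ∩ Pat π h (zr J)).card : ℝ) := by
    symm
    rw [Finset.sum_comm]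
    exact Finset.sum_congr rfl fun J _ => (hpart _).symm
  have h2 : ∑ J : Fin t → Fin t, ∑ i,
      (((B.K.filter (fun x => Lg Q B T x)) ∩ Pat π h (zo J i)).card : ℝ) =
      ∑ R ∈ CL, ∑ J : Fin t → Fin t, ∑ i, ((R ∩ Pat π h (zo J i)).card : ℝ) := by
    symm
    rw [Finset.sum_comm]
    refine Finset.sum_congr rfl fun J _ => ?_
    rw [Finset.sum_comm]
    exact Finset.sum_congr rfl fun i _ => (hpart _).symm
  have h3 : ∑ z : Fin (t * t) → Bool,
      mu z * (((B.K.filter (fun x => Lg Q B T x)) ∩ Pat π h z).card : ℝ) =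
      ∑ R ∈ CL, ∑ z : Fin (t * t) → Bool, mu z * ((R ∩ Pat π h z).card : ℝ) := by
    symm
    rw [Finset.sum_comm]
    refine Finset.sum_congr rfl fun z _ => ?_
    rw [hpart, Finset.mul_sum]
  rw [h1, h2, h3, hcard, Finset.mul_sum, Finset.mul_sum, Finset.sum_div, Finset.mul_sum,
    ← Finset.sum_add_distrib, ← Finset.sum_add_distrib]
  apply Finset.sum_le_sum
  intro R hR
  obtain ⟨x, hx, rfl⟩ := Finset.mem_image.1 hR
  obtain ⟨hxK, hxL⟩ := Finset.mem_filter.1 hx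
  obtain ⟨U, hU, hUz⟩ := hcp x hxK hxL
  have key := hmu ht htL (fun z => ((cls B T x ∩ Pat π h z).card : ℝ))
    (fun z => Nat.cast_nonneg _) (2 * (cls B T x).card / 2 ^ (n / (16384 * Q)))
    (by positivity) U hU hUz
  have h6 : 3 * (t : ℝ) ^ t * (2 * (cls B T x).card / 2 ^ (n / (16384 * Q))) =
      6 * (t : ℝ) ^ t * ((cls B T x).card / 2 ^ (n / (16384 * Q))) := by
    ring
  rw [h6] at key
  exact key

end Pool.Agent.H554R2.NC
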