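import Pool.Agent.H554R2.NC.Defs

/-!
# The inequality for one class
-/

set_option autoImplicit false

open Finset

namespace Pool.Agent.H554R2.NC

/-- the zeros of `z` in `U` -/
def n8F {t : ℕ} (U : Finset (Fin (t * t))) (z : Fin (t * t) → Bool) : Finset (Fin (t * t)) :=
  U.filter (fun c => z c = false)

theorem n8_zr_false {t : ℕ} (J : Fin t → Fin t) (c : Fin (t * t)) :
    zr J c = false ↔ (finProdFinEquiv.symm c).2 = J (finProdFinEquiv.symm c).1 := by
  simp [zr]

theorem n8_zr_eq {t : ℕ} (J : Fin t → Fin t) (c : Fin (t * t)) (h : zr J c = false) :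
    finProdFinEquiv ((finProdFinEquiv.symm c).1, J (finProdFinEquiv.symm c).1) = c := by
  rw [← (n8_zr_false J c).1 h]
  exact finProdFinEquiv.apply_symm_apply c

theorem n8_agree {t : ℕ} (U : Finset (Fin (t * t))) (J : Fin t → Fin t) (i : Fin t)
    (hi : finProdFinEquiv (i, J i) ∉ U) : ∀ c ∈ U, zr J c = zo J i c := by
  intro c hc
  unfold zr zo
  apply decide_eq_decide.2
  constructor
  · intro h; exact Or.inr h
  · rintro (h1 | h)
    · intro h3
      apply hi
      have h4 : finProdFinEquiv (i, J i) = c := by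
        rw [← h1, ← h3]
        exact finProdFinEquiv.apply_symm_apply c
      rw [h4]; exact hc
    · exact h

theorem n8_rows {t : ℕ} (U : Finset (Fin (t * t))) (J : Fin t → Fin t) :
    (univ.filter (fun i : Fin t => finProdFinEquiv (i, J i) ∈ U)).card ≤
      (n8F U (zr J)).card := by
  apply Finset.card_le_card_of_injOn (fun i => finProdFinEquiv (i, J i))
  · intro i hi
    simp only [Finset.coe_filter, Set.mem_ofPred_eq, Finset.mem_univ, true_and] at hi
    simp only [n8F, Finset.coe_filter, Set.mem_ofPred_eq]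
    refine ⟨hi, ?_⟩
    rw [n8_zr_false]
    simp
  · intro i _ j _ h
    have := finProdFinEquiv.injective h
    exact (Prod.ext_iff.1 this).1

theorem n8_typ {t : ℕ} (ht : 32 ≤ t) (N : (Fin (t * t) → Bool) → ℝ)
    (hN : ∀ z, 0 ≤ N z) (ε : ℝ) (hε : 0 ≤ ε) (U : Finset (Fin (t * t)))
    (hNU : ∀ z z', (∀ j ∈ U, z j = z' j) → |N z - N z'| ≤ ε) (J : Fin t → Fin t)
    (hJ : 2 * (n8F U (zr J)).card ≤ t) :
    N (zr J) ≤ (2 / (t : ℝ)) * ∑ i, N (zo J i) + ε := by
  classical
  have htR : (0 : ℝ) < t := by exact_mod_cast (by omega : 0 < t)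
  have hT : 0 ≤ ∑ i, N (zo J i) := Finset.sum_nonneg (fun i _ => hN _)
  by_cases hneg : N (zr J) - ε ≤ 0
  · have : 0 ≤ (2 / (t : ℝ)) * ∑ i, N (zo J i) := by positivity
    linarith
  push Not at hneg
  set S := univ.filter (fun i : Fin t => ¬ finProdFinEquiv (i, J i) ∈ U) with hS
  have hcard : (univ.filter (fun i : Fin t => finProdFinEquiv (i, J i) ∈ U)).card + S.card = t := by
    rw [hS, Finset.card_filter_add_card_filter_not]
    simp
  have hrow := n8_rows U J
  have hk : t ≤ 2 * S.card := by omega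
  have hkR : (t : ℝ) ≤ 2 * S.card := by exact_mod_cast hk
  have h1 : (S.card : ℝ) * (N (zr J) - ε) ≤ ∑ i, N (zo J i) := by
    calc (S.card : ℝ) * (N (zr J) - ε) = ∑ i ∈ S, (N (zr J) - ε) := by
          rw [Finset.sum_const, nsmul_eq_mul]
      _ ≤ ∑ i ∈ S, N (zo J i) := by
          apply Finset.sum_le_sum
          intro i hi
          have hi' : finProdFinEquiv (i, J i) ∉ U := by
            simpa [hS] using hi
          have := hNU _ _ (n8_agree U J i hi')
          have := (abs_le.1 this).2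
          linarith
      _ ≤ ∑ i, N (zo J i) := by
          apply Finset.sum_le_sum_of_subset_of_nonneg (Finset.subset_univ _)
          intro i _ _; exact hN _
  have h2 : (t : ℝ) * (N (zr J) - ε) ≤ 2 * ∑ i, N (zo J i) := by
    nlinarith [mul_le_mul_of_nonneg_right hkR hneg.le]
  have h3 : N (zr J) - ε ≤ 2 * (∑ i, N (zo J i)) / t := by
    rw [le_div_iff₀ htR]; linarith
  have h4 : 2 * (∑ i, N (zo J i)) / t = (2 / (t : ℝ)) * ∑ i, N (zo J i) := by ring
  linarith

open Classical in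
theorem n8_marg {t : ℕ} (U : Finset (Fin (t * t))) (z0 : Fin (t * t) → Bool) :
    ∑ z ∈ univ.filter (fun z : Fin (t * t) → Bool => ∀ c ∈ U, z c = z0 c), mu z =
      ∏ c ∈ U, (if z0 c = true then 1 - 16 / (t : ℝ) else 16 / (t : ℝ)) := by
  have hset : univ.filter (fun z : Fin (t * t) → Bool => ∀ c ∈ U, z c = z0 c) =
      Fintype.piFinset (fun c => if c ∈ U then {z0 c} else (univ : Finset Bool)) := by
    ext z
    simp only [Finset.mem_filter, Finset.mem_univ, true_and, Fintype.mem_piFinset]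
    constructor
    · intro h c
      by_cases hc : c ∈ U
      · simp [hc, h c hc]
      · simp [hc]
    · intro h c hc
      have := h c
      simpa [hc] using this
  rw [hset]
  unfold mu
  rw [← Finset.prod_univ_sum (fun c => if c ∈ U then {z0 c} else (univ : Finset Bool))
    (fun c b => if b = true then 1 - 16 / (t : ℝ) else 16 / (t : ℝ))]
  have : ∀ c : Fin (t * t), ∑ b ∈ (if c ∈ U then {z0 c} else (univ : Finset Bool)),
      (if b = true then 1 - 16 / (t : ℝ) else 16 / (t : ℝ)) =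
      if c ∈ U then (if z0 c = true then 1 - 16 / (t : ℝ) else 16 / (t : ℝ)) else 1 := by
    intro c
    by_cases hc : c ∈ U
    · simp [hc]
    · simp [hc]
  rw [Finset.prod_congr rfl (fun c _ => this c)]
  rw [Finset.prod_ite_mem]
  simp

theorem n8_mu_nonneg {t : ℕ} (ht : 32 ≤ t) (z : Fin (t * t) → Bool) : 0 ≤ mu z := by
  have htR : (32 : ℝ) ≤ t := by exact_mod_cast ht
  have h1 : 16 / (t : ℝ) ≤ 1 / 2 := by
    rw [div_le_div_iff₀ (by linarith) (by norm_num)]; linarith
  have h0 : (0 : ℝ) ≤ 16 / (t : ℝ) := by positivity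
  unfold mu
  apply Finset.prod_nonneg
  intro c _
  split_ifs
  · linarith
  · exact h0

theorem n8_low {t L : ℕ} (ht : 32 ≤ t) (U : Finset (Fin (t * t))) (hU : U.card ≤ L)
    (z0 : Fin (t * t) → Bool) :
    (16 / (t : ℝ)) ^ (n8F U z0).card * (1 - 16 / (t : ℝ)) ^ L ≤
      ∏ c ∈ U, (if z0 c = true then 1 - 16 / (t : ℝ) else 16 / (t : ℝ)) := by
  have htR : (32 : ℝ) ≤ t := by exact_mod_cast ht
  have h1 : 16 / (t : ℝ) ≤ 1 / 2 := by
    rw [div_le_div_iff₀ (by linarith) (by norm_num)]; linarith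
  have h0 : (0 : ℝ) ≤ 16 / (t : ℝ) := by positivity
  rw [Finset.prod_ite, Finset.prod_const, Finset.prod_const]
  have he : U.filter (fun c => ¬ z0 c = true) = n8F U z0 := by
    unfold n8F
    apply Finset.filter_congr
    intro c _
    simp
  rw [he, mul_comm]
  apply mul_le_mul_of_nonneg_right _ (by positivity)
  apply pow_le_pow_of_le_one (by linarith) (by linarith)
  exact (Finset.card_filter_le _ _).trans hU

theorem n8_pow {t L : ℕ} (ht : 32 ≤ t) (hL : 32 * L ≤ t * t) :
    1 / (2 : ℝ) ^ t ≤ (1 - 16 / (t : ℝ)) ^ L := by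
  have htR : (32 : ℝ) ≤ t := by exact_mod_cast ht
  have ht0 : (0 : ℝ) < t := by linarith
  set p : ℝ := 16 / (t : ℝ) with hp
  have h1 : p ≤ 1 / 2 := by
    rw [hp, div_le_div_iff₀ (by linarith) (by norm_num)]; linarith
  have h0 : (0 : ℝ) ≤ p := by positivity
  have hlog : -(2 * p * Real.log 2) ≤ Real.log (1 - p) := by
    have hcc : ConcaveOn ℝ (Set.Ioi 0) Real.log := strictConcaveOn_log_Ioi.concaveOn
    have hc := hcc.2 (show (1 : ℝ) ∈ Set.Ioi 0 by norm_num)
      (show (1 / 2 : ℝ) ∈ Set.Ioi 0 by norm_num) (show (0 : ℝ) ≤ 1 - 2 * p by linarith)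
      (show (0 : ℝ) ≤ 2 * p by linarith) (show 1 - 2 * p + 2 * p = 1 by ring)
    simp only [smul_eq_mul, Real.log_one, mul_zero, zero_add] at hc
    have e1 : Real.log (1 / 2) = - Real.log 2 := by
      rw [one_div, Real.log_inv]
    have e2 : (1 - 2 * p) * 1 + 2 * p * (1 / 2) = 1 - p := by ring
    rw [e1, e2] at hc
    linarith
  have hpos : 0 < 1 - p := by linarith
  have hlog2 : 0 < Real.log 2 := Real.log_pos (by norm_num)
  have hLR : (32 : ℝ) * L ≤ t * t := by exact_mod_cast hL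
  have hpl : 2 * p * L ≤ t := by
    rw [hp]
    have : 2 * (16 / (t : ℝ)) * L = 32 * L / t := by ring
    rw [this, div_le_iff₀ ht0]
    exact hLR
  have h3 : -((t : ℝ) * Real.log 2) ≤ L * Real.log (1 - p) := by
    have a1 : (L : ℝ) * (-(2 * p * Real.log 2)) ≤ L * Real.log (1 - p) :=
      mul_le_mul_of_nonneg_left hlog (by positivity)
    have a2 : 2 * p * L * Real.log 2 ≤ t * Real.log 2 :=
      mul_le_mul_of_nonneg_right hpl hlog2.le
    nlinarith
  have h4 : Real.log (1 / (2 : ℝ) ^ t) ≤ Real.log ((1 - p) ^ L) := by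
    rw [one_div, Real.log_inv, Real.log_pow, Real.log_pow]
    exact h3
  exact (Real.log_le_log_iff (by positivity) (by positivity)).1 h4

open Classical in
theorem n8_cnt {t : ℕ} (U : Finset (Fin (t * t))) (z : Fin (t * t) → Bool) :
    (univ.filter (fun J : Fin t → Fin t => ∀ c ∈ U, z c = zr J c)).card ≤
      t ^ (t - (n8F U z).card) := by
  rcases Finset.eq_empty_or_nonempty
    (univ.filter (fun J : Fin t → Fin t => ∀ c ∈ U, z c = zr J c)) with he | ⟨J0, hJ0⟩
  · rw [he]; simp
  simp only [Finset.mem_filter, Finset.mem_univ, true_and] at hJ0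
  set R := (n8F U z).image (fun c => (finProdFinEquiv.symm c).1) with hR
  have hmem : ∀ J : Fin t → Fin t, (∀ c ∈ U, z c = zr J c) → ∀ c ∈ n8F U z,
      (finProdFinEquiv.symm c).2 = J (finProdFinEquiv.symm c).1 := by
    intro J hJ c hc
    simp only [n8F, Finset.mem_filter] at hc
    rw [← n8_zr_false, ← hJ c hc.1]
    exact hc.2
  have hRc : R.card = (n8F U z).card := by
    rw [hR]
    apply Finset.card_image_of_injOn
    intro c hc c' hc' h
    have h1 := hmem J0 hJ0 c hc
    have h2 := hmem J0 hJ0 c' hc'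
    simp only at h
    have : finProdFinEquiv.symm c = finProdFinEquiv.symm c' := by
      apply Prod.ext h
      rw [h1, h2, h]
    exact finProdFinEquiv.symm.injective this
  have hle : (univ.filter (fun J : Fin t → Fin t => ∀ c ∈ U, z c = zr J c)).card ≤
      (univ : Finset ({i // i ∉ R} → Fin t)).card := by
    apply Finset.card_le_card_of_injOn (fun J => fun i => J i.1)
    · intro _ _; simp
    · intro J hJ J' hJ' h
      simp only [Finset.coe_filter, Finset.mem_univ, true_and, Set.mem_ofPred_eq] at hJ hJ'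
      funext i
      by_cases hi : i ∈ R
      · rw [hR, Finset.mem_image] at hi
        obtain ⟨c, hc, hci⟩ := hi
        have h1 := hmem J hJ c hc
        have h2 := hmem J' hJ' c hc
        rw [hci] at h1 h2
        rw [← h1, ← h2]
      · have := congrFun h ⟨i, hi⟩
        exact this
  refine hle.trans ?_
  rw [Finset.card_univ, Fintype.card_fun, Fintype.card_fin]
  have : Fintype.card {i // i ∉ R} = t - (n8F U z).card := by
    rw [Fintype.card_subtype_compl, Fintype.card_fin, ← hRc]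
    simp
  rw [this]

theorem n8_F_congr {t : ℕ} (U : Finset (Fin (t * t))) (z z' : Fin (t * t) → Bool)
    (h : ∀ c ∈ U, z c = z' c) : n8F U z = n8F U z' := by
  unfold n8F
  apply Finset.filter_congr
  intro c hc
  rw [h c hc]

open Classical in
/-- the sum over the atypical `J` for a fixed `z` -/
theorem n8_sumJ {t L : ℕ} (ht : 32 ≤ t) (hL : 32 * L ≤ t * t) (U : Finset (Fin (t * t)))
    (z : Fin (t * t) → Bool) :
    ∑ J ∈ univ.filter (fun J : Fin t → Fin t => t < 2 * (n8F U (zr J)).card ∧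
        ∀ c ∈ U, z c = zr J c),
      1 / ((16 / (t : ℝ)) ^ (n8F U (zr J)).card * (1 - 16 / (t : ℝ)) ^ L) ≤
      (t : ℝ) ^ t / 2 ^ t := by
  have htR : (32 : ℝ) ≤ t := by exact_mod_cast ht
  have ht0 : (0 : ℝ) < t := by linarith
  have h1 : 16 / (t : ℝ) ≤ 1 / 2 := by
    rw [div_le_div_iff₀ (by linarith) (by norm_num)]; linarith
  have hq : 0 < 1 - 16 / (t : ℝ) := by linarith
  have hp0 : 0 < 16 / (t : ℝ) := by positivity
  rcases Finset.eq_empty_or_nonempty (univ.filter (fun J : Fin t → Fin t =>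
    t < 2 * (n8F U (zr J)).card ∧ ∀ c ∈ U, z c = zr J c)) with he | ⟨J0, hJ0⟩
  · rw [he]; simp; positivity
  simp only [Finset.mem_filter, Finset.mem_univ, true_and] at hJ0
  obtain ⟨hs, hz⟩ := hJ0
  rw [← n8_F_congr U z (zr J0) hz] at hs
  set s := (n8F U z).card with hsdef
  have hsle : s ≤ t := by
    have hinj : (n8F U z).card ≤ (univ : Finset (Fin t)).card := by
      apply Finset.card_le_card_of_injOn (fun c => (finProdFinEquiv.symm c).1)
      · intro _ _; simp
      · intro c hc c' hc' h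
        simp only [n8F, Finset.coe_filter, Set.mem_ofPred_eq] at hc hc'
        have a1 := (n8_zr_false J0 c).1 (by rw [← hz c hc.1]; exact hc.2)
        have a2 := (n8_zr_false J0 c').1 (by rw [← hz c' hc'.1]; exact hc'.2)
        simp only at h
        have : finProdFinEquiv.symm c = finProdFinEquiv.symm c' := by
          apply Prod.ext h
          rw [a1, a2, h]
        exact finProdFinEquiv.symm.injective this
    simpa using hinj
  have hterm : ∀ J ∈ univ.filter (fun J : Fin t → Fin t => t < 2 * (n8F U (zr J)).card ∧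
        ∀ c ∈ U, z c = zr J c),
      1 / ((16 / (t : ℝ)) ^ (n8F U (zr J)).card * (1 - 16 / (t : ℝ)) ^ L) =
        1 / ((16 / (t : ℝ)) ^ s * (1 - 16 / (t : ℝ)) ^ L) := by
    intro J hJ
    simp only [Finset.mem_filter, Finset.mem_univ, true_and] at hJ
    rw [← n8_F_congr U z (zr J) hJ.2]
  rw [Finset.sum_congr rfl hterm, Finset.sum_const, nsmul_eq_mul]
  have hcard : ((univ.filter (fun J : Fin t → Fin t => t < 2 * (n8F U (zr J)).card ∧
        ∀ c ∈ U, z c = zr J c)).card : ℝ) ≤ (t : ℝ) ^ (t - s) := by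
    have : (univ.filter (fun J : Fin t → Fin t => t < 2 * (n8F U (zr J)).card ∧
        ∀ c ∈ U, z c = zr J c)).card ≤ t ^ (t - s) := by
      refine le_trans (Finset.card_le_card ?_) (n8_cnt U z)
      intro J hJ
      simp only [Finset.mem_filter, Finset.mem_univ, true_and] at hJ ⊢
      exact hJ.2
    exact_mod_cast this
  have hden : 0 < (16 / (t : ℝ)) ^ s * (1 - 16 / (t : ℝ)) ^ L := by positivity
  have hq2 := n8_pow ht hL
  have hden2 : (16 / (t : ℝ)) ^ s * (1 / 2 ^ t) ≤ (16 / (t : ℝ)) ^ s * (1 - 16 / (t : ℝ)) ^ L :=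
    mul_le_mul_of_nonneg_left hq2 (by positivity)
  have hA : 1 / ((16 / (t : ℝ)) ^ s * (1 - 16 / (t : ℝ)) ^ L) ≤
      1 / ((16 / (t : ℝ)) ^ s * (1 / 2 ^ t)) :=
    one_div_le_one_div_of_le (by positivity) hden2
  have hB : 1 / ((16 / (t : ℝ)) ^ s * (1 / 2 ^ t)) = (t : ℝ) ^ s * 2 ^ t / 16 ^ s := by
    rw [div_pow]; field_simp
  have h16 : (4 : ℝ) ^ t ≤ 16 ^ s := by
    have : (16 : ℝ) ^ s = 4 ^ (2 * s) := by
      rw [pow_mul]; norm_num
    rw [this]
    exact pow_le_pow_right₀ (by norm_num) (by omega)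
  calc ((univ.filter (fun J : Fin t → Fin t => t < 2 * (n8F U (zr J)).card ∧
        ∀ c ∈ U, z c = zr J c)).card : ℝ) *
        (1 / ((16 / (t : ℝ)) ^ s * (1 - 16 / (t : ℝ)) ^ L))
      ≤ (t : ℝ) ^ (t - s) * ((t : ℝ) ^ s * 2 ^ t / 16 ^ s) := by
        rw [← hB]
        exact mul_le_mul hcard hA (by positivity) (by positivity)
    _ = (t : ℝ) ^ t * 2 ^ t / 16 ^ s := by
        have : (t : ℝ) ^ (t - s) * (t : ℝ) ^ s = (t : ℝ) ^ t := by
          rw [← pow_add]; congr 1; omega
        rw [← this]; ring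
    _ ≤ (t : ℝ) ^ t * 2 ^ t / 4 ^ t := by
        apply div_le_div_of_nonneg_left (by positivity) (by positivity) h16
    _ = (t : ℝ) ^ t / 2 ^ t := by
        have : (4 : ℝ) ^ t = 2 ^ t * 2 ^ t := by
          rw [← mul_pow]; norm_num
        rw [this]; field_simp

open Classical in
theorem n8_atyp {t L : ℕ} (ht : 32 ≤ t) (N : (Fin (t * t) → Bool) → ℝ)
    (hN : ∀ z, 0 ≤ N z) (ε : ℝ) (U : Finset (Fin (t * t))) (hU : U.card ≤ L)
    (hNU : ∀ z z', (∀ j ∈ U, z j = z' j) → |N z - N z'| ≤ ε) (J : Fin t → Fin t) :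
    N (zr J) ≤ (∑ z ∈ univ.filter (fun z : Fin (t * t) → Bool => ∀ c ∈ U, z c = zr J c),
      mu z * N z) * (1 / ((16 / (t : ℝ)) ^ (n8F U (zr J)).card * (1 - 16 / (t : ℝ)) ^ L)) + ε := by
  have htR : (32 : ℝ) ≤ t := by exact_mod_cast ht
  have ht0 : (0 : ℝ) < t := by linarith
  have h1 : 16 / (t : ℝ) ≤ 1 / 2 := by
    rw [div_le_div_iff₀ (by linarith) (by norm_num)]; linarith
  have hq : 0 < 1 - 16 / (t : ℝ) := by linarith
  have hp0 : 0 < 16 / (t : ℝ) := by positivity
  set m := (16 / (t : ℝ)) ^ (n8F U (zr J)).card * (1 - 16 / (t : ℝ)) ^ L with hm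
  have hm0 : 0 < m := by positivity
  set S := ∑ z ∈ univ.filter (fun z : Fin (t * t) → Bool => ∀ c ∈ U, z c = zr J c),
      mu z * N z with hS
  have hS0 : 0 ≤ S := Finset.sum_nonneg (fun z _ => mul_nonneg (n8_mu_nonneg ht z) (hN z))
  by_cases hneg : N (zr J) - ε ≤ 0
  · have : 0 ≤ S * (1 / m) := by positivity
    linarith
  push Not at hneg
  set M := ∑ z ∈ univ.filter (fun z : Fin (t * t) → Bool => ∀ c ∈ U, z c = zr J c), mu z with hM
  have hmM : m ≤ M := by
    rw [hM, n8_marg]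
    exact n8_low ht U hU (zr J)
  have h2 : M * (N (zr J) - ε) ≤ S := by
    rw [hM, Finset.sum_mul, hS]
    apply Finset.sum_le_sum
    intro z hz
    simp only [Finset.mem_filter, Finset.mem_univ, true_and] at hz
    apply mul_le_mul_of_nonneg_left _ (n8_mu_nonneg ht z)
    have := (abs_le.1 (hNU z (zr J) hz)).1
    linarith
  have h3 : m * (N (zr J) - ε) ≤ S := le_trans (mul_le_mul_of_nonneg_right hmM hneg.le) h2
  have h4 : N (zr J) - ε ≤ S / m := by
    rw [le_div_iff₀ hm0]; linarith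
  have h5 : S / m = S * (1 / m) := by ring
  linarith

/-- A8: the inequality for one class -/
theorem mu_class {t L : ℕ} (ht : 32 ≤ t) (hL : 32 * L ≤ t * t) (N : (Fin (t * t) → Bool) → ℝ)
    (hN : ∀ z, 0 ≤ N z) (ε : ℝ) (hε : 0 ≤ ε) (U : Finset (Fin (t * t))) (hU : U.card ≤ L)
    (hNU : ∀ z z', (∀ j ∈ U, z j = z' j) → |N z - N z'| ≤ ε) :
    ∑ J : Fin t → Fin t, N (zr J) ≤ (2 / (t : ℝ)) * ∑ J : Fin t → Fin t, ∑ i, N (zo J i) +
      (t : ℝ) ^ t / 2 ^ t * ∑ z, mu z * N z + 3 * (t : ℝ) ^ t * ε := by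
  classical
  have htR : (32 : ℝ) ≤ t := by exact_mod_cast ht
  have ht0 : (0 : ℝ) < t := by linarith
  set w : (Fin t → Fin t) → ℝ := fun J =>
    1 / ((16 / (t : ℝ)) ^ (n8F U (zr J)).card * (1 - 16 / (t : ℝ)) ^ L) with hw
  have hkey : ∀ J : Fin t → Fin t, N (zr J) ≤ (2 / (t : ℝ)) * ∑ i, N (zo J i) +
      (if t < 2 * (n8F U (zr J)).card then
        (∑ z ∈ univ.filter (fun z : Fin (t * t) → Bool => ∀ c ∈ U, z c = zr J c),
          mu z * N z) * w J else 0) + ε := by
    intro J
    by_cases h : t < 2 * (n8F U (zr J)).card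
    · rw [if_pos h]
      have h1 := n8_atyp ht N hN ε U hU hNU J
      have h2 : 0 ≤ (2 / (t : ℝ)) * ∑ i, N (zo J i) :=
        mul_nonneg (by positivity) (Finset.sum_nonneg (fun i _ => hN _))
      simp only [hw]
      linarith
    · rw [if_neg h]
      have := n8_typ ht N hN ε hε U hNU J (by omega)
      linarith
  have hsum := Finset.sum_le_sum (fun J (_ : J ∈ (univ : Finset (Fin t → Fin t))) => hkey J)
  rw [Finset.sum_add_distrib, Finset.sum_add_distrib, ← Finset.mul_sum] at hsum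
  have hcardJ : ∑ _J : Fin t → Fin t, ε = (t : ℝ) ^ t * ε := by
    rw [Finset.sum_const, nsmul_eq_mul, Finset.card_univ, Fintype.card_fun, Fintype.card_fin]
    push_cast; ring
  have hmid : ∑ J : Fin t → Fin t, (if t < 2 * (n8F U (zr J)).card then
        (∑ z ∈ univ.filter (fun z : Fin (t * t) → Bool => ∀ c ∈ U, z c = zr J c),
          mu z * N z) * w J else 0) ≤ (t : ℝ) ^ t / 2 ^ t * ∑ z, mu z * N z := by
    have e1 : ∀ J : Fin t → Fin t, (if t < 2 * (n8F U (zr J)).card then
        (∑ z ∈ univ.filter (fun z : Fin (t * t) → Bool => ∀ c ∈ U, z c = zr J c),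
          mu z * N z) * w J else 0) =
        ∑ z, (if t < 2 * (n8F U (zr J)).card ∧ ∀ c ∈ U, z c = zr J c then
          mu z * N z * w J else 0) := by
      intro J
      by_cases h : t < 2 * (n8F U (zr J)).card
      · rw [if_pos h, Finset.sum_filter, Finset.sum_mul]
        apply Finset.sum_congr rfl
        intro z _
        by_cases h' : ∀ c ∈ U, z c = zr J c
        · rw [if_pos h', if_pos ⟨h, h'⟩]
        · rw [if_neg h', if_neg (fun hh => h' hh.2), zero_mul]
      · rw [if_neg h]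
        symm
        apply Finset.sum_eq_zero
        intro z _
        rw [if_neg (fun hh => h hh.1)]
    rw [Finset.sum_congr rfl (fun J _ => e1 J), Finset.sum_comm, Finset.mul_sum]
    apply Finset.sum_le_sum
    intro z _
    rw [← Finset.sum_filter, ← Finset.mul_sum, mul_comm]
    apply mul_le_mul_of_nonneg_right _ (mul_nonneg (n8_mu_nonneg ht z) (hN z))
    exact n8_sumJ ht hL U z
  have hε3 : (t : ℝ) ^ t * ε ≤ 3 * (t : ℝ) ^ t * ε := by
    have : 0 ≤ (t : ℝ) ^ t * ε := by positivity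
    nlinarith
  linarith

end Pool.Agent.H554R2.NC
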