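import Pool.Agent.H554R2.Rnd.Cover
import Pool.Agent.H554R2.NC.MuClass
import Pool.Agent.H554R2.NC.ClassPat
import Pool.Agent.H554R2.NC.LargePat
import Pool.Agent.H554R2.NC.Det

/-!
# A10 and A11 from the parts (authors helper123, helper677, helper489, helper956)
-/

set_option autoImplicit false

open Finset

namespace Pool.Agent.H554R2.NC

open Pool.Agent.H554R2.Sem Pool.Agent.H554R2.Coin Pool.Agent.H554R2.Lin Pool.Agent.H554R2.Rnd
open Pool.Agent.H554R2.Qua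

open Classical in
/-- A10: the union of the large classes -/
theorem large_pat {n r s G t Q L : ℕ} (hQ : 1 ≤ Q) (ht : 32 ≤ t) (htL : 32 * L ≤ t * t)
    (B : Blk n r s) (hB : AllRead B)
    (T : Fin r → Fin 3) (π : Fin (t * t) → Fin n → Fin G)
    (h : Fin (t * t) → Fin n → Fin n → Bool)
    (hker : ∀ A B' : Finset (Fin n), Disjoint A B' → n ≤ Q * A.card → n ≤ Q * B'.card →
      ∀ s : Finset (Fin (t * t)), ∀ j ∈ s, Bal (π j) A B' →
        (ker (coef π h s) A B').card * 2 ^ (min A.card B'.card / 2048) ≤ 2 ^ B'.card)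
    (hbal : ∀ A B' : Finset (Fin n), n ≤ Q * A.card → n ≤ Q * B'.card →
      Nat.card {j // ¬ Bal (π j) A B'} ≤ L) :
    ∑ J : Fin t → Fin t, (((B.K.filter (fun x => Lg Q B T x)) ∩ Pat π h (zr J)).card : ℝ) ≤
      (2 / (t : ℝ)) * ∑ J : Fin t → Fin t, ∑ i,
        (((B.K.filter (fun x => Lg Q B T x)) ∩ Pat π h (zo J i)).card : ℝ) +
      (t : ℝ) ^ t / 2 ^ t *
        ∑ z, mu z * ((B.K.filter (fun x => Lg Q B T x)) ∩ Pat π h z).card +
      6 * (t : ℝ) ^ t * ((B.K.filter (fun x => Lg Q B T x)).card / 2 ^ (n / (16384 * Q))) :=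
  large_pat_of mu_class ht htL B hB T π h
    (fun x hx hL => class_pat hQ B hB T x hx hL π h hker hbal)

open Classical in
/-- A11: deterministic programs -/
theorem nc_det (k : ℕ) (hk : 1 ≤ k) : ∃ Q r N : ℕ, 1 ≤ Q ∧ 1 ≤ r ∧ 1 ≤ N ∧ ∀ n ≥ N,
    ∀ {G t L : ℕ}, 32 ≤ t → 32 * L ≤ t * t →
    ∀ (π : Fin (t * t) → Fin n → Fin G) (h : Fin (t * t) → Fin n → Fin n → Bool),
    (∀ A B' : Finset (Fin n), Disjoint A B' → n ≤ Q * A.card → n ≤ Q * B'.card →
      ∀ s : Finset (Fin (t * t)), ∀ j ∈ s, Bal (π j) A B' →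
        (ker (coef π h s) A B').card * 2 ^ (min A.card B'.card / 2048) ≤ 2 ^ B'.card) →
    (∀ A B' : Finset (Fin n), n ≤ Q * A.card → n ≤ Q * B'.card →
      Nat.card {j // ¬ Bal (π j) A B'} ≤ L) →
    ∀ P : BP (Fin n) Bool,
      (∀ x, ∃ (l : List (Fin n)) (b : Bool), l.length ≤ k * n ∧ P.Comp x l b ∧ ∀ v, v ∈ l) →
      ∑ J : Fin t → Fin t, ((univ.filter (fun x => (∃ l, P.Comp x l false) ∧
          x ∈ Pat π h (zr J))).card : ℝ) ≤
        8 * ((k : ℝ) + 1) ^ 2 * ((2 / (t : ℝ)) * ∑ J : Fin t → Fin t, ∑ i,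
            ((univ.filter (fun x => (∃ l, P.Comp x l false) ∧ x ∈ Pat π h (zo J i))).card : ℝ) +
          (t : ℝ) ^ t / 2 ^ t * ∑ z, mu z * (Pat π h z).card +
          6 * (t : ℝ) ^ t * (2 ^ n / 2 ^ (n / (16384 * Q)))) +
        (Fintype.card P.State : ℝ) ^ (r + 1) * (2 ^ n / 2 ^ (n / N)) :=
  nc_det_of k hk (main_cover (k + 1) (by omega)) large_pat

end Pool.Agent.H554R2.NC
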