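import Mathlib
import Pool.Agent.H554R2.NC.Defs

/-!
# A7: several forms are computed in one pass
-/

set_option autoImplicit false

open Finset

namespace Pool.Agent.H554R2.NC

open Pool.Agent.H554R2.Sem Pool.Agent.H554R2.Coin Pool.Agent.H554R2.Lin Pool.Agent.H554R2.Rnd
open Pool.Agent.H554R2.Qua

section seq

variable {ι Y Z : Type}

/-- what is done in a node of one of the programs `Q b` -/
def N7_nodeQ {K S : Type} (Q : K → BP ι Z) (f : (Σ b : K, (Q b).State) → S) :
    (Σ b : K, (Q b).State) → (ι × (Bool → S)) ⊕ Z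
  | ⟨b, s⟩ => match (Q b).node s with
    | Sum.inl (j, nxt) => Sum.inl (j, fun c => f ⟨b, nxt c⟩)
    | Sum.inr o => Sum.inr o

/-- query `i` and continue with `Q b` -/
def N7_root (i : ι) (Q : Bool → BP ι Z) : BP ι Z where
  State := Option (Σ b : Bool, (Q b).State)
  start := none
  node := fun s => match s with
    | none => Sum.inl (i, fun b => some ⟨b, (Q b).start⟩)
    | some s => N7_nodeQ Q some s

theorem N7_root_walk (i : ι) (Q : Bool → BP ι Z) (x : ι → Bool) (b : Bool) (l : List ι)
    (s v : (Q b).State) (h : (Q b).Walk x s l v) :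
    (N7_root i Q).Walk x (some ⟨b, s⟩ : Option (Σ b : Bool, (Q b).State)) l
      (some ⟨b, v⟩ : Option (Σ b : Bool, (Q b).State)) := by
  induction l generalizing s with
  | nil =>
    have h1 : s = v := h
    subst h1
    exact rfl
  | cons j l ih =>
    obtain ⟨nxt, h1, h2⟩ := h
    refine ⟨fun c => some ⟨b, nxt c⟩, ?_, ih _ h2⟩
    show N7_nodeQ Q some ⟨b, s⟩ = _
    simp only [N7_nodeQ, h1]
    rfl

theorem N7_root_comp (i : ι) (Q : Bool → BP ι Z) (x : ι → Bool) (l : List ι) (o : Z)
    (h : (Q (x i)).Comp x l o) : (N7_root i Q).Comp x (i :: l) o := by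
  obtain ⟨v, hv, hn⟩ := h
  refine ⟨(some ⟨x i, v⟩ : Option (Σ b : Bool, (Q b).State)), ?_, ?_⟩
  · exact ⟨fun b => some ⟨b, (Q b).start⟩, rfl, N7_root_walk i Q x (x i) l _ _ hv⟩
  · show N7_nodeQ Q some ⟨x i, v⟩ = _
    simp only [N7_nodeQ, hn]
    rfl

/-- a node of the first program; if it is a sink with the output `b`, the start node of the
program `Q b` -/
def N7_emb (P : BP ι Y) (Q : Y → BP ι Z) (s : P.State) :
    P.State ⊕ (Σ b : Y, (Q b).State) :=
  match P.node s with
  | Sum.inr b => Sum.inr ⟨b, (Q b).start⟩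
  | Sum.inl _ => Sum.inl s

variable [Nonempty Z]

/-- what is done in a node -/
noncomputable def N7_node (P : BP ι Y) (Q : Y → BP ι Z) :
    P.State ⊕ (Σ b : Y, (Q b).State) →
      (ι × (Bool → P.State ⊕ (Σ b : Y, (Q b).State))) ⊕ Z
  | Sum.inl s => match P.node s with
    | Sum.inl (i, nxt) => Sum.inl (i, fun c => N7_emb P Q (nxt c))
    | Sum.inr _ => Sum.inr (Classical.arbitrary Z)
  | Sum.inr s => N7_nodeQ Q Sum.inr s

/-- first `P` and then, if the output is `b`, `Q b` -/
noncomputable def N7_seq [Fintype Y] (P : BP ι Y) (Q : Y → BP ι Z) : BP ι Z where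
  State := P.State ⊕ (Σ b : Y, (Q b).State)
  start := N7_emb P Q P.start
  node := N7_node P Q

omit [Nonempty Z] in
theorem N7_walk_append (P : BP ι Z) (x : ι → Bool) (l l' : List ι) (s v w : P.State)
    (h : P.Walk x s l v) (h' : P.Walk x v l' w) : P.Walk x s (l ++ l') w := by
  induction l generalizing s with
  | nil =>
    have h1 : s = v := h
    subst h1
    exact h'
  | cons j l ih =>
    obtain ⟨nxt, h1, h2⟩ := h
    exact ⟨nxt, h1, ih _ h2⟩

theorem N7_walk_left [Fintype Y] (P : BP ι Y) (Q : Y → BP ι Z) (x : ι → Bool) (l : List ι)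
    (s v : P.State) (h : P.Walk x s l v) :
    (N7_seq P Q).Walk x (N7_emb P Q s) l (N7_emb P Q v) := by
  induction l generalizing s with
  | nil =>
    have h1 : s = v := h
    subst h1
    exact rfl
  | cons j l ih =>
    obtain ⟨nxt, h1, h2⟩ := h
    refine ⟨fun c => N7_emb P Q (nxt c), ?_, ih _ h2⟩
    have e : N7_emb P Q s = Sum.inl s := by simp only [N7_emb, h1]
    rw [e]
    show N7_node P Q (Sum.inl s) = _
    simp only [N7_node, h1]
    rfl

theorem N7_walk_right [Fintype Y] (P : BP ι Y) (Q : Y → BP ι Z) (x : ι → Bool) (b : Y)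
    (l : List ι) (s v : (Q b).State) (h : (Q b).Walk x s l v) :
    (N7_seq P Q).Walk x (Sum.inr ⟨b, s⟩ : P.State ⊕ (Σ b : Y, (Q b).State)) l
      (Sum.inr ⟨b, v⟩ : P.State ⊕ (Σ b : Y, (Q b).State)) := by
  induction l generalizing s with
  | nil =>
    have h1 : s = v := h
    subst h1
    exact rfl
  | cons j l ih =>
    obtain ⟨nxt, h1, h2⟩ := h
    refine ⟨fun c => Sum.inr ⟨b, nxt c⟩, ?_, ih _ h2⟩
    show N7_nodeQ Q Sum.inr ⟨b, s⟩ = _
    simp only [N7_nodeQ, h1]
    rfl

theorem N7_seq_comp [Fintype Y] (P : BP ι Y) (Q : Y → BP ι Z) (x : ι → Bool) (l l' : List ι)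
    (b : Y) (o : Z) (h : P.Comp x l b) (h' : (Q b).Comp x l' o) :
    (N7_seq P Q).Comp x (l ++ l') o := by
  obtain ⟨v, hv, hn⟩ := h
  obtain ⟨w, hw, hm⟩ := h'
  have h1 := N7_walk_left P Q x l _ _ hv
  have e : N7_emb P Q v = Sum.inr ⟨b, (Q b).start⟩ := by simp only [N7_emb, hn]
  rw [e] at h1
  refine ⟨(Sum.inr ⟨b, w⟩ : P.State ⊕ (Σ b : Y, (Q b).State)),
    N7_walk_append _ x l l' _ _ _ h1 (N7_walk_right P Q x b l' _ _ hw), ?_⟩
  show N7_nodeQ Q Sum.inr ⟨b, w⟩ = _
  simp only [N7_nodeQ, hm]
  rfl

/-- change of the outputs -/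
def N7_out (P : BP ι Y) (f : Y → Z) : BP ι Z where
  State := P.State
  start := P.start
  node := fun s => match P.node s with
    | Sum.inl a => Sum.inl a
    | Sum.inr o => Sum.inr (f o)

omit [Nonempty Z] in
theorem N7_out_comp (P : BP ι Y) (f : Y → Z) (x : ι → Bool) (l : List ι) (o : Y)
    (h : P.Comp x l o) : (N7_out P f).Comp x l (f o) := by
  have key : ∀ (l : List ι) (s v : P.State), P.Walk x s l v → (N7_out P f).Walk x s l v := by
    intro l
    induction l with
    | nil => exact fun s v h => h
    | cons j l ih =>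
      rintro s v ⟨nxt, h1, h2⟩
      refine ⟨nxt, ?_, ih _ _ h2⟩
      show (match P.node s with
        | Sum.inl a => Sum.inl a
        | Sum.inr o => Sum.inr (f o)) = _
      rw [h1]
      rfl
  obtain ⟨v, hv, hn⟩ := h
  refine ⟨v, key l _ _ hv, ?_⟩
  show (match P.node v with
    | Sum.inl a => Sum.inl a
    | Sum.inr o => Sum.inr (f o)) = _
  rw [hn]
  rfl

end seq

/-- decision trees -/
theorem N7_tree {n : ℕ} {Z : Type} (l : List (Fin n)) (φ : Pt n → Z)
    (hφ : ∀ x y : Pt n, (∀ i ∈ l, x i = y i) → φ x = φ y) :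
    ∃ U : BP (Fin n) Z, Fintype.card U.State + 1 ≤ 2 * 2 ^ l.length ∧
      ∀ x : Pt n, U.Comp x l (φ x) := by
  induction l generalizing φ with
  | nil =>
    refine ⟨⟨Unit, (), fun _ => Sum.inr (φ fun _ => false)⟩, by simp, fun x => ⟨(), rfl, ?_⟩⟩
    rw [hφ x (fun _ => false) (by simp)]
  | cons i l ih =>
    have h1 : ∀ b : Bool, ∃ U : BP (Fin n) Z, Fintype.card U.State + 1 ≤ 2 * 2 ^ l.length ∧
        ∀ x : Pt n, U.Comp x l (φ (Function.update x i b)) := by
      intro b
      apply ih (fun x => φ (Function.update x i b))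
      intro x y hxy
      apply hφ
      intro j hj
      by_cases hji : j = i
      · subst hji
        simp
      · rw [Function.update_of_ne hji, Function.update_of_ne hji]
        apply hxy
        rcases List.mem_cons.mp hj with h | h
        · exact absurd h hji
        · exact h
    choose Q hQ1 hQ2 using h1
    refine ⟨N7_root i Q, ?_, fun x => ?_⟩
    · have e : Fintype.card (N7_root i Q).State =
          Fintype.card (Option (Σ b : Bool, (Q b).State)) :=
        Fintype.card_congr (Equiv.refl _)
      rw [e, Fintype.card_option, Fintype.card_sigma, Fintype.sum_bool, List.length_cons, pow_succ]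
      have := hQ1 true
      have := hQ1 false
      omega
    · apply N7_root_comp
      have := hQ2 (x i) x
      rwa [Function.update_eq_self] at this

/-- the part of the form given by the blocks in `S` -/
def N7_part {n G M : ℕ} (β : Fin n → Fin M) (π : Fin n → Fin G) (h : Fin n → Fin n → Bool)
    (S : Finset (Fin M)) (x : Pt n) : Finset (Fin n × Fin n) :=
  univ.filter (fun p : Fin n × Fin n =>
    β p.1 ∈ S ∧ π p.1 = π p.2 ∧ h p.1 p.2 = true ∧ x p.1 = true ∧ x p.2 = true)

theorem N7_odd (a b : ℕ) : decide (Odd (a + b)) = xor (decide (Odd a)) (decide (Odd b)) := by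
  by_cases h1 : Odd a <;> by_cases h2 : Odd b <;>
    simp [Nat.odd_add, h1, h2, Nat.not_even_iff_odd.mpr, ← Nat.not_odd_iff_even]

theorem N7_ind {n G D M : ℕ} (π : Fin D → Fin n → Fin G) (h : Fin D → Fin n → Fin n → Bool)
    (T : Finset (Fin D)) (β : Fin n → Fin M)
    (hβ : ∀ i ∈ T, ∀ u v, π i u = π i v → β u = β v) (S : Finset (Fin M)) :
    ∃ (U : BP (Fin n) ({i // i ∈ T} → Bool)) (l : List (Fin n)),
      Fintype.card U.State ≤
        2 ^ T.card * (2 * ∑ g ∈ S, 2 ^ (univ.filter (fun v => β v = g)).card) + 1 ∧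
      l.Nodup ∧ (∀ v ∈ l, β v ∈ S) ∧
      ∀ x : Pt n, U.Comp x l (fun i => decide (Odd (N7_part β (π i.1) (h i.1) S x).card)) := by
  induction S using Finset.induction_on with
  | empty =>
    refine ⟨⟨Unit, (), fun _ => Sum.inr fun _ => false⟩, [], by simp, List.nodup_nil, by simp,
      fun x => ⟨(), rfl, ?_⟩⟩
    simp [N7_part]
  | insert g S hg ih =>
    obtain ⟨P, l, hP, hl, hlS, hc⟩ := ih
    set l' := (univ.filter (fun v => β v = g)).toList with hl'
    have hmem : ∀ v, v ∈ l' ↔ β v = g := fun v => by simp [hl']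
    have hlen : l'.length = (univ.filter (fun v => β v = g)).card := by simp [hl']
    have htree : ∀ b : {i // i ∈ T} → Bool, ∃ U : BP (Fin n) ({i // i ∈ T} → Bool),
        Fintype.card U.State + 1 ≤ 2 * 2 ^ l'.length ∧ ∀ x : Pt n, U.Comp x l'
          (fun i => xor (b i) (decide (Odd (N7_part β (π i.1) (h i.1) {g} x).card))) := by
      intro b
      apply N7_tree l' (fun x => fun i : {i // i ∈ T} =>
        xor (b i) (decide (Odd (N7_part β (π i.1) (h i.1) {g} x).card)))
      intro x y hxy
      funext i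
      have e : N7_part β (π i.1) (h i.1) {g} x = N7_part β (π i.1) (h i.1) {g} y := by
        unfold N7_part
        apply Finset.filter_congr
        rintro ⟨u, v⟩ -
        simp only [Finset.mem_singleton]
        constructor
        · rintro ⟨h1, h2, h3, h4, h5⟩
          refine ⟨h1, h2, h3, ?_, ?_⟩
          · rw [← hxy u ((hmem u).mpr h1)]
            exact h4
          · rw [← hxy v ((hmem v).mpr ((hβ i.1 i.2 u v h2) ▸ h1))]
            exact h5
        · rintro ⟨h1, h2, h3, h4, h5⟩
          refine ⟨h1, h2, h3, ?_, ?_⟩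
          · rw [hxy u ((hmem u).mpr h1)]
            exact h4
          · rw [hxy v ((hmem v).mpr ((hβ i.1 i.2 u v h2) ▸ h1))]
            exact h5
      simp only [e]
    choose Q hQ1 hQ2 using htree
    refine ⟨N7_seq P Q, l ++ l', ?_, ?_, ?_, fun x => ?_⟩
    · have e : Fintype.card (N7_seq P Q).State =
          Fintype.card (P.State ⊕ (Σ b : {i // i ∈ T} → Bool, (Q b).State)) :=
        Fintype.card_congr (Equiv.refl _)
      have h1 : ∑ b : {i // i ∈ T} → Bool, Fintype.card (Q b).State ≤
          2 ^ T.card * (2 * 2 ^ (univ.filter (fun v => β v = g)).card) := by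
        calc ∑ b : {i // i ∈ T} → Bool, Fintype.card (Q b).State
            ≤ ∑ _b : {i // i ∈ T} → Bool, 2 * 2 ^ (univ.filter (fun v => β v = g)).card := by
              apply Finset.sum_le_sum
              intro b _
              have := hQ1 b
              rw [hlen] at this
              omega
          _ = 2 ^ T.card * (2 * 2 ^ (univ.filter (fun v => β v = g)).card) := by
              rw [Finset.sum_const, smul_eq_mul, Finset.card_univ]
              congr 1
              simp
      rw [e, Fintype.card_sum, Fintype.card_sigma, Finset.sum_insert hg, mul_add, mul_add]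
      omega
    · rw [List.nodup_append]
      refine ⟨hl, Finset.nodup_toList _, ?_⟩
      intro a ha b hb hab
      subst hab
      apply hg
      rw [← (hmem a).mp hb]
      exact hlS a ha
    · intro v hv
      rw [List.mem_append] at hv
      rcases hv with hv | hv
      · exact Finset.mem_insert_of_mem (hlS v hv)
      · rw [(hmem v).mp hv]
        exact Finset.mem_insert_self _ _
    · have h1 := N7_seq_comp P Q x l l' _ _ (hc x) (hQ2 _ x)
      have key : (fun i : {i // i ∈ T} =>
          decide (Odd (N7_part β (π i.1) (h i.1) (insert g S) x).card)) =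
          fun i => xor (decide (Odd (N7_part β (π i.1) (h i.1) S x).card))
            (decide (Odd (N7_part β (π i.1) (h i.1) {g} x).card)) := by
        funext i
        have e : N7_part β (π i.1) (h i.1) (insert g S) x =
            N7_part β (π i.1) (h i.1) S x ∪ N7_part β (π i.1) (h i.1) {g} x := by
          ext p
          simp only [N7_part, Finset.mem_union, Finset.mem_filter, Finset.mem_univ, true_and,
            Finset.mem_insert, Finset.mem_singleton]
          tauto
        have hd : Disjoint (N7_part β (π i.1) (h i.1) S x) (N7_part β (π i.1) (h i.1) {g} x) := by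
          rw [Finset.disjoint_left]
          intro p hp hp'
          simp only [N7_part, Finset.mem_filter, Finset.mem_univ, true_and,
            Finset.mem_singleton] at hp hp'
          apply hg
          rw [← hp'.1]
          exact hp.1
        rw [e, Finset.card_union_of_disjoint hd, N7_odd]
      rw [key]
      exact h1

/-- A7: several forms are computed in one pass -/
theorem joint_program {n G D M : ℕ} (π : Fin D → Fin n → Fin G) (h : Fin D → Fin n → Fin n → Bool)
    (T : Finset (Fin D)) (z : Fin D → Bool) (β : Fin n → Fin M)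
    (hβ : ∀ i ∈ T, ∀ u v, π i u = π i v → β u = β v) :
    ∃ (U : BP (Fin n) Bool) (l : List (Fin n)),
      Fintype.card U.State ≤
        2 ^ (T.card + 3) * (∑ b, 2 ^ (univ.filter (fun v => β v = b)).card + 1) ∧ l.Nodup ∧
      ∀ x : Pt n, U.Comp x l (decide (∀ i ∈ T, qr (π i) (h i) x = z i)) := by
  obtain ⟨U, l, h1, h2, -, h4⟩ := N7_ind π h T β hβ univ
  refine ⟨N7_out U (fun w => decide (∀ i : {i // i ∈ T}, w i = z i.1)), l, ?_, h2, fun x => ?_⟩
  · have e : Fintype.card (N7_out U (fun w => decide (∀ i : {i // i ∈ T}, w i = z i.1))).State =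
        Fintype.card U.State := Fintype.card_congr (Equiv.refl _)
    rw [e]
    refine h1.trans ?_
    have h5 : 1 ≤ 2 ^ T.card := Nat.one_le_two_pow
    rw [pow_add]
    nlinarith [Nat.zero_le (2 ^ T.card * ∑ b, 2 ^ (univ.filter (fun v => β v = b)).card)]
  · have h5 := N7_out_comp U (fun w => decide (∀ i : {i // i ∈ T}, w i = z i.1)) x l _ (h4 x)
    have e : decide (∀ i ∈ T, qr (π i) (h i) x = z i) = decide (∀ i : {i // i ∈ T},
        decide (Odd (N7_part β (π i.1) (h i.1) univ x).card) = z i.1) := by
      have e1 : ∀ i, qr (π i) (h i) x = decide (Odd (N7_part β (π i) (h i) univ x).card) := by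
        intro i
        unfold qr N7_part
        simp only [Finset.mem_univ, true_and]
      simp only [e1, Subtype.forall]
    rw [e]
    exact h5

end Pool.Agent.H554R2.NC
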