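import Pool.Agent.H554R2.Rnd.Final
import Pool.Agent.H554R2.Qua.Count
import Pool.Agent.H554R2.RK.RectChi
import Pool.Agent.H554R2.NC.AlgGroups
import Pool.Agent.H554R2.NC.CoefsGen
import Pool.Agent.H554R2.NC.Joint
import Pool.Agent.H554R2.NC.Glued

/-!
# Nondeterminism on both sides against randomised programs of length `k n`
-/

set_option autoImplicit false

open Finset

namespace Pool.Agent.H554R2.NC

open Pool.Agent.H554R2.Sem Pool.Agent.H554R2.Coin Pool.Agent.H554R2.Lin Pool.Agent.H554R2.Rnd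
open Pool.Agent.H554R2.Qua

/-! ### the function -/

theorem ao_zr {n G t : ℕ} {π : Fin (t * t) → Fin n → Fin G} {h : Fin (t * t) → Fin n → Fin n → Bool}
    {J : Fin t → Fin t} {x : Pt n} (hx : x ∈ Pat π h (zr J)) : ao π h x = false := by
  have h1 : ∀ c, qr (π c) (h c) x = zr J c := (mem_filter.1 hx).2
  rw [ao, decide_eq_false_iff_not]
  rintro ⟨i, hi⟩
  have h2 := hi (J i)
  rw [h1, zr] at h2
  simp at h2

theorem ao_zo {n G t : ℕ} {π : Fin (t * t) → Fin n → Fin G} {h : Fin (t * t) → Fin n → Fin n → Bool}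
    {J : Fin t → Fin t} {i : Fin t} {x : Pt n} (hx : x ∈ Pat π h (zo J i)) : ao π h x = true := by
  have h1 : ∀ c, qr (π c) (h c) x = zo J i c := (mem_filter.1 hx).2
  rw [ao, decide_eq_true_iff]
  refine ⟨i, fun j => ?_⟩
  rw [h1, zo]
  simp

theorem sum_mu {t : ℕ} : ∑ z : Fin (t * t) → Bool, mu z = 1 := by
  have h1 := Finset.prod_univ_sum (t := fun _ : Fin (t * t) => (univ : Finset Bool))
    (f := fun (_ : Fin (t * t)) (b : Bool) => (if b = true then 1 - 16 / (t : ℝ) else 16 / (t : ℝ)))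
  rw [Fintype.piFinset_univ] at h1
  have h2 : ∀ c : Fin (t * t), ∑ b : Bool, (if b = true then 1 - 16 / (t : ℝ) else 16 / (t : ℝ)) =
      1 := by
    intro c
    rw [Fintype.sum_bool]
    simp
  rw [Finset.prod_congr rfl (fun c _ => h2 c), Finset.prod_const_one] at h1
  exact h1.symm

theorem mu_nonneg {t : ℕ} (ht : 32 ≤ t) (z : Fin (t * t) → Bool) : 0 ≤ mu z := by
  have ht' : (32 : ℝ) ≤ t := by exact_mod_cast ht
  refine Finset.prod_nonneg fun c _ => ?_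
  have h1 : 16 / (t : ℝ) ≤ 1 := by
    rw [div_le_one (by linarith)]; linarith
  split_ifs
  · linarith
  · positivity

/-! ### sizes -/

theorem log_pow (e n : ℕ) (he : 1 ≤ e) (hn : 1 ≤ n) : (Nat.log 2 n) ^ e ≤ e ^ e * n := by
  obtain ⟨l, hl⟩ : ∃ l, l = Nat.log 2 n := ⟨_, rfl⟩
  rw [← hl]
  have h1 : l < e * (l / e + 1) := Nat.lt_mul_div_succ l (by omega)
  have h2 : l / e + 1 ≤ 2 ^ (l / e) := Nat.lt_two_pow_self
  have h3 : l ≤ e * 2 ^ (l / e) := h1.le.trans (Nat.mul_le_mul_left _ h2)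
  calc l ^ e ≤ (e * 2 ^ (l / e)) ^ e := Nat.pow_le_pow_left h3 _
    _ = e ^ e * 2 ^ (l / e * e) := by rw [mul_pow, ← pow_mul]
    _ ≤ e ^ e * 2 ^ l := Nat.mul_le_mul_left _
        (Nat.pow_le_pow_right (by norm_num) (Nat.div_mul_le_self l e))
    _ ≤ e ^ e * n := Nat.mul_le_mul_left _ (by rw [hl]; exact Nat.pow_log_le_self 2 (by omega))

theorem three_pow (a b c e : ℕ) : (a + b + c) ^ e ≤ 3 ^ e * (a ^ e + b ^ e + c ^ e) := by
  obtain ⟨m, hm⟩ : ∃ m, m = max a (max b c) := ⟨_, rfl⟩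
  have h1 : a + b + c ≤ 3 * m := by omega
  refine (Nat.pow_le_pow_left h1 e).trans ?_
  rw [mul_pow]
  apply Nat.mul_le_mul_left
  rcases (by omega : m = a ∨ m = b ∨ m = c) with h | h | h <;> rw [h] <;> omega

/-- the number `s` -/
theorem exists_s (e D n : ℕ) (he : 1 ≤ e) : ∃ s : ℕ, s ^ e ≤ D * n ∧ ∀ w, w ^ e ≤ D * n → w ≤ s := by
  classical
  refine ⟨Nat.findGreatest (fun s => s ^ e ≤ D * n) (D * n), ?_, fun w hw => ?_⟩
  · have := Nat.findGreatest_spec (P := fun s => s ^ e ≤ D * n) (m := 0) (n := D * n)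
      (Nat.zero_le _) (by show 0 ^ e ≤ D * n; rw [zero_pow (by omega)]; exact Nat.zero_le _)
    exact this
  · apply Nat.le_findGreatest
    · exact (Nat.le_self_pow (by omega) w).trans hw
    · exact hw

/-- the programs -/
theorem one_program {n G t C e D s : ℕ} (he : 1 ≤ e) (hn : 1 ≤ n)
    (π : Fin (t * t) → Fin n → Fin G) (h : Fin (t * t) → Fin n → Fin n → Bool)
    (hπ : ∀ T : Finset (Fin (t * t)), T.card ≤ t → ∃ (M w : ℕ) (β : Fin n → Fin M), M ≤ n ∧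
        (∀ i ∈ T, ∀ u v, π i u = π i v → β u = β v) ∧
        (∀ b, (univ.filter (fun v => β v = b)).card ≤ w) ∧ w ^ e ≤ C * n)
    (hD : 3 ^ e * ((t + 4) ^ e + e ^ e + C) ≤ D) (hs : ∀ w, w ^ e ≤ D * n → w ≤ s)
    (T : Finset (Fin (t * t))) (hT : T.card ≤ t) (z : Fin (t * t) → Bool) :
    ∃ (U : BP (Fin n) Bool) (l : List (Fin n)), Fintype.card U.State ≤ 2 ^ s ∧ l.Nodup ∧
      ∀ x : Pt n, U.Comp x l (decide (∀ i ∈ T, qr (π i) (h i) x = z i)) := by
  obtain ⟨M, w, β, hM, hβ, hw, hwe⟩ := hπ T hT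
  obtain ⟨U, l, h1, h2, h3⟩ := joint_program π h T z β hβ
  refine ⟨U, l, h1.trans ?_, h2, h3⟩
  have h4 : ∑ b, 2 ^ (univ.filter (fun v => β v = b)).card ≤ n * 2 ^ w := by
    calc ∑ b, 2 ^ (univ.filter (fun v => β v = b)).card ≤ ∑ _b : Fin M, 2 ^ w :=
          Finset.sum_le_sum fun b _ => Nat.pow_le_pow_right (by norm_num) (hw b)
      _ = M * 2 ^ w := by simp
      _ ≤ n * 2 ^ w := Nat.mul_le_mul_right _ hM
  have h5 : ∑ b, 2 ^ (univ.filter (fun v => β v = b)).card + 1 ≤ 2 ^ (Nat.log 2 n + 1) * 2 ^ w := by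
    have h6 : n + 1 ≤ 2 ^ (Nat.log 2 n + 1) := Nat.lt_pow_succ_log_self (by norm_num) n
    have h7 : 1 ≤ 2 ^ w := Nat.one_le_two_pow
    calc _ ≤ n * 2 ^ w + 2 ^ w := by omega
      _ = (n + 1) * 2 ^ w := by ring
      _ ≤ _ := Nat.mul_le_mul_right _ h6
  calc 2 ^ (T.card + 3) * (∑ b, 2 ^ (univ.filter (fun v => β v = b)).card + 1) ≤
        2 ^ (t + 3) * (2 ^ (Nat.log 2 n + 1) * 2 ^ w) :=
        Nat.mul_le_mul (Nat.pow_le_pow_right (by norm_num) (by omega)) h5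
    _ = 2 ^ ((t + 4) + Nat.log 2 n + w) := by
        rw [← pow_add, ← pow_add]; congr 1; ring
    _ ≤ 2 ^ s := by
        apply Nat.pow_le_pow_right (by norm_num)
        apply hs
        refine (three_pow _ _ _ e).trans ?_
        have h8 := log_pow e n he hn
        have h9 : (t + 4) ^ e ≤ (t + 4) ^ e * n := Nat.le_mul_of_pos_right _ hn
        calc 3 ^ e * ((t + 4) ^ e + (Nat.log 2 n) ^ e + w ^ e) ≤
              3 ^ e * ((t + 4) ^ e * n + e ^ e * n + C * n) :=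
              Nat.mul_le_mul_left _ (by omega)
          _ = 3 ^ e * ((t + 4) ^ e + e ^ e + C) * n := by ring
          _ ≤ D * n := Nat.mul_le_mul_right _ hD

/-- both sides of the function -/
theorem two_sides {n G t D s : ℕ} (π : Fin (t * t) → Fin n → Fin G)
    (h : Fin (t * t) → Fin n → Fin n → Bool) (ht : 1 ≤ t) (hD : t ^ t ≤ D)
    (hprog : ∀ T : Finset (Fin (t * t)), T.card ≤ t → ∀ z : Fin (t * t) → Bool,
      ∃ (U : BP (Fin n) Bool) (l : List (Fin n)), Fintype.card U.State ≤ 2 ^ s ∧ l.Nodup ∧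
        ∀ x : Pt n, U.Comp x l (decide (∀ i ∈ T, qr (π i) (h i) x = z i))) (b : Bool) :
    ∃ (m : ℕ) (q : Fin m → Pt n → Bool), m ≤ D ∧
      (∀ x, ao π h x = b ↔ ∃ j, q j x = true) ∧
      ∀ j, ∃ (U : BP (Fin n) Bool) (l : List (Fin n)), Fintype.card U.State ≤ 2 ^ s ∧ l.Nodup ∧
        ∀ x : Pt n, U.Comp x l (q j x) := by
  cases b with
  | true =>
    refine ⟨t, fun i x => decide (∀ c ∈ univ.image (fun j : Fin t => finProdFinEquiv (i, j)),
      qr (π c) (h c) x = true), (Nat.le_self_pow (by omega) t).trans hD, fun x => ?_, fun i => ?_⟩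
    · rw [ao, decide_eq_true_iff]
      apply exists_congr
      intro i
      rw [decide_eq_true_iff]
      constructor
      · intro h1 c hc
        obtain ⟨j, -, rfl⟩ := mem_image.1 hc
        exact h1 j
      · intro h1 j
        exact h1 _ (mem_image.2 ⟨j, mem_univ _, rfl⟩)
    · exact hprog _ (card_image_le.trans (by simp)) (fun _ => true)
  | false =>
    obtain ⟨E⟩ : Nonempty ((Fin t → Fin t) ≃ Fin (t ^ t)) :=
      ⟨Fintype.equivFinOfCardEq (by simp)⟩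
    refine ⟨t ^ t, fun a x => decide (∀ c ∈ univ.image
      (fun i : Fin t => finProdFinEquiv (i, (E.symm a) i)),
      qr (π c) (h c) x = false), hD, fun x => ?_, fun i => ?_⟩
    · rw [ao, decide_eq_false_iff_not]
      push Not
      constructor
      · intro h1
        choose J hJ using h1
        refine ⟨E J, ?_⟩
        rw [decide_eq_true_iff]
        intro c hc
        obtain ⟨i, -, rfl⟩ := mem_image.1 hc
        rw [Equiv.symm_apply_apply]
        simpa using hJ i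
      · rintro ⟨a, ha⟩ i
        rw [decide_eq_true_iff] at ha
        refine ⟨E.symm a i, ?_⟩
        rw [ha _ (mem_image.2 ⟨i, mem_univ _, rfl⟩)]
        simp
    · exact hprog _ (card_image_le.trans (by simp)) (fun _ => false)

/-- the final inequality -/
theorem nc_contra (V T0 a b M e X Y Z : ℝ) (hV : 0 < V) (hT : 0 < T0) (hM : 1 ≤ M)
    (hMe : M * e ≤ 1 / 24) (ha : 0 ≤ a) (hab : a + b ≤ 5 / 2 * e * (V * T0))
    (h : 3 / 4 * (V * T0) - a ≤ M * (2 * b + X + Y) + Z)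
    (hX : M * X ≤ V * T0 / 32) (hY : M * Y ≤ V * T0 / 32) (hZ : Z ≤ V * T0 / 32) : False := by
  have hVT : 0 < V * T0 := mul_pos hV hT
  have h1 : M * (2 * b) + a ≤ 2 * M * (a + b) := by nlinarith
  have h2 : 2 * M * (a + b) ≤ 2 * M * (5 / 2 * e * (V * T0)) :=
    mul_le_mul_of_nonneg_left hab (by linarith)
  have h3 : 2 * M * (5 / 2 * e * (V * T0)) = 5 * (M * e) * (V * T0) := by ring
  have h4 : 5 * (M * e) * (V * T0) ≤ 5 * (1 / 24) * (V * T0) :=
    mul_le_mul_of_nonneg_right (by linarith) hVT.le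
  nlinarith

theorem nc_final (k e : ℕ) (he : 1 ≤ e) : ∃ D : ℕ, 0 < D ∧ ∀ n ≥ D,
    ∃ (f : Pt n → Bool) (s : ℕ), s ^ e ≤ D * n ∧
    (∀ b : Bool, ∃ (m : ℕ) (q : Fin m → Pt n → Bool), m ≤ D ∧
      (∀ x, f x = b ↔ ∃ j, q j x = true) ∧
      ∀ j, ∃ (U : BP (Fin n) Bool) (l : List (Fin n)), Fintype.card U.State ≤ 2 ^ s ∧ l.Nodup ∧
        ∀ x : Pt n, U.Comp x l (q j x)) ∧
    ∀ (Ω : Type) [Fintype Ω] [Nonempty Ω] (P : Ω → BP (Fin n) Bool),
      (∀ ω, Fintype.card (P ω).State < 2 ^ (n / D)) →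
      ∃ x, 3 * Nat.card {ω // ∃ l, (P ω).Comp x l (f x) ∧ l.length ≤ k * n} <
        2 * Nat.card Ω := by
  classical
  obtain ⟨ta, ht1, ht2⟩ := exists_trials k
  obtain ⟨K, hK⟩ : ∃ K : ℕ, K = ta * k + 1 := ⟨_, rfl⟩
  have hK1 : 1 ≤ K := by omega
  obtain ⟨Q, r, N, hQ, hr, hN, hdet⟩ := nc_det K hK1
  obtain ⟨M, hM⟩ : ∃ M : ℕ, M = 8 * (K + 1) ^ 2 := ⟨_, rfl⟩
  obtain ⟨t, ht⟩ : ∃ t : ℕ, t = 2048 * e * (Q + 4) + M + 40 := ⟨_, rfl⟩
  obtain ⟨L, hL⟩ : ∃ L : ℕ, L = 64 * (e * t) * (Q + 4) := ⟨_, rfl⟩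
  have hLt : 32 * L ≤ t * t := by
    have h1 : 2048 * e * (Q + 4) ≤ t := by omega
    calc 32 * L = (2048 * e * (Q + 4)) * t := by rw [hL]; ring
      _ ≤ t * t := Nat.mul_le_mul_right _ h1
  have ht32 : 32 ≤ t := by omega
  obtain ⟨W1, N2, hW1, hcoefs⟩ := coefs_gen (Q + 4) (t * t) (by omega)
  obtain ⟨N1, C, hN1⟩ := alg_groups (Q + 4) e t W1 (by omega) he (by omega)
  obtain ⟨c1, hc1⟩ : ∃ c1 : ℕ, c1 = 2 * N * (r + 1) := ⟨_, rfl⟩
  have hc1' : 1 ≤ c1 := by rw [hc1]; exact Nat.one_le_iff_ne_zero.2 (by positivity)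
  obtain ⟨N3, hN3⟩ := exp_large (2 * c1) (by omega) (4 ^ (ta + 1) * (k + 4))
  obtain ⟨N4, hN4⟩ := exp_large (2 * N) (by omega) (32 * 2 ^ (t * t))
  obtain ⟨N5, hN5⟩ := exp_large 32768 (by norm_num) (2 ^ (t * t + 2))
  obtain ⟨N6, hN6⟩ := exp_large (16384 * Q) (by omega) (192 * M * 2 ^ (t * t))
  obtain ⟨D, hD⟩ : ∃ D : ℕ, D = 3 ^ e * ((t + 4) ^ e + e ^ e + C) + t ^ t + N + N1 + N2 + N3 + N4 +
    N5 + N6 + 2 * c1 + (Q + 2) * 4 := ⟨_, rfl⟩
  refine ⟨D, by omega, fun n hn => ?_⟩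
  have hn0 : 1 ≤ n := by omega
  obtain ⟨G, π, hG, hWG, hbal, ⟨A0, B0, hdisj, hA0, hB0, hbal0⟩, hblocks⟩ := hN1 n (by omega)
  obtain ⟨h, hh⟩ := hcoefs n (by omega) G hG hWG π
  obtain ⟨s, hs1, hs2⟩ := exists_s e D n he
  refine ⟨ao π h, s, hs1, ?_, ?_⟩
  · exact two_sides π h (by omega) (by omega)
      (fun T hT z => one_program he hn0 π h hblocks (by omega) hs2 T hT z)
  -- the lower bound
  intro Ω _ _ P hP
  by_contra hcon
  push Not at hcon
  have hker : ∀ A B' : Finset (Fin n), Disjoint A B' → n ≤ (Q + 4) * A.card →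
      n ≤ (Q + 4) * B'.card → ∀ s : Finset (Fin (t * t)), ∀ j ∈ s, Bal (π j) A B' →
        (ker (coef π h s) A B').card * 2 ^ (min A.card B'.card / 2048) ≤ 2 ^ B'.card := hh
  have hQ2 : ∀ a : ℕ, n ≤ Q * a → n ≤ (Q + 4) * a := fun a ha => ha.trans (by nlinarith)
  have h4Q : ∀ a : ℕ, n ≤ 4 * a → n ≤ (Q + 4) * a := fun a ha => ha.trans (by nlinarith)
  obtain ⟨c0, hc0⟩ : ∃ c0 : ℝ, c0 = (2 : ℝ) ^ n / 2 ^ (n / 32768) := ⟨_, rfl⟩
  have hc00 : 0 ≤ c0 := by rw [hc0]; positivity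
  have hsmall : ∀ s : Finset (Fin (t * t)), s.Nonempty →
      (|∑ x : Pt n, chi π h s x| : ℤ) ≤ c0 := by
    intro s hs
    obtain ⟨j, hj⟩ := hs
    have h1 := RK.rect_chi (Q := 4) (by norm_num) (univ : Finset (Pt n)) A0 B0 hdisj hA0 hB0
      (fun _ => True) (fun _ => True) (fun _ _ _ => Iff.rfl) (fun _ _ _ => Iff.rfl) (by simp)
      π h s (hker A0 B0 hdisj (h4Q _ hA0) (h4Q _ hB0) s j hj (hbal0 j))
    rw [hc0, le_div_iff₀ (by positivity)]
    exact_mod_cast h1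
  obtain ⟨V, hV⟩ : ∃ V : ℝ, V = 2 ^ n / 2 ^ (t * t) := ⟨_, rfl⟩
  have hV0 : 0 < V := by rw [hV]; positivity
  have h2n : (0 : ℝ) < 2 ^ n := by positivity
  have h2m : (0 : ℝ) < 2 ^ (t * t) := by positivity
  have hρ : c0 ≤ V / 4 := by
    have h1 : 2 ^ (t * t + 2) * (n + 1) ≤ 2 ^ (n / 32768) := hN5 n (by omega)
    have h2 : 2 ^ (t * t + 2) ≤ 2 ^ (n / 32768) := (Nat.le_mul_of_pos_right _ (by omega)).trans h1
    have h3 : (2 : ℝ) ^ (t * t) * 4 ≤ 2 ^ (n / 32768) := by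
      have : ((2 ^ (t * t + 2) : ℕ) : ℝ) ≤ ((2 ^ (n / 32768) : ℕ) : ℝ) := by exact_mod_cast h2
      push_cast at this
      rw [pow_add] at this
      linarith
    have h4 : (0 : ℝ) < 2 ^ (n / 32768) := by positivity
    rw [hc0, hV, div_div, div_le_div_iff₀ h4 (by positivity)]
    exact mul_le_mul_of_nonneg_left h3 h2n.le
  have hpat : ∀ z, 3 / 4 * V ≤ ((Pat π h z).card : ℝ) ∧ ((Pat π h z).card : ℝ) ≤ 5 / 4 * V := by
    intro z
    have h1 := abs_le.1 (Q5_inv π h c0 hc00 hsmall z)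
    have h2 : (2 : ℝ) ^ (t * t) * V = 2 ^ n := by rw [hV]; field_simp
    have h3 : (2 : ℝ) ^ (t * t) * c0 ≤ 2 ^ (t * t) * (V / 4) := mul_le_mul_of_nonneg_left hρ h2m.le
    constructor
    · refine le_of_mul_le_mul_left ?_ h2m
      have h4 : (2 : ℝ) ^ (t * t) * (3 / 4 * V) = 3 / 4 * ((2 : ℝ) ^ (t * t) * V) := by ring
      have h5 : (2 : ℝ) ^ (t * t) * (V / 4) = ((2 : ℝ) ^ (t * t) * V) / 4 := by ring
      rw [h4, h2]
      rw [h5, h2] at h3
      linarith [h1.1]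
    · refine le_of_mul_le_mul_left ?_ h2m
      have h4 : (2 : ℝ) ^ (t * t) * (5 / 4 * V) = 5 / 4 * ((2 : ℝ) ^ (t * t) * V) := by ring
      have h5 : (2 : ℝ) ^ (t * t) * (V / 4) = ((2 : ℝ) ^ (t * t) * V) / 4 := by ring
      rw [h4, h2]
      rw [h5, h2] at h3
      linarith [h1.2]
  -- amplification
  obtain ⟨f, hf⟩ : ∃ f : Pt n → Bool, f = ao π h := ⟨_, rfl⟩
  rw [← hf] at hcon
  obtain ⟨U, hU1, hU2, hU3⟩ := amplify k ta P (2 ^ (n / D)) (fun ω => (hP ω).le) f hcon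
  obtain ⟨ε, hε⟩ : ∃ ε : ℝ, ε = Real.sqrt (8 / 9) ^ ta := ⟨_, rfl⟩
  have he0 : 0 ≤ ε := by rw [hε]; positivity
  obtain ⟨E, hE⟩ : ∃ E : (Fin ta → Ω) → Pt n → Prop,
    E = fun ω x => ¬ ∃ l, (U ω).Comp x l (f x) := ⟨_, rfl⟩
  have hΩ : 0 < Fintype.card (Fin ta → Ω) := Fintype.card_pos
  have hEc : ∀ x, ((univ.filter (fun ω => E ω x)).card : ℝ) ≤ ε * Fintype.card (Fin ta → Ω) := by
    intro x
    have h1 := hU3 x
    rw [Nat.card_eq_fintype_card, Fintype.card_subtype, Nat.card_eq_fintype_card] at h1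
    rw [Fintype.card_fun, Fintype.card_fin, hE, hε]
    push_cast
    exact h1
  obtain ⟨T0, hT0⟩ : ∃ T0 : ℝ, T0 = (t : ℝ) ^ t := ⟨_, rfl⟩
  have htR : (0 : ℝ) < t := by
    have : 0 < t := by omega
    exact_mod_cast this
  have hT00 : 0 < T0 := by rw [hT0]; positivity
  obtain ⟨wt, hwt⟩ : ∃ wt : Pt n → ℝ, wt = fun x =>
    ∑ J : Fin t → Fin t, (if x ∈ Pat π h (zr J) then (1 : ℝ) else 0) +
      1 / (t : ℝ) * ∑ J : Fin t → Fin t, ∑ i, (if x ∈ Pat π h (zo J i) then (1 : ℝ) else 0) :=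
    ⟨_, rfl⟩
  have hwt0 : ∀ x, 0 ≤ wt x := by
    intro x
    rw [hwt]
    dsimp only
    have h1 : ∀ z, (0 : ℝ) ≤ if x ∈ Pat π h z then (1 : ℝ) else 0 := by
      intro z; split_ifs <;> norm_num
    refine add_nonneg (Finset.sum_nonneg fun J _ => h1 _)
      (mul_nonneg (by positivity) (Finset.sum_nonneg fun J _ => Finset.sum_nonneg fun i _ => h1 _))
  have hsumwt : ∀ S : Finset (Pt n), ∑ x ∈ S, wt x =
      ∑ J : Fin t → Fin t, ((S ∩ Pat π h (zr J)).card : ℝ) +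
        1 / (t : ℝ) * ∑ J : Fin t → Fin t, ∑ i, ((S ∩ Pat π h (zo J i)).card : ℝ) := by
    intro S
    have h1 : ∀ z, ∑ x ∈ S, (if x ∈ Pat π h z then (1 : ℝ) else 0) =
        ((S ∩ Pat π h z).card : ℝ) := by
      intro z
      rw [Finset.sum_ite_mem, Finset.sum_const, nsmul_eq_mul, mul_one]
    rw [hwt]
    dsimp only
    rw [Finset.sum_add_distrib, ← Finset.mul_sum, Finset.sum_comm]
    congr 1
    · exact Finset.sum_congr rfl fun J _ => h1 _
    · congr 1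
      rw [Finset.sum_comm]
      refine Finset.sum_congr rfl fun J _ => ?_
      rw [Finset.sum_comm]
      exact Finset.sum_congr rfl fun i _ => h1 _
  obtain ⟨ω, hω⟩ := average univ wt hwt0 E ε hΩ hEc
  have hcardJ : ((univ : Finset (Fin t → Fin t)).card : ℝ) = T0 := by
    rw [hT0, Finset.card_univ, Fintype.card_fun, Fintype.card_fin]
    push_cast
    rfl
  have htot : ∑ x, wt x ≤ 5 / 2 * (V * T0) := by
    rw [hsumwt]
    have h1 : ∀ z, ((univ ∩ Pat π h z).card : ℝ) ≤ 5 / 4 * V := by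
      intro z; rw [Finset.univ_inter]; exact (hpat z).2
    have h2 : ∑ J : Fin t → Fin t, ((univ ∩ Pat π h (zr J)).card : ℝ) ≤ T0 * (5 / 4 * V) := by
      refine (Finset.sum_le_sum fun J _ => h1 _).trans ?_
      rw [Finset.sum_const, nsmul_eq_mul, hcardJ]
    have h3 : ∑ J : Fin t → Fin t, ∑ i, ((univ ∩ Pat π h (zo J i)).card : ℝ) ≤
        T0 * (t * (5 / 4 * V)) := by
      refine (Finset.sum_le_sum fun J _ => Finset.sum_le_sum fun i _ => h1 _).trans ?_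
      rw [Finset.sum_const, Finset.sum_const, nsmul_eq_mul, nsmul_eq_mul, hcardJ,
        Finset.card_univ, Fintype.card_fin]
    have h4 : 1 / (t : ℝ) * ∑ J : Fin t → Fin t, ∑ i, ((univ ∩ Pat π h (zo J i)).card : ℝ) ≤
        1 / (t : ℝ) * (T0 * (t * (5 / 4 * V))) := mul_le_mul_of_nonneg_left h3 (by positivity)
    have h5 : 1 / (t : ℝ) * (T0 * (t * (5 / 4 * V))) = T0 * (5 / 4 * V) := by
      field_simp
    linarith
  obtain ⟨a, ha⟩ : ∃ a : ℝ, a = ∑ J : Fin t → Fin t,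
    ((univ.filter (fun x => E ω x) ∩ Pat π h (zr J)).card : ℝ) := ⟨_, rfl⟩
  obtain ⟨b, hb⟩ : ∃ b : ℝ, b = 1 / (t : ℝ) * ∑ J : Fin t → Fin t, ∑ i,
    ((univ.filter (fun x => E ω x) ∩ Pat π h (zo J i)).card : ℝ) := ⟨_, rfl⟩
  have hab : a + b ≤ 5 / 2 * ε * (V * T0) := by
    rw [hsumwt, ← ha, ← hb] at hω
    refine hω.trans ?_
    calc ε * ∑ x, wt x ≤ ε * (5 / 2 * (V * T0)) := mul_le_mul_of_nonneg_left htot he0
      _ = _ := by ring
  have ha0 : 0 ≤ a := by rw [ha]; exact Finset.sum_nonneg fun J _ => Nat.cast_nonneg _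
  -- the deterministic bound
  have hd := hdet n (by omega) (G := G) (t := t) (L := L) ht32 hLt π h
    (fun A B' h1 h2 h3 => hker A B' h1 (hQ2 _ h2) (hQ2 _ h3))
    (fun A B' h2 h3 => (hbal A B' (hQ2 _ h2) (hQ2 _ h3)).trans hL.symm.le) (U ω) (fun x => by
      rw [hK]; exact hU2 ω x)
  have hlow : 3 / 4 * (V * T0) - a ≤ ∑ J : Fin t → Fin t,
      ((univ.filter (fun x => (∃ l, (U ω).Comp x l false) ∧ x ∈ Pat π h (zr J))).card : ℝ) := by
    have h1 : ∀ J : Fin t → Fin t, 3 / 4 * V ≤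
        ((univ.filter (fun x => (∃ l, (U ω).Comp x l false) ∧ x ∈ Pat π h (zr J))).card : ℝ) +
          ((univ.filter (fun x => E ω x) ∩ Pat π h (zr J)).card : ℝ) := by
      intro J
      refine (hpat (zr J)).1.trans ?_
      have h2 : Pat π h (zr J) ⊆
          univ.filter (fun x => (∃ l, (U ω).Comp x l false) ∧ x ∈ Pat π h (zr J)) ∪
            (univ.filter (fun x => E ω x) ∩ Pat π h (zr J)) := by
        intro x hx
        by_cases hEx : E ω x
        · exact mem_union_right _ (mem_inter.2 ⟨mem_filter.2 ⟨mem_univ _, hEx⟩, hx⟩)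
        · apply mem_union_left
          rw [hE] at hEx
          dsimp only at hEx
          rw [not_not] at hEx
          obtain ⟨l, hl⟩ := hEx
          rw [hf, ao_zr hx] at hl
          exact mem_filter.2 ⟨mem_univ _, ⟨l, hl⟩, hx⟩
      have h3 := (Finset.card_le_card h2).trans (Finset.card_union_le _ _)
      exact_mod_cast h3
    have h4 := Finset.sum_le_sum (s := (univ : Finset (Fin t → Fin t))) (fun J _ => h1 J)
    rw [Finset.sum_const, nsmul_eq_mul, hcardJ, Finset.sum_add_distrib, ← ha] at h4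
    linarith
  have hhigh : 2 / (t : ℝ) * ∑ J : Fin t → Fin t, ∑ i,
      ((univ.filter (fun x => (∃ l, (U ω).Comp x l false) ∧ x ∈ Pat π h (zo J i))).card : ℝ) ≤
      2 * b := by
    have h1 : ∑ J : Fin t → Fin t, ∑ i,
        ((univ.filter (fun x => (∃ l, (U ω).Comp x l false) ∧ x ∈ Pat π h (zo J i))).card : ℝ) ≤
        ∑ J : Fin t → Fin t, ∑ i,
          ((univ.filter (fun x => E ω x) ∩ Pat π h (zo J i)).card : ℝ) := by
      refine Finset.sum_le_sum fun J _ => Finset.sum_le_sum fun i _ => ?_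
      have h2 : univ.filter (fun x => (∃ l, (U ω).Comp x l false) ∧ x ∈ Pat π h (zo J i)) ⊆
          univ.filter (fun x => E ω x) ∩ Pat π h (zo J i) := by
        intro x hx
        obtain ⟨-, ⟨l, hl⟩, hx2⟩ := mem_filter.1 hx
        refine mem_inter.2 ⟨mem_filter.2 ⟨mem_univ _, ?_⟩, hx2⟩
        rw [hE]
        rintro ⟨l', hl'⟩
        rw [hf, ao_zo hx2] at hl'
        have := (comp_unique (U ω) x hl hl').2
        simp at this
      exact_mod_cast Finset.card_le_card h2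
    rw [hb]
    calc _ ≤ 2 / (t : ℝ) * ∑ J : Fin t → Fin t, ∑ i,
          ((univ.filter (fun x => E ω x) ∩ Pat π h (zo J i)).card : ℝ) :=
          mul_le_mul_of_nonneg_left h1 (by positivity)
      _ = _ := by ring
  -- the size of the program
  have hsize : Fintype.card (U ω).State ≤ 2 ^ (n / D) * 2 ^ (n / (2 * c1)) := by
    refine (hU1 ω).trans ?_
    have h1 : 4 ^ (ta + 1) * (k + 4) * (n + 1) ≤ 2 ^ (n / (2 * c1)) := hN3 n (by omega)
    have h2 : 1 ≤ 2 ^ (n / D) := Nat.one_le_two_pow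
    calc 4 ^ (ta + 1) * (2 ^ (n / D) * (k * n + 2) + n + 3) ≤
        4 ^ (ta + 1) * (2 ^ (n / D) * ((k + 4) * (n + 1))) := by
          apply Nat.mul_le_mul_left
          have h3 : (k + 4) * (n + 1) = k * n + k + 4 * n + 4 := by ring
          rw [h3]
          have h4 : 2 ^ (n / D) * (k * n + k + 4 * n + 4) =
            2 ^ (n / D) * (k * n + 2) + 2 ^ (n / D) * (k + 4 * n + 2) := by ring
          rw [h4]
          have h5 : k + 4 * n + 2 ≤ 2 ^ (n / D) * (k + 4 * n + 2) := Nat.le_mul_of_pos_left _ h2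
          omega
      _ = 2 ^ (n / D) * (4 ^ (ta + 1) * (k + 4) * (n + 1)) := by ring
      _ ≤ 2 ^ (n / D) * 2 ^ (n / (2 * c1)) := Nat.mul_le_mul_left _ h1
  have hsize2 : Fintype.card (U ω).State ^ (r + 1) ≤ 2 ^ (n / (2 * N)) := by
    refine (Nat.pow_le_pow_left hsize _).trans ?_
    rw [← pow_add, ← pow_mul]
    apply Nat.pow_le_pow_right (by norm_num)
    rw [Nat.le_div_iff_mul_le (by omega)]
    have h1 : 2 * c1 * (n / (2 * c1)) ≤ n := Nat.mul_div_le n (2 * c1)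
    have h2 : 2 * c1 * (n / D) ≤ n :=
      (Nat.mul_le_mul_right _ (by omega)).trans (Nat.mul_div_le n D)
    have h3 : 2 * ((n / D + n / (2 * c1)) * (r + 1) * (2 * N)) =
        2 * c1 * (n / D) + 2 * c1 * (n / (2 * c1)) := by rw [hc1]; ring
    omega
  have hT1 : 1 ≤ T0 := by
    rw [hT0]
    apply one_le_pow₀
    have : 1 ≤ t := by omega
    exact_mod_cast this
  have hVT : V ≤ V * T0 := le_mul_of_one_le_right hV0.le hT1
  have hZ : (Fintype.card (U ω).State : ℝ) ^ (r + 1) * ((2 : ℝ) ^ n / 2 ^ (n / N)) ≤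
      V * T0 / 32 := by
    have h1 : 32 * 2 ^ (t * t) * (n + 1) ≤ 2 ^ (n / (2 * N)) := hN4 n (by omega)
    have h2 : 32 * 2 ^ (t * t) ≤ 2 ^ (n / (2 * N)) := (Nat.le_mul_of_pos_right _ (by omega)).trans h1
    have h3 : 2 ^ (n / (2 * N)) * 2 ^ (n / (2 * N)) ≤ 2 ^ (n / N) := by
      rw [← pow_add]
      apply Nat.pow_le_pow_right (by norm_num)
      rw [Nat.le_div_iff_mul_le (by omega)]
      have := Nat.mul_div_le n (2 * N)
      nlinarith
    have h4 : Fintype.card (U ω).State ^ (r + 1) * (32 * 2 ^ (t * t)) ≤ 2 ^ (n / N) :=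
      (Nat.mul_le_mul hsize2 h2).trans h3
    have h5 : ((Fintype.card (U ω).State : ℝ) ^ (r + 1)) * (32 * (2 : ℝ) ^ (t * t)) ≤
        2 ^ (n / N) := by
      exact_mod_cast h4
    have h7 : (0 : ℝ) < 2 ^ (n / N) := by positivity
    have h8 : (Fintype.card (U ω).State : ℝ) ^ (r + 1) * ((2 : ℝ) ^ n / 2 ^ (n / N)) ≤ V / 32 := by
      rw [hV, div_div, mul_div_assoc', div_le_div_iff₀ h7 (by positivity)]
      calc (Fintype.card (U ω).State : ℝ) ^ (r + 1) * 2 ^ n * (2 ^ (t * t) * 32) =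
          2 ^ n * (((Fintype.card (U ω).State : ℝ) ^ (r + 1)) * (32 * (2 : ℝ) ^ (t * t))) := by ring
        _ ≤ 2 ^ n * 2 ^ (n / N) := mul_le_mul_of_nonneg_left h5 h2n.le
    linarith
  have hMR : 8 * ((K : ℝ) + 1) ^ 2 = M := by rw [hM]; push_cast; ring
  have hM1 : (1 : ℝ) ≤ M := by
    rw [← hMR]
    have : (0 : ℝ) ≤ K := Nat.cast_nonneg _
    nlinarith
  have hY : (M : ℝ) * (6 * (t : ℝ) ^ t * (2 ^ n / 2 ^ (n / (16384 * Q)))) ≤ V * T0 / 32 := by
    have h1 : 192 * M * 2 ^ (t * t) * (n + 1) ≤ 2 ^ (n / (16384 * Q)) := hN6 n (by omega)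
    have h2 : 192 * M * 2 ^ (t * t) ≤ 2 ^ (n / (16384 * Q)) :=
      (Nat.le_mul_of_pos_right _ (by omega)).trans h1
    have h3 : (192 : ℝ) * M * 2 ^ (t * t) ≤ 2 ^ (n / (16384 * Q)) := by exact_mod_cast h2
    have h7 : (0 : ℝ) < 2 ^ (n / (16384 * Q)) := by positivity
    have h8 : (M : ℝ) * 6 * (2 ^ n / 2 ^ (n / (16384 * Q))) ≤ V / 32 := by
      rw [hV, div_div, mul_div_assoc', div_le_div_iff₀ h7 (by positivity)]
      calc (M : ℝ) * 6 * 2 ^ n * (2 ^ (t * t) * 32) =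
          2 ^ n * (192 * M * 2 ^ (t * t)) := by ring
        _ ≤ 2 ^ n * 2 ^ (n / (16384 * Q)) := mul_le_mul_of_nonneg_left h3 h2n.le
    have h9 := mul_le_mul_of_nonneg_right h8 hT00.le
    rw [hT0] at h9 ⊢
    linarith
  have hX : (M : ℝ) * ((t : ℝ) ^ t / 2 ^ t * ∑ z, mu z * (Pat π h z).card) ≤ V * T0 / 32 := by
    have h1 : ∑ z : Fin (t * t) → Bool, mu z * ((Pat π h z).card : ℝ) ≤ 5 / 4 * V := by
      calc ∑ z : Fin (t * t) → Bool, mu z * ((Pat π h z).card : ℝ) ≤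
            ∑ z : Fin (t * t) → Bool, mu z * (5 / 4 * V) :=
            Finset.sum_le_sum fun z _ => mul_le_mul_of_nonneg_left (hpat z).2 (mu_nonneg ht32 z)
        _ = 5 / 4 * V := by rw [← Finset.sum_mul, sum_mu, one_mul]
    have h2 : M * 40 ≤ 2 ^ t := by
      have h3 : M ≤ 2 ^ M := Nat.lt_two_pow_self.le
      calc M * 40 ≤ 2 ^ M * 2 ^ 40 := Nat.mul_le_mul h3 (by norm_num)
        _ = 2 ^ (M + 40) := by rw [pow_add]
        _ ≤ 2 ^ t := Nat.pow_le_pow_right (by norm_num) (by omega)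
    have h3 : (M : ℝ) * 40 ≤ 2 ^ t := by exact_mod_cast h2
    have h4 : (0 : ℝ) < 2 ^ t := by positivity
    calc (M : ℝ) * ((t : ℝ) ^ t / 2 ^ t * ∑ z, mu z * (Pat π h z).card) ≤
          (M : ℝ) * ((t : ℝ) ^ t / 2 ^ t * (5 / 4 * V)) := by
          apply mul_le_mul_of_nonneg_left _ (by positivity)
          exact mul_le_mul_of_nonneg_left h1 (by positivity)
      _ = (M * 40) * (V * T0) / (32 * 2 ^ t) := by rw [hT0]; ring
      _ ≤ 2 ^ t * (V * T0) / (32 * 2 ^ t) := by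
          apply div_le_div_of_nonneg_right _ (by positivity)
          exact mul_le_mul_of_nonneg_right h3 (by positivity)
      _ = V * T0 / 32 := by field_simp
  rw [hMR] at hd
  have hMe : (M : ℝ) * ε ≤ 1 / 24 := by
    rw [← hMR, hε, hK]
    push_cast
    have h1 : 8 * ((ta : ℝ) * k + 1 + 1) ^ 2 * Real.sqrt (8 / 9) ^ ta =
      (24 * ((ta : ℝ) * k + 2) ^ 2 * Real.sqrt (8 / 9) ^ ta) / 3 := by ring
    rw [h1]
    linarith
  refine nc_contra V T0 a b M ε ((t : ℝ) ^ t / 2 ^ t * ∑ z, mu z * (Pat π h z).card)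
    (6 * (t : ℝ) ^ t * (2 ^ n / 2 ^ (n / (16384 * Q))))
    ((Fintype.card (U ω).State : ℝ) ^ (r + 1) * ((2 : ℝ) ^ n / 2 ^ (n / N)))
    hV0 hT00 hM1 hMe ha0 hab ?_ hX hY hZ
  refine hlow.trans (hd.trans ?_)
  have h1 : (M : ℝ) * (2 / (t : ℝ) * ∑ J : Fin t → Fin t, ∑ i,
      ((univ.filter (fun x => (∃ l, (U ω).Comp x l false) ∧ x ∈ Pat π h (zo J i))).card : ℝ)) ≤
      M * (2 * b) := mul_le_mul_of_nonneg_left hhigh (by linarith)
  have h2 : (M : ℝ) * (2 / (t : ℝ) * ∑ J : Fin t → Fin t, ∑ i,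
      ((univ.filter (fun x => (∃ l, (U ω).Comp x l false) ∧ x ∈ Pat π h (zo J i))).card : ℝ) +
        (t : ℝ) ^ t / 2 ^ t * ∑ z, mu z * (Pat π h z).card +
        6 * (t : ℝ) ^ t * (2 ^ n / 2 ^ (n / (16384 * Q)))) =
      (M : ℝ) * (2 / (t : ℝ) * ∑ J : Fin t → Fin t, ∑ i,
      ((univ.filter (fun x => (∃ l, (U ω).Comp x l false) ∧ x ∈ Pat π h (zo J i))).card : ℝ)) +
      M * ((t : ℝ) ^ t / 2 ^ t * ∑ z, mu z * (Pat π h z).card) +
      M * (6 * (t : ℝ) ^ t * (2 ^ n / 2 ^ (n / (16384 * Q)))) := by ring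
  rw [h2]
  linarith

end Pool.Agent.H554R2.NC
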