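import Pool.Agent.H554R2.NC.Defs

/-!
# Statements (stubs; do not import them in a hand-in)
-/

set_option autoImplicit false

open Finset

namespace Pool.Agent.H554R2.NC

open Pool.Agent.H554R2.Sem Pool.Agent.H554R2.Coin Pool.Agent.H554R2.Lin Pool.Agent.H554R2.Rnd
open Pool.Agent.H554R2.Qua

open Classical in
/-- A1: variances of the averages over cosets -/
theorem four_var {V : Type} [AddCommGroup V] [Fintype V] {m r : ℕ} (hr : 1 ≤ r)
    (H : Fin m → AddSubgroup V) (hgen : ∀ s : Finset (Fin m), s.card = r → ⨆ i ∈ s, H i = ⊤)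
    (f : V → ℝ) :
    ∑ i, ∑ v, ((∑ w ∈ univ.filter (fun w => w - v ∈ H i), f w) / (Nat.card (H i) : ℝ) -
      (∑ w, f w) / (Fintype.card V : ℝ)) ^ 2 ≤ ((r : ℝ) - 1) * ∑ v, f v ^ 2 := by
  sorry

open Classical in
/-- A2: lines in general position -/
theorem lines (a r m : ℕ) (ha : 1 ≤ a) (hr : 1 ≤ r) (hm : m ≤ 2 ^ a) :
    ∃ (V : Type) (_ : AddCommGroup V) (_ : Fintype V) (H : Fin m → AddSubgroup V) (c : V → Bool),
      Fintype.card V = (2 ^ a) ^ r ∧ (∀ i, Nat.card (H i) = 2 ^ a) ∧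
      (∀ s : Finset (Fin m), s.card = r → ⨆ i ∈ s, H i = ⊤) ∧
      (∀ s : Finset (Fin m), Nat.card (⨆ i ∈ s, H i : AddSubgroup V) ≤ (2 ^ a) ^ s.card) ∧
      ∀ i v b, (univ.filter (fun w => w - v ∈ H i ∧ c w = b)).card = 2 ^ (a - 1) := by
  sorry

open Classical in
/-- A3: few partitions are not balanced -/
theorem bal_few {V : Type} [AddCommGroup V] [Fintype V] {m r n G q Q F : ℕ} (hr : 1 ≤ r)
    (hQ : 1 ≤ Q) (hn : 1 ≤ n) (H : Fin m → AddSubgroup V) (hq : ∀ i, Nat.card (H i) = q)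
    (hgen : ∀ s : Finset (Fin m), s.card = r → ⨆ i ∈ s, H i = ⊤)
    (lam : Fin n → V) (hF : ∀ v, (univ.filter (fun j => lam j = v)).card ≤ F)
    (hFn : F * Fintype.card V ≤ 2 * n) (ρ : Fin m → V → Fin G)
    (hρ : ∀ i u v, ρ i u = ρ i v ↔ u - v ∈ H i) (hGq : G * q = Fintype.card V)
    (A B : Finset (Fin n)) (hA : n ≤ Q * A.card) (hB : n ≤ Q * B.card) :
    Nat.card {i // ¬ Bal (fun j => ρ i (lam j)) A B} ≤ 64 * r * Q := by
  sorry

open Classical in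
/-- A4: halves for which all partitions are balanced -/
theorem bal_half {V : Type} [AddCommGroup V] [Fintype V] {m n G q F : ℕ}
    (hq : 1 ≤ q) (hF : 1 ≤ F) (H : Fin m → AddSubgroup V)
    (c : V → Bool) (hc : ∀ i v b, (univ.filter (fun w => w - v ∈ H i ∧ c w = b)).card = q)
    (hcV : ∀ b, 2 * (univ.filter (fun w => c w = b)).card = Fintype.card V)
    (lam : Fin n → V) (hF1 : ∀ v, F ≤ (univ.filter (fun j => lam j = v)).card)
    (hF2 : ∀ v, (univ.filter (fun j => lam j = v)).card ≤ 2 * F) (ρ : Fin m → V → Fin G)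
    (hρ : ∀ i u v, ρ i u = ρ i v ↔ u - v ∈ H i) (hρs : ∀ i, Function.Surjective (ρ i))
    (hGq : G * (2 * q) = Fintype.card V) :
    ∃ A B : Finset (Fin n), Disjoint A B ∧ n ≤ 4 * A.card ∧ n ≤ 4 * B.card ∧
      ∀ i, Bal (fun j => ρ i (lam j)) A B := by
  sorry

/-- A5: the partitions -/
theorem alg_groups (Q e t W1 : ℕ) (hQ : 1 ≤ Q) (he : 1 ≤ e) (ht : 1 ≤ t) :
    ∃ N C : ℕ, ∀ n ≥ N, ∃ (G : ℕ) (π : Fin (t * t) → Fin n → Fin G), 1 ≤ G ∧ W1 * G ≤ n ∧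
      (∀ A B : Finset (Fin n), n ≤ Q * A.card → n ≤ Q * B.card →
        Nat.card {j // ¬ Bal (π j) A B} ≤ 64 * (e * t) * Q) ∧
      (∃ A B : Finset (Fin n), Disjoint A B ∧ n ≤ 4 * A.card ∧ n ≤ 4 * B.card ∧
        ∀ j, Bal (π j) A B) ∧
      ∀ T : Finset (Fin (t * t)), T.card ≤ t → ∃ (M w : ℕ) (β : Fin n → Fin M), M ≤ n ∧
        (∀ i ∈ T, ∀ u v, π i u = π i v → β u = β v) ∧
        (∀ b, (univ.filter (fun v => β v = b)).card ≤ w) ∧ w ^ e ≤ C * n := by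
  sorry

/-- A6: coefficients, for any number of groups -/
theorem coefs_gen (Q D : ℕ) (hQ : 1 ≤ Q) : ∃ W1 N : ℕ, 1 ≤ W1 ∧ ∀ n ≥ N, ∀ G : ℕ, 1 ≤ G →
    W1 * G ≤ n → ∀ π : Fin D → Fin n → Fin G, ∃ h : Fin D → Fin n → Fin n → Bool,
      ∀ A B : Finset (Fin n), Disjoint A B → n ≤ Q * A.card → n ≤ Q * B.card →
        ∀ s : Finset (Fin D), ∀ j ∈ s, Bal (π j) A B →
          (ker (coef π h s) A B).card * 2 ^ (min A.card B.card / 2048) ≤ 2 ^ B.card := by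
  sorry

/-- A7: several forms are computed in one pass -/
theorem joint_program {n G D M : ℕ} (π : Fin D → Fin n → Fin G) (h : Fin D → Fin n → Fin n → Bool)
    (T : Finset (Fin D)) (z : Fin D → Bool) (β : Fin n → Fin M)
    (hβ : ∀ i ∈ T, ∀ u v, π i u = π i v → β u = β v) :
    ∃ (U : BP (Fin n) Bool) (l : List (Fin n)),
      Fintype.card U.State ≤
        2 ^ (T.card + 3) * (∑ b, 2 ^ (univ.filter (fun v => β v = b)).card + 1) ∧ l.Nodup ∧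
      ∀ x : Pt n, U.Comp x l (decide (∀ i ∈ T, qr (π i) (h i) x = z i)) := by
  sorry

/-- A8: the inequality for one class -/
theorem mu_class {t L : ℕ} (ht : 32 ≤ t) (hL : 32 * L ≤ t * t) (N : (Fin (t * t) → Bool) → ℝ)
    (hN : ∀ z, 0 ≤ N z) (ε : ℝ) (hε : 0 ≤ ε) (U : Finset (Fin (t * t))) (hU : U.card ≤ L)
    (hNU : ∀ z z', (∀ j ∈ U, z j = z' j) → |N z - N z'| ≤ ε) :
    ∑ J : Fin t → Fin t, N (zr J) ≤ (2 / (t : ℝ)) * ∑ J : Fin t → Fin t, ∑ i, N (zo J i) +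
      (t : ℝ) ^ t / 2 ^ t * ∑ z, mu z * N z + 3 * (t : ℝ) ^ t * ε := by
  sorry

/-- A9: patterns in a class -/
theorem class_pat {n r s G D Q L : ℕ} (hQ : 1 ≤ Q) (B : Blk n r s) (hB : AllRead B)
    (T : Fin r → Fin 3) (x : Pt n) (hx : x ∈ B.K) (hL : Lg Q B T x)
    (π : Fin D → Fin n → Fin G) (h : Fin D → Fin n → Fin n → Bool)
    (hker : ∀ A B' : Finset (Fin n), Disjoint A B' → n ≤ Q * A.card → n ≤ Q * B'.card →
      ∀ s : Finset (Fin D), ∀ j ∈ s, Bal (π j) A B' →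
        (ker (coef π h s) A B').card * 2 ^ (min A.card B'.card / 2048) ≤ 2 ^ B'.card)
    (hbal : ∀ A B' : Finset (Fin n), n ≤ Q * A.card → n ≤ Q * B'.card →
      Nat.card {j // ¬ Bal (π j) A B'} ≤ L) :
    ∃ U : Finset (Fin D), U.card ≤ L ∧ ∀ z z' : Fin D → Bool, (∀ j ∈ U, z j = z' j) →
      |((cls B T x ∩ Pat π h z).card : ℝ) - (cls B T x ∩ Pat π h z').card| ≤
        2 * (cls B T x).card / 2 ^ (n / (16384 * Q)) := by
  sorry

open Classical in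
/-- A10: the union of the large classes -/
theorem large_pat {n r s G t Q L : ℕ} (hQ : 1 ≤ Q) (ht : 32 ≤ t) (htL : 32 * L ≤ t * t)
    (B : Blk n r s) (hB : AllRead B)
    (T : Fin r → Fin 3) (π : Fin (t * t) → Fin n → Fin G)
    (h : Fin (t * t) → Fin n → Fin n → Bool)
    (hker : ∀ A B' : Finset (Fin n), Disjoint A B' → n ≤ Q * A.card → n ≤ Q * B'.card →
      ∀ s : Finset (Fin (t * t)), ∀ j ∈ s, Bal (π j) A B' →
        (ker (coef π h s) A B').card * 2 ^ (min A.card B'.card / 2048) ≤ 2 ^ B'.card)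
    (hbal : ∀ A B' : Finset (Fin n), n ≤ Q * A.card → n ≤ Q * B'.card →
      Nat.card {j // ¬ Bal (π j) A B'} ≤ L) :
    ∑ J : Fin t → Fin t, (((B.K.filter (fun x => Lg Q B T x)) ∩ Pat π h (zr J)).card : ℝ) ≤
      (2 / (t : ℝ)) * ∑ J : Fin t → Fin t, ∑ i,
        (((B.K.filter (fun x => Lg Q B T x)) ∩ Pat π h (zo J i)).card : ℝ) +
      (t : ℝ) ^ t / 2 ^ t *
        ∑ z, mu z * ((B.K.filter (fun x => Lg Q B T x)) ∩ Pat π h z).card +
      6 * (t : ℝ) ^ t * ((B.K.filter (fun x => Lg Q B T x)).card / 2 ^ (n / (16384 * Q))) := by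
  sorry

open Classical in
/-- A11: deterministic programs -/
theorem nc_det (k : ℕ) (hk : 1 ≤ k) : ∃ Q r N : ℕ, 1 ≤ Q ∧ 1 ≤ r ∧ 1 ≤ N ∧ ∀ n ≥ N,
    ∀ {G t L : ℕ}, 32 ≤ t → 32 * L ≤ t * t →
    ∀ (π : Fin (t * t) → Fin n → Fin G) (h : Fin (t * t) → Fin n → Fin n → Bool),
    (∀ A B' : Finset (Fin n), Disjoint A B' → n ≤ Q * A.card → n ≤ Q * B'.card →
      ∀ s : Finset (Fin (t * t)), ∀ j ∈ s, Bal (π j) A B' →
        (ker (coef π h s) A B').card * 2 ^ (min A.card B'.card / 2048) ≤ 2 ^ B'.card) →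
    (∀ A B' : Finset (Fin n), n ≤ Q * A.card → n ≤ Q * B'.card →
      Nat.card {j // ¬ Bal (π j) A B'} ≤ L) →
    ∀ P : BP (Fin n) Bool,
      (∀ x, ∃ (l : List (Fin n)) (b : Bool), l.length ≤ k * n ∧ P.Comp x l b ∧ ∀ v, v ∈ l) →
      ∑ J : Fin t → Fin t, ((univ.filter (fun x => (∃ l, P.Comp x l false) ∧
          x ∈ Pat π h (zr J))).card : ℝ) ≤
        8 * ((k : ℝ) + 1) ^ 2 * ((2 / (t : ℝ)) * ∑ J : Fin t → Fin t, ∑ i,
            ((univ.filter (fun x => (∃ l, P.Comp x l false) ∧ x ∈ Pat π h (zo J i))).card : ℝ) +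
          (t : ℝ) ^ t / 2 ^ t * ∑ z, mu z * (Pat π h z).card +
          6 * (t : ℝ) ^ t * (2 ^ n / 2 ^ (n / (16384 * Q)))) +
        (Fintype.card P.State : ℝ) ^ (r + 1) * (2 ^ n / 2 ^ (n / N)) := by
  sorry

end Pool.Agent.H554R2.NC
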